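import Pool.Agent.V7H29.OL.Cor2

set_option autoImplicit false

/-! Exact formulas in all convex lattice hexagons. -/

namespace Pool.Agent.V7H29.OL

open Finset H978R2.Hex H978R3.Wedge

/-- convex lattice hexagon -/
def HH (A B E Q R : ℤ) (v : V) : Prop :=
  1 ≤ v.1 - v.2 ∧ v.1 - v.2 ≤ 2 * E + 2 ∧ -Q ≤ v.2 ∧ v.2 ≤ R ∧ -2 * A ≤ v.1 + v.2 ∧
    v.1 + v.2 ≤ 2 * B + 1

instance (A B E Q R : ℤ) : DecidablePred (HH A B E Q R) := fun v => by unfold HH; infer_instance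

/-- the hexagon as a finite set -/
noncomputable def Hn (A B E Q R : ℤ) : Finset V :=
  ((Finset.Icc (-Q + 1) (2 * E + 2 + R)) ×ˢ (Finset.Icc (-Q) R)).filter (HH A B E Q R)

theorem mem_Hn (A B E Q R : ℤ) (v : V) : v ∈ Hn A B E Q R ↔ HH A B E Q R v := by
  unfold Hn
  rw [Finset.mem_filter, Finset.mem_product, Finset.mem_Icc, Finset.mem_Icc]
  constructor
  · exact fun h => h.2
  · intro h
    refine ⟨?_, h⟩
    unfold HH at h
    omega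

/-- parameters -/
def hp (A B E Q R : ℤ) : Par where
  a4 := 2
  c3 := 1
  R := R
  b := 2 * B + 1
  d := 2 * E + 2
  Q := Q
  a2 := -2 * A
  c1 := 1

theorem ok_hp {A B E Q R : ℤ} (hA : 0 ≤ A) (hB : 0 ≤ B) (hE : 0 ≤ E) (hQ : 0 ≤ Q) (hR : 0 ≤ R) :
    Ok (hp A B E Q R) := by
  constructor <;> simp only [hp] <;> omega

theorem om_hp {A B E Q R : ℤ} (hA : 0 ≤ A) (v : V) :
    Om (hp A B E Q R) v ↔ v ∈ Hn A B E Q R := by
  rw [mem_Hn]
  unfold Om hp HH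
  simp only
  omega

theorem base_Hn {A B E Q R : ℤ} (hA : 0 ≤ A) (hB : 0 ≤ B) (hE : 0 ≤ E) (hQ : 0 ≤ Q) (hR : 0 ≤ R) :
    ((1, 0) : V) ∈ Hn A B E Q R := by
  rw [mem_Hn]
  unfold HH
  simp only
  omega

theorem Hn_slit (A B E Q R : ℤ) : ∀ v ∈ Hn A B E Q R, ¬ Slit v := by
  intro v hv hs
  rw [mem_Hn] at hv
  unfold HH at hv
  unfold Slit at hs
  omega

theorem Hn_01 (A B E Q R : ℤ) : ((0, 1) : V) ∉ Hn A B E Q R := by
  intro hv
  rw [mem_Hn] at hv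
  unfold HH at hv
  simp only at hv
  omega

/-- the winding of the exits -/
theorem hex_kind {A B E Q R : ℤ} (hA : 0 ≤ A) (hB : 0 ≤ B) (hE : 0 ≤ E) (hQ : 0 ≤ Q) (hR : 0 ≤ R)
    {l : List V} (hl : l ∈ EE (Hn A B E Q R)) (h00 : l.headD (0, 0) ≠ (0, 0)) :
    ∀ z : V, z = l.headD (0, 0) →
    (((z.1 - z.2 < 1 ∧ 1 ≤ z.2) ↔ W l = 3) ∧ ((z.1 - z.2 < 1 ∧ z.2 ≤ -1) ↔ W l = -3) ∧
      (R < z.2 ↔ W l = 2) ∧ (z.1 + z.2 < -2 * A ↔ W l = -2) ∧ (2 * B + 1 < z.1 + z.2 ↔ W l = 1) ∧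
      (z.2 < -Q ↔ W l = -1) ∧ (2 * E + 2 < z.1 - z.2 ↔ W l = 0)) ∧ -3 ≤ W l ∧ W l ≤ 3 := by
  intro z hz
  obtain ⟨y, hy, ha⟩ := exit_adj (base_Hn hA hB hE hQ hR) hl
  obtain ⟨h3, hlen⟩ := len_EE hl
  unfold EE at hl
  rw [Finset.mem_filter] at hl
  have h4 := hl.2
  have h5 : Val (Om (hp A B E Q R)) l := Val_mono (fun v hv => (om_hp hA v).2 hv) h3
  have hP : l ∈ P (Om (hp A B E Q R)) (l.length - 2) := mem_P.2 ⟨h5, by omega⟩
  have ho := class_om (hp A B E Q R) (ok_hp hA hB hE hQ hR) (l.length - 2) l hP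
    (fun h => h4 ((om_hp hA _).1 h))
  have hb : W l ≠ 5 := by
    apply no_five (hp A B E Q R) (ok_hp hA hB hE hQ hR) _ hP
      (fun h => h4 ((om_hp hA _).1 h))
    intro x hx hOm
    rw [om_hp hA, mem_Hn] at hOm
    unfold HH at hOm
    simp only at hOm
    omega
  rw [mem_Hn] at hy h4
  clear h3 h5 hlen hl hP
  rw [← hz] at h4 ha ho h00
  clear hz
  generalize W l = k at *
  obtain ⟨z1, z2⟩ := z
  obtain ⟨y1, y2⟩ := y
  rw [adj_iff] at ha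
  unfold HH at h4 hy
  unfold Out hp Slit at ho
  rw [ne_eq, Prod.mk.injEq] at h00
  simp only at ha h4 hy ho ⊢
  rcases ho with ho | ho | ho | ho | ho | ho | ho | ho | ho | ho <;>
    rcases ha with ha | ha | ha | ha <;> first | (exfalso; omega) | (obtain ⟨rfl, ho⟩ := ho; omega)

/-- the exits in `Q` -/
noncomputable def EX (D : Finset V) (S : Set V) : Finset (List V) :=
  open scoped Classical in (EE D).filter (fun l => l.headD (0, 0) ∈ S)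

theorem mem_EX {D : Finset V} {S : Set V} {l : List V} :
    l ∈ EX D S ↔ l ∈ EE D ∧ l.headD (0, 0) ∈ S := by
  classical
  unfold EX
  rw [Finset.mem_filter]

/-- the identity with all exits named -/
theorem hex_all {x θ : ℝ} (hx : 2 * x * Real.cos θ = 1) {A B E Q R : ℤ} (hA : 0 ≤ A)
    (hB : 0 ≤ B) (hE : 0 ≤ E) (hQ : 0 ≤ Q) (hR : 0 ≤ R) (φ : ℝ) (f : List V → ℝ)
    (hf : f = wt (-2 * Real.cos (4 * θ)) x (Hn A B E Q R)) :
    Real.cos (3 * θ + φ) * ∑ l ∈ EX (Hn A B E Q R) {v | v.1 - v.2 < 1 ∧ 1 ≤ v.2}, f l +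
      Real.cos (-3 * θ + φ) * ∑ l ∈ EX (Hn A B E Q R) {v | v.1 - v.2 < 1 ∧ v.2 ≤ -1}, f l +
      Real.cos (2 * θ + φ) * ∑ l ∈ EX (Hn A B E Q R) {v | R < v.2}, f l +
      Real.cos (-2 * θ + φ) * ∑ l ∈ EX (Hn A B E Q R) {v | v.1 + v.2 < -2 * A}, f l +
      Real.cos (1 * θ + φ) * ∑ l ∈ EX (Hn A B E Q R) {v | 2 * B + 1 < v.1 + v.2}, f l +
      Real.cos (-1 * θ + φ) * ∑ l ∈ EX (Hn A B E Q R) {v | v.2 < -Q}, f l +
      Real.cos (0 * θ + φ) * ∑ l ∈ EX (Hn A B E Q R) {v | 2 * E + 2 < v.1 - v.2}, f l =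
      Real.cos φ * Zp (-2 * Real.cos (4 * θ)) x (Hn A B E Q R) := by
  classical
  have h := rot_id hx (Hn_slit A B E Q R) φ
  rw [← h]
  unfold EX
  simp only [Set.mem_ofPred_eq]
  rw [Finset.mul_sum, Finset.mul_sum, Finset.mul_sum, Finset.mul_sum, Finset.mul_sum,
    Finset.mul_sum, Finset.mul_sum, Finset.sum_filter, Finset.sum_filter, Finset.sum_filter,
    Finset.sum_filter, Finset.sum_filter, Finset.sum_filter, Finset.sum_filter,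
    ← Finset.sum_add_distrib, ← Finset.sum_add_distrib, ← Finset.sum_add_distrib,
    ← Finset.sum_add_distrib, ← Finset.sum_add_distrib, ← Finset.sum_add_distrib]
  refine Finset.sum_congr rfl fun l hl => ?_
  obtain ⟨⟨k1, k2, k3, k4, k5, k6, k7⟩, k8, k9⟩ := hex_kind hA hB hE hQ hR hl
    (head_ne (Hn_slit A B E Q R) (Hn_01 A B E Q R) hl) _ rfl
  simp only [k1, k2, k3, k4, k5, k6, k7]
  rw [hf]
  generalize W l = k at *
  interval_cases k <;> norm_num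

/-- the two formulas -/
theorem hex_pair {n x σ : ℝ} (hn : -2 < n) (hσ : σ ^ 2 = 2 - n) (hσ' : -2 < σ)
    (hx : x = (2 + σ) ^ (-(1 / 2) : ℝ)) {A B E Q R : ℤ} (hA : 0 ≤ A)
    (hB : 0 ≤ B) (hE : 0 ≤ E) (hQ : 0 ≤ Q) (hR : 0 ≤ R) (Zs : Set V → ℝ)
    (hZs : ∀ S, Zs S = x * ∑ l ∈ EX (Hn A B E Q R) S, wt n x (Hn A B E Q R) l) :
    σ * Zs {v | v.1 - v.2 < 1 ∧ 1 ≤ v.2} + (1 + σ) * x * Zs {v | R < v.2} +
        Zs {v | 2 * B + 1 < v.1 + v.2} + x * Zs {v | 2 * E + 2 < v.1 - v.2} =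
      x ^ 2 * Zp n x (Hn A B E Q R) + Zs {v | v.1 - v.2 < 1 ∧ v.2 ≤ -1} +
        x * Zs {v | v.1 + v.2 < -2 * A} ∧
    σ * Zs {v | v.1 - v.2 < 1 ∧ v.2 ≤ -1} + (1 + σ) * x * Zs {v | v.1 + v.2 < -2 * A} +
        Zs {v | v.2 < -Q} + x * Zs {v | 2 * E + 2 < v.1 - v.2} =
      x ^ 2 * Zp n x (Hn A B E Q R) + Zs {v | v.1 - v.2 < 1 ∧ 1 ≤ v.2} +
        x * Zs {v | R < v.2} := by
  obtain ⟨θ, hA1, hA2, hs, -, hx0⟩ := ang_gen hn.le hσ hσ' hx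
  have hsin : Real.sin θ ≠ 0 := by
    intro h
    have h1 := Real.sin_sq_add_cos_sq θ
    have h2 := Real.cos_two_mul θ
    rw [h] at h1
    have h3 : σ = 2 := by
      rw [hs, h2]
      nlinarith
    rw [h3] at hσ
    linarith
  have key := fun φ : ℝ => hex_all hA1 hA hB hE hQ hR φ _ rfl
  rw [← hA2] at key
  simp only [hZs]
  generalize ∑ l ∈ EX (Hn A B E Q R) {v | v.1 - v.2 < 1 ∧ 1 ≤ v.2},
    wt n x (Hn A B E Q R) l = s3 at *
  generalize ∑ l ∈ EX (Hn A B E Q R) {v | v.1 - v.2 < 1 ∧ v.2 ≤ -1},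
    wt n x (Hn A B E Q R) l = t3 at *
  generalize ∑ l ∈ EX (Hn A B E Q R) {v | R < v.2}, wt n x (Hn A B E Q R) l = s2 at *
  generalize ∑ l ∈ EX (Hn A B E Q R) {v | v.1 + v.2 < -2 * A},
    wt n x (Hn A B E Q R) l = t2 at *
  generalize ∑ l ∈ EX (Hn A B E Q R) {v | 2 * B + 1 < v.1 + v.2},
    wt n x (Hn A B E Q R) l = s1 at *
  generalize ∑ l ∈ EX (Hn A B E Q R) {v | v.2 < -Q}, wt n x (Hn A B E Q R) l = t1 at *
  generalize ∑ l ∈ EX (Hn A B E Q R) {v | 2 * E + 2 < v.1 - v.2},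
    wt n x (Hn A B E Q R) l = s0 at *
  generalize Zp n x (Hn A B E Q R) = Z at *
  have a1 := key 0
  have a2 := key (Real.pi / 2)
  clear key hZs Zs
  simp only [add_zero, Real.cos_add_pi_div_two, zero_mul, zero_add, one_mul, neg_mul,
    Real.cos_zero, Real.cos_neg, Real.sin_neg, Real.cos_pi_div_two] at a1 a2
  have e1 : Real.cos (3 * θ) = Real.cos θ * (σ - 1) := by
    rw [Real.cos_three_mul, hs, Real.cos_two_mul]
    ring
  have e2 : Real.cos (2 * θ) = σ / 2 := by rw [hs]; ring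
  have e3 : Real.sin (3 * θ) = Real.sin θ * (1 + σ) := by
    have h1 := Real.sin_sq_add_cos_sq θ
    rw [Real.sin_three_mul, hs, Real.cos_two_mul]
    linear_combination (-4 * Real.sin θ) * h1
  have e4 : Real.sin (2 * θ) = 2 * Real.sin θ * Real.cos θ := Real.sin_two_mul θ
  rw [e1, e2] at a1
  rw [e3, e4] at a2
  have h5 : Real.sin θ * ((1 + σ) * (s3 - t3) + 2 * Real.cos θ * (s2 - t2) + (s1 - t1)) = 0 := by
    linear_combination -a2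
  have h6 := (mul_eq_zero.1 h5).resolve_left hsin
  have hq : x ^ 2 * (2 + σ) = 1 := by
    rw [hs, Real.cos_two_mul]
    linear_combination (2 * x * Real.cos θ + 1) * hA1
  constructor
  · linear_combination x ^ 2 * a1 + (x / 2) * h6 - (x / 2 * (σ - 1) * (s3 + t3) +
      x / 2 * (s1 + t1) + 1 / 2 * (s2 - t2)) * hA1 + 1 / 2 * (s2 - t2) * hq
  · linear_combination x ^ 2 * a1 - (x / 2) * h6 - (x / 2 * (σ - 1) * (s3 + t3) +
      x / 2 * (s1 + t1) - 1 / 2 * (s2 - t2)) * hA1 - 1 / 2 * (s2 - t2) * hq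

end Pool.Agent.V7H29.OL
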