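import Pool.Agent.V7H29.OL.Ineq

set_option autoImplicit false

/-! The parameters in terms of `κ`. -/

namespace Pool.Agent.V7H29.OL

open Real

theorem theta_eq {κ θ : ℝ} (h1 : 8 / 3 ≤ κ) (hθ : θ = π / 2 - π / κ) :
    θ = π * (κ - 2) / (2 * κ) := by
  have : κ ≠ 0 := by linarith
  rw [hθ]
  field_simp

theorem theta_lo {κ θ : ℝ} (h1 : 8 / 3 ≤ κ) (hθ : θ = π / 2 - π / κ) : π / 8 ≤ θ := by
  have hpi := Real.pi_pos
  have hk : (0 : ℝ) < κ := by linarith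
  rw [theta_eq h1 hθ, le_div_iff₀ (by linarith)]
  nlinarith

theorem theta_hi {κ θ : ℝ} (h1 : 8 / 3 ≤ κ) (h2 : κ ≤ 8) (hθ : θ = π / 2 - π / κ) :
    θ ≤ 3 * π / 8 := by
  have hpi := Real.pi_pos
  have hk : (0 : ℝ) < κ := by linarith
  rw [theta_eq h1 hθ, div_le_iff₀ (by linarith)]
  nlinarith

theorem cond_ge {κ θ : ℝ} (h1 : 8 / 3 ≤ κ) (hθ : θ = π / 2 - π / κ) (j : ℕ)
    (h : 2 * ((j : ℝ) + 3) / (j + 1) ≤ κ) : π ≤ (j + 3) * θ := by
  have hpi := Real.pi_pos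
  have hk : (0 : ℝ) < κ := by linarith
  have hj : (0 : ℝ) < (j : ℝ) + 1 := by positivity
  rw [div_le_iff₀ hj] at h
  rw [theta_eq h1 hθ, mul_div_assoc', le_div_iff₀ (by linarith)]
  nlinarith

theorem cond_le {κ θ : ℝ} (h1 : 8 / 3 ≤ κ) (hθ : θ = π / 2 - π / κ) (j : ℕ)
    (h : κ ≤ 2 * ((j : ℝ) + 3) / (j + 1)) : (j + 3) * θ ≤ π := by
  have hpi := Real.pi_pos
  have hk : (0 : ℝ) < κ := by linarith
  have hj : (0 : ℝ) < (j : ℝ) + 1 := by positivity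
  rw [le_div_iff₀ hj] at h
  rw [theta_eq h1 hθ, mul_div_assoc', div_le_iff₀ (by linarith)]
  nlinarith

theorem ang_of {κ n x θ : ℝ} (h1 : 8 / 3 ≤ κ) (h2 : κ ≤ 8) (hn : n = -2 * Real.cos (4 * π / κ))
    (hx1 : κ ≤ 4 → x = (2 + Real.sqrt (2 - n)) ^ (-(1 / 2) : ℝ))
    (hx2 : 4 ≤ κ → x = (2 - Real.sqrt (2 - n)) ^ (-(1 / 2) : ℝ))
    (hθ : θ = π / 2 - π / κ) : Ang n x θ := by
  have hpi := Real.pi_pos
  have hk : (0 : ℝ) < κ := by linarith
  have hlo := theta_lo h1 hθ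
  have hhi := theta_hi h1 h2 hθ
  have hn' : n = -2 * Real.cos (4 * θ) := by
    rw [hn]
    have e : 4 * θ = 2 * π - 4 * π / κ := by
      rw [hθ]; field_simp; ring
    rw [e, Real.cos_two_pi_sub]
  have hc : 0 < Real.cos θ := Real.cos_pos_of_mem_Ioo ⟨by linarith, by linarith⟩
  have h4 : Real.cos (4 * θ) = 2 * Real.cos (2 * θ) ^ 2 - 1 := by
    have : 4 * θ = 2 * (2 * θ) := by ring
    rw [this, Real.cos_two_mul]
  have h2n : 2 - n = (2 * Real.cos (2 * θ)) ^ 2 := by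
    rw [hn', h4]; ring
  have hsq : (2 * Real.cos θ) ^ 2 = 2 + 2 * Real.cos (2 * θ) := by
    rw [Real.cos_two_mul]; ring
  have hpow : ((2 * Real.cos θ) ^ 2) ^ (-(1 / 2) : ℝ) = (2 * Real.cos θ)⁻¹ := by
    rw [← Real.rpow_natCast, ← Real.rpow_mul (by positivity)]
    norm_num
    rw [Real.rpow_neg_one]
    simp [mul_comm]
  have hxx : x = (2 * Real.cos θ)⁻¹ := by
    rcases le_total κ 4 with h | h
    · have hθ4 : θ ≤ π / 4 := by
        rw [theta_eq h1 hθ, div_le_iff₀ (by linarith)]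
        nlinarith
      have h5 : 0 ≤ Real.cos (2 * θ) :=
        Real.cos_nonneg_of_neg_pi_div_two_le_of_le (by linarith) (by linarith)
      rw [hx1 h, h2n, Real.sqrt_sq (by positivity), ← hsq, hpow]
    · have hθ4 : π / 4 ≤ θ := by
        rw [theta_eq h1 hθ, le_div_iff₀ (by linarith)]
        nlinarith
      have h5 : Real.cos (2 * θ) ≤ 0 :=
        Real.cos_nonpos_of_pi_div_two_le_of_le (by linarith) (by linarith)
      have h6 : (2 * Real.cos (2 * θ)) ^ 2 = (-(2 * Real.cos (2 * θ))) ^ 2 := by ring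
      rw [hx2 h, h2n, h6, Real.sqrt_sq (by linarith), sub_neg_eq_add, ← hsq, hpow]
  refine ⟨hlo, hhi, ?_, hn'⟩
  rw [hxx]
  field_simp

end Pool.Agent.V7H29.OL
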