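import Pool.Agent.V7H29.OL.Two
import Pool.Agent.V7H29.OL.Kap

set_option autoImplicit false

/-! The exact formula in equilateral triangles. -/

namespace Pool.Agent.V7H29.OL

open Finset H978R2.Hex H978R3.Wedge Real

/-- the triangle -/
noncomputable def Tn (N : ℤ) : Finset V :=
  ((Finset.Icc (-2 * N) 2) ×ˢ (Finset.Icc (-N - 1) 0)).filter
    (fun v => Wj 1 v ∧ -2 * N ≤ v.1 + v.2)

theorem mem_Tn (N : ℤ) (v : V) : v ∈ Tn N ↔ Wj 1 v ∧ -2 * N ≤ v.1 + v.2 := by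
  unfold Tn
  rw [Finset.mem_filter, Finset.mem_product, Finset.mem_Icc, Finset.mem_Icc]
  constructor
  · exact fun h => h.2
  · intro h
    refine ⟨?_, h⟩
    unfold Wj at h
    omega

/-- parameters of the triangle -/
def tp (N : ℤ) : Par where
  a4 := 2
  c3 := 1
  R := 0
  b := 1
  d := 2
  Q := 2 * N + 4
  a2 := -2 * N
  c1 := -4 * N - 9

theorem ok_tp (N : ℤ) (hN : 1 ≤ N) : Ok (tp N) := by
  constructor <;> simp only [tp] <;> omega

theorem om_tp (N : ℤ) (hN : 1 ≤ N) (v : V) : Om (tp N) v ↔ v ∈ Tn N := by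
  rw [mem_Tn]
  unfold Om tp Wj
  simp only
  rcases lt_trichotomy v.2 0 with c | c | c
  · have c1 : ¬ (v.2 = 0) := by omega
    have c2 : ¬ (1 ≤ v.2) := by omega
    have c3 : v.2 ≤ -1 := by omega
    simp only [c1, c2, c3, false_implies, true_implies, true_and, and_true]
    norm_num
    omega
  · have c2 : ¬ (1 ≤ v.2) := by omega
    have c3 : ¬ (v.2 ≤ -1) := by omega
    simp only [c, true_implies]
    norm_num
    omega
  · have c1 : ¬ (v.2 = 0) := by omega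
    have c2 : 1 ≤ v.2 := by omega
    have c3 : ¬ (v.2 ≤ -1) := by omega
    simp only [c1, c2, c3, false_implies, true_implies, true_and]
    norm_num
    omega

theorem base_Tn (N : ℤ) (hN : 1 ≤ N) : ((1, 0) : V) ∈ Tn N := by
  rw [mem_Tn]
  unfold Wj
  simp only
  omega

theorem Tn_Wj (N : ℤ) : ∀ v ∈ Tn N, Wj 1 v := fun v hv => ((mem_Tn N v).1 hv).1

/-- the far exits of the triangle have winding `-2` -/
theorem tri_idx (N : ℤ) (hN : 1 ≤ N) {l : List V} (hl : l ∈ EF 1 (Tn N)) : W l = -2 := by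
  unfold EF at hl
  rw [Finset.mem_filter] at hl
  obtain ⟨h1, h2⟩ := hl
  obtain ⟨y, hy, ha⟩ := exit_adj (base_Tn N hN) h1
  unfold EE at h1
  rw [Finset.mem_filter, mem_All] at h1
  obtain ⟨h3, h4⟩ := h1
  have h5 : Val (Om (tp N)) l := Val_mono (fun v hv => (om_tp N hN v).2 hv) h3
  have hlen : 2 ≤ l.length := by
    match l, h3 with
    | [_, _], _ => simp
    | _ :: _ :: _ :: _, _ => simp
  have ho := class_om (tp N) (ok_tp N hN) (l.length - 2) l (mem_P.2 ⟨h5, by omega⟩)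
    (fun h => h4 ((om_tp N hN _).1 h))
  rw [mem_Tn] at hy h4
  clear h3 h5 hlen
  generalize l.headD (0, 0) = z at *
  generalize W l = k at *
  obtain ⟨z1, z2⟩ := z
  obtain ⟨y1, y2⟩ := y
  rw [adj_iff] at ha
  unfold Wj at h2 h4 hy
  unfold Out tp Slit at ho
  simp only at ha h2 h4 hy ho
  norm_num at h2 h4 hy
  rcases ho with ho | ho | ho | ho | ho | ho | ho | ho | ho | ho <;>
    rcases ha with ha | ha | ha | ha <;> omega

theorem tri_id {n x θ : ℝ} (h : Ang n x θ) (N : ℤ) (hN : 1 ≤ N) :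
    ∑ l ∈ EF 1 (Tn N), wt n x (Tn N) l + Real.cos (2 * θ) * ∑ l ∈ EN 1 (Tn N), wt n x (Tn N) l =
      1 / 2 * Zp n x (Tn N) := by
  have h1 := wedge_id h.hx 1 (le_refl _) (by norm_num) (Tn_Wj N) (base_Tn N hN) n h.hn
  have h2 : ∑ l ∈ EF 1 (Tn N), Real.cos (((W l : ℝ) - (((1 : ℕ) : ℝ) - 5) / 2) * θ) *
      wt n x (Tn N) l = ∑ l ∈ EF 1 (Tn N), wt n x (Tn N) l := by
    refine Finset.sum_congr rfl fun l hl => ?_
    rw [tri_idx N hN hl]
    have e : ((((-2 : ℤ) : ℝ)) - (((1 : ℕ) : ℝ) - 5) / 2) * θ = 0 := by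
      push_cast; ring
    rw [e, Real.cos_zero, one_mul]
  have h3 : Real.cos ((((1 : ℕ) : ℝ) + 3) * θ / 2) = Real.cos (2 * θ) := by
    congr 1
    push_cast
    ring
  have h4 : rr 1 x θ = 1 / 2 := by
    unfold rr
    rw [if_pos (by norm_num)]
    have e : (3 - ((1 : ℕ) : ℝ)) * θ / 2 = θ := by push_cast; ring
    rw [e]
    have := h.hx
    linarith
  rw [h2, h3, h4] at h1
  exact h1

/-- the parallelogram -/
noncomputable def Pn (M N : ℤ) : Finset V :=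
  ((Finset.Icc (-2 * N) (M + 2)) ×ˢ (Finset.Icc (-M) 0)).filter
    (fun v => Wj 2 v ∧ -M ≤ v.2 ∧ -2 * N ≤ v.1 + v.2)

theorem mem_Pn (M N : ℤ) (v : V) : v ∈ Pn M N ↔ Wj 2 v ∧ -M ≤ v.2 ∧ -2 * N ≤ v.1 + v.2 := by
  unfold Pn
  rw [Finset.mem_filter, Finset.mem_product, Finset.mem_Icc, Finset.mem_Icc]
  constructor
  · exact fun h => h.2
  · intro h
    refine ⟨?_, h⟩
    unfold Wj at h
    omega

/-- parameters of the parallelogram -/
def pp (M N : ℤ) : Par where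
  a4 := 2
  c3 := 1
  R := 0
  b := 1
  d := 2 * M + 4
  Q := M
  a2 := -2 * N
  c1 := -4 * N - 9

theorem ok_pp (M N : ℤ) (hM : 1 ≤ M) (hN : 1 ≤ N) : Ok (pp M N) := by
  constructor <;> simp only [pp] <;> omega

theorem om_pp (M N : ℤ) (hM : 1 ≤ M) (hN : 1 ≤ N) (v : V) : Om (pp M N) v ↔ v ∈ Pn M N := by
  rw [mem_Pn]
  unfold Om pp Wj
  simp only
  rcases lt_trichotomy v.2 0 with c | c | c
  · have c1 : ¬ (v.2 = 0) := by omega
    have c2 : ¬ (1 ≤ v.2) := by omega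
    have c3 : v.2 ≤ -1 := by omega
    simp only [c1, c2, c3, false_implies, true_implies, true_and, and_true]
    norm_num
    omega
  · have c2 : ¬ (1 ≤ v.2) := by omega
    have c3 : ¬ (v.2 ≤ -1) := by omega
    simp only [c, true_implies]
    norm_num
    omega
  · have c1 : ¬ (v.2 = 0) := by omega
    have c2 : 1 ≤ v.2 := by omega
    have c3 : ¬ (v.2 ≤ -1) := by omega
    simp only [c1, c2, c3, false_implies, true_implies, true_and]
    norm_num
    omega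

theorem base_Pn (M N : ℤ) (hM : 1 ≤ M) (hN : 1 ≤ N) : ((1, 0) : V) ∈ Pn M N := by
  rw [mem_Pn]
  unfold Wj
  simp only
  omega

theorem Pn_Wj (M N : ℤ) : ∀ v ∈ Pn M N, Wj 2 v := fun v hv => ((mem_Pn M N v).1 hv).1

/-- the far exits of the parallelogram have winding `-1` or `-2` -/
theorem par_idx (M N : ℤ) (hM : 1 ≤ M) (hN : 1 ≤ N) {l : List V} (hl : l ∈ EF 2 (Pn M N)) :
    W l = -1 ∨ W l = -2 := by
  unfold EF at hl
  rw [Finset.mem_filter] at hl
  obtain ⟨h1, h2⟩ := hl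
  obtain ⟨y, hy, ha⟩ := exit_adj (base_Pn M N hM hN) h1
  unfold EE at h1
  rw [Finset.mem_filter, mem_All] at h1
  obtain ⟨h3, h4⟩ := h1
  have h5 : Val (Om (pp M N)) l := Val_mono (fun v hv => (om_pp M N hM hN v).2 hv) h3
  have hlen : 2 ≤ l.length := by
    match l, h3 with
    | [_, _], _ => simp
    | _ :: _ :: _ :: _, _ => simp
  have ho := class_om (pp M N) (ok_pp M N hM hN) (l.length - 2) l (mem_P.2 ⟨h5, by omega⟩)
    (fun h => h4 ((om_pp M N hM hN _).1 h))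
  rw [mem_Pn] at hy h4
  clear h3 h5 hlen
  generalize l.headD (0, 0) = z at *
  generalize W l = k at *
  obtain ⟨z1, z2⟩ := z
  obtain ⟨y1, y2⟩ := y
  rw [adj_iff] at ha
  unfold Wj at h2 h4 hy
  unfold Out pp Slit at ho
  simp only at ha h2 h4 hy ho
  norm_num at h2 h4 hy
  rcases ho with ho | ho | ho | ho | ho | ho | ho | ho | ho | ho <;>
    rcases ha with ha | ha | ha | ha <;> omega

theorem par_id {n x θ : ℝ} (h : Ang n x θ) (M N : ℤ) (hM : 1 ≤ M) (hN : 1 ≤ N) :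
    ∑ l ∈ EF 2 (Pn M N), wt n x (Pn M N) l +
      (2 * Real.cos (2 * θ) - 2 * Real.cos θ + 1) * ∑ l ∈ EN 2 (Pn M N), wt n x (Pn M N) l =
      x * Zp n x (Pn M N) := by
  have h1 := wedge_id h.hx 2 (by norm_num) (by norm_num) (Pn_Wj M N) (base_Pn M N hM hN) n h.hn
  have h2 : ∑ l ∈ EF 2 (Pn M N), Real.cos (((W l : ℝ) - (((2 : ℕ) : ℝ) - 5) / 2) * θ) *
      wt n x (Pn M N) l = Real.cos (θ / 2) * ∑ l ∈ EF 2 (Pn M N), wt n x (Pn M N) l := by
    rw [Finset.mul_sum]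
    refine Finset.sum_congr rfl fun l hl => ?_
    congr 1
    rcases par_idx M N hM hN hl with h3 | h3
    · rw [h3]
      congr 1
      push_cast
      ring
    · rw [h3]
      have e : ((((-2 : ℤ) : ℝ)) - (((2 : ℕ) : ℝ) - 5) / 2) * θ = -(θ / 2) := by
        push_cast; ring
      rw [e, Real.cos_neg]
  have hc : 0 < Real.cos (θ / 2) := by
    have := Real.pi_pos
    have h3 := h.lo
    have h4 := h.hi
    exact Real.cos_pos_of_mem_Ioo ⟨by linarith, by linarith⟩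
  have h3 : Real.cos ((((2 : ℕ) : ℝ) + 3) * θ / 2) =
      Real.cos (θ / 2) * (2 * Real.cos (2 * θ) - 2 * Real.cos θ + 1) := by
    have e1 : (((2 : ℕ) : ℝ) + 3) * θ / 2 = 2 * θ + θ / 2 := by push_cast; ring
    have e2 : θ = 2 * (θ / 2) := by ring
    have e3 : Real.cos θ = 2 * Real.cos (θ / 2) ^ 2 - 1 := by
      conv_lhs => rw [e2]
      exact Real.cos_two_mul _
    have e4 : Real.sin θ = 2 * Real.sin (θ / 2) * Real.cos (θ / 2) := by
      conv_lhs => rw [e2]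
      exact Real.sin_two_mul _
    have e5 : Real.cos (2 * θ) = 2 * Real.cos θ ^ 2 - 1 := Real.cos_two_mul _
    have e6 : Real.sin (2 * θ) = 2 * Real.sin θ * Real.cos θ := Real.sin_two_mul _
    have e7 : Real.sin (θ / 2) ^ 2 = 1 - Real.cos (θ / 2) ^ 2 := by
      have := Real.sin_sq_add_cos_sq (θ / 2)
      linarith
    rw [e1, Real.cos_add, e5, e6, e4, e3]
    generalize Real.cos (θ / 2) = c at *
    generalize Real.sin (θ / 2) = s at *
    linear_combination (-4 * c * (2 * c ^ 2 - 1)) * e7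
  have h4 : rr 2 x θ = x * Real.cos (θ / 2) := by
    unfold rr
    rw [if_pos (le_refl _)]
    congr 2
    push_cast
    ring
  rw [h2, h3, h4] at h1
  apply mul_left_cancel₀ hc.ne'
  linear_combination h1

/-- `cos (2 θ)` in terms of `n` -/
theorem cos_two {κ n θ : ℝ} (h1 : 8 / 3 ≤ κ) (h2 : κ ≤ 8) (hn : n = -2 * Real.cos (4 * θ))
    (hθ : θ = π / 2 - π / κ) :
    (κ ≤ 4 → 2 * Real.cos (2 * θ) = Real.sqrt (2 - n)) ∧
    (4 ≤ κ → 2 * Real.cos (2 * θ) = -Real.sqrt (2 - n)) := by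
  have hpi := Real.pi_pos
  have hk : (0 : ℝ) < κ := by linarith
  have hlo := theta_lo h1 hθ
  have hhi := theta_hi h1 h2 hθ
  have h4 : Real.cos (4 * θ) = 2 * Real.cos (2 * θ) ^ 2 - 1 := by
    have : 4 * θ = 2 * (2 * θ) := by ring
    rw [this, Real.cos_two_mul]
  have h2n : 2 - n = (2 * Real.cos (2 * θ)) ^ 2 := by
    rw [hn, h4]; ring
  constructor
  · intro h
    have hθ4 : θ ≤ π / 4 := by
      rw [theta_eq h1 hθ, div_le_iff₀ (by linarith)]
      nlinarith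
    have h5 : 0 ≤ Real.cos (2 * θ) :=
      Real.cos_nonneg_of_neg_pi_div_two_le_of_le (by linarith) (by linarith)
    rw [h2n, Real.sqrt_sq (by positivity)]
  · intro h
    have hθ4 : π / 4 ≤ θ := by
      rw [theta_eq h1 hθ, le_div_iff₀ (by linarith)]
      nlinarith
    have h5 : Real.cos (2 * θ) ≤ 0 :=
      Real.cos_nonpos_of_pi_div_two_le_of_le (by linarith) (by linarith)
    have h6 : (2 * Real.cos (2 * θ)) ^ 2 = (-(2 * Real.cos (2 * θ))) ^ 2 := by ring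
    rw [h2n, h6, Real.sqrt_sq (by linarith), neg_neg]

theorem ang_sigma {κ n x θ σ : ℝ} (h1 : 8 / 3 ≤ κ) (h2 : κ ≤ 8)
    (hn : n = -2 * Real.cos (4 * π / κ))
    (hσ : (κ ≤ 4 ∧ σ = Real.sqrt (2 - n)) ∨ (4 ≤ κ ∧ σ = -Real.sqrt (2 - n)))
    (hx : x = (2 + σ) ^ (-(1 / 2) : ℝ)) (hθ : θ = π / 2 - π / κ) :
    Ang n x θ ∧ σ = 2 * Real.cos (2 * θ) := by
  have hpi := Real.pi_pos
  have hk : (0 : ℝ) < κ := by linarith
  have hlo := theta_lo h1 hθ
  have hhi := theta_hi h1 h2 hθ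
  have hn' : n = -2 * Real.cos (4 * θ) := by
    rw [hn]
    have e : 4 * θ = 2 * π - 4 * π / κ := by
      rw [hθ]; field_simp; ring
    rw [e, Real.cos_two_pi_sub]
  have hc : 0 < Real.cos θ := Real.cos_pos_of_mem_Ioo ⟨by linarith, by linarith⟩
  have hs : σ = 2 * Real.cos (2 * θ) := by
    obtain ⟨c1, c2⟩ := cos_two h1 h2 hn' hθ
    rcases hσ with ⟨h3, h4⟩ | ⟨h3, h4⟩
    · rw [h4, c1 h3]
    · rw [h4, c2 h3]
  refine ⟨⟨hlo, hhi, ?_, hn'⟩, hs⟩
  have hsq : (2 * Real.cos θ) ^ 2 = 2 + 2 * Real.cos (2 * θ) := by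
    rw [Real.cos_two_mul]; ring
  have hpow : ((2 * Real.cos θ) ^ 2) ^ (-(1 / 2) : ℝ) = (2 * Real.cos θ)⁻¹ := by
    rw [← Real.rpow_natCast, ← Real.rpow_mul (by positivity)]
    norm_num
    rw [Real.rpow_neg_one]
    simp [mul_comm]
  rw [hx, hs, ← hsq, hpow]
  field_simp

end Pool.Agent.V7H29.OL
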