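import Pool.Agent.V7H29.OL.Two
import Pool.Agent.H978R3.Wedge.Walks

set_option autoImplicit false

/-! Loops and paths as functions. -/

namespace Pool.Agent.V7H29.OL

open Finset H978R2.Hex H978R3.Wedge

theorem isLp_iff (e : Finset (Sym2 V)) : IsLp e ↔
    ∃ (m : ℕ) (f : ℕ → V), 3 ≤ m ∧ Set.InjOn f (Set.Iio m) ∧ f m = f 0 ∧
      (∀ i < m, Adj (f i) (f (i + 1))) ∧
      e = (Finset.range m).image (fun i => s(f i, f (i + 1))) := by
  constructor
  · rintro ⟨l, hl, rfl⟩
    have h3 := hl.len
    have hpos : 0 < l.length := by omega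
    have hf : ∀ i (hi : i < l.length), l.getD (i % l.length) (0, 0) = l[i] := by
      intro i hi
      rw [Nat.mod_eq_of_lt hi, List.getD_eq_getElem _ _ hi]
    have hf1 : ∀ i (hi : i < l.length), l.getD ((i + 1) % l.length) (0, 0) = l.formPerm l[i] := by
      intro i hi
      rw [List.formPerm_apply_getElem l hl.nd i hi, List.getD_eq_getElem _ _ (Nat.mod_lt _ hpos)]
    refine ⟨l.length, fun i => l.getD (i % l.length) (0, 0), h3, ?_, ?_, ?_, ?_⟩
    · intro i hi k hk h
      rw [Set.mem_Iio] at hi hk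
      simp only at h
      rw [hf i hi, hf k hk] at h
      exact (List.Nodup.getElem_inj_iff hl.nd).1 h
    · simp
    · intro i hi
      simp only
      rw [hf i hi, hf1 i hi]
      exact hl.adj _ (List.getElem_mem hi)
    · ext s
      unfold El
      rw [Finset.mem_image, Finset.mem_image]
      constructor
      · rintro ⟨v, hv, rfl⟩
        rw [List.mem_toFinset] at hv
        obtain ⟨i, hi, rfl⟩ := List.getElem_of_mem hv
        refine ⟨i, Finset.mem_range.2 hi, ?_⟩
        simp only
        rw [hf i hi, hf1 i hi]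
      · rintro ⟨i, hi, rfl⟩
        rw [Finset.mem_range] at hi
        refine ⟨l[i], List.mem_toFinset.2 (List.getElem_mem hi), ?_⟩
        simp only
        rw [hf i hi, hf1 i hi]
  · rintro ⟨m, f, h3, hinj, hm, hadj, rfl⟩
    have hlen : ((List.range m).map f).length = m := by simp
    have hget : ∀ i (hi : i < ((List.range m).map f).length), ((List.range m).map f)[i] = f i := by
      intro i hi
      simp
    have hnd : ((List.range m).map f).Nodup := by
      apply List.Nodup.map_on _ List.nodup_range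
      intro a ha b hb h
      rw [List.mem_range] at ha hb
      exact hinj ha hb h
    have hfp : ∀ i, i < m → ((List.range m).map f).formPerm (f i) = f (i + 1) := by
      intro i hi
      have hi' : i < ((List.range m).map f).length := by rw [hlen]; exact hi
      have h1 := List.formPerm_apply_getElem _ hnd i hi'
      rw [hget i hi', hget] at h1
      rw [h1]
      simp only [hlen]
      rcases Nat.lt_or_ge (i + 1) m with h2 | h2
      · rw [Nat.mod_eq_of_lt h2]
      · have h4 : i + 1 = m := by omega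
        rw [h4, Nat.mod_self, hm]
    refine ⟨(List.range m).map f, ⟨by rw [hlen]; exact h3, hnd, ?_⟩, ?_⟩
    · intro v hv
      rw [List.mem_map] at hv
      obtain ⟨i, hi, rfl⟩ := hv
      rw [List.mem_range] at hi
      rw [hfp i hi]
      exact hadj i hi
    · ext s
      unfold El
      rw [Finset.mem_image, Finset.mem_image]
      constructor
      · rintro ⟨v, hv, rfl⟩
        rw [List.mem_toFinset, List.mem_map] at hv
        obtain ⟨i, hi, rfl⟩ := hv
        rw [List.mem_range] at hi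
        exact ⟨i, Finset.mem_range.2 hi, by rw [hfp i hi]⟩
      · rintro ⟨i, hi, rfl⟩
        rw [Finset.mem_range] at hi
        refine ⟨f i, ?_, by rw [hfp i hi]⟩
        rw [List.mem_toFinset, List.mem_map]
        exact ⟨i, List.mem_range.2 hi, rfl⟩

/-- configurations of loops as a set -/
def Cfg (A : Set V) : Set (Finset (Finset (Sym2 V))) :=
  {L | (∀ e ∈ L, IsLp e ∧ ∀ s ∈ e, ∀ v ∈ s, v ∈ A) ∧
    ∀ e ∈ L, ∀ e' ∈ L, e ≠ e' → ∀ s ∈ e, ∀ s' ∈ e', ∀ v, ¬ (v ∈ s ∧ v ∈ s')}

theorem cfg_eq (A : Finset V) : Cfg (A : Set V) = ((Conf Lp sp A : Finset _) : Set _) := by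
  ext L
  rw [Finset.mem_coe, mem_Conf]
  unfold Cfg
  rw [Set.mem_setOf_eq]
  constructor
  · rintro ⟨h1, h2⟩
    refine ⟨?_, ?_⟩
    · intro e he
      rw [mem_Lp]
      refine ⟨(h1 e he).1, ?_⟩
      intro v hv
      rw [mem_sp] at hv
      obtain ⟨s, hs, hv⟩ := hv
      exact (h1 e he).2 s hs v hv
    · intro e he e' he' hne
      rw [Finset.disjoint_left]
      intro v hv hv'
      rw [mem_sp] at hv hv'
      obtain ⟨s, hs, hv⟩ := hv
      obtain ⟨s', hs', hv'⟩ := hv'
      exact h2 e he e' he' hne s hs s' hs' v ⟨hv, hv'⟩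
  · rintro ⟨h1, h2⟩
    refine ⟨?_, ?_⟩
    · intro e he
      have h3 := (mem_Lp A e).1 (h1 he)
      exact ⟨h3.1, fun s hs v hv => h3.2 (mem_sp.2 ⟨s, hs, hv⟩)⟩
    · intro e he e' he' hne s hs s' hs' v hv
      exact Finset.disjoint_left.1 (h2 e he e' he' hne) (mem_sp.2 ⟨s, hs, hv.1⟩)
        (mem_sp.2 ⟨s', hs', hv.2⟩)

theorem zl_eq (n x : ℝ) (A : Finset V) :
    ∑ᶠ L ∈ Cfg (A : Set V), n ^ L.card * x ^ (∑ e ∈ L, e.card) = Zp n x A := by
  rw [cfg_eq, finsum_mem_coe_finset]
  unfold Zp ZZ
  refine Finset.sum_congr rfl fun L _ => ?_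
  rw [Finset.prod_mul_distrib, Finset.prod_const, Finset.prod_pow_eq_pow_sum]

/-- the head of an exit is new -/
theorem exit_new {D : Finset V} (hO : ∀ v ∈ D, ¬ Slit v) (h01 : ((0, 1) : V) ∉ D) {m : ℕ}
    {l : List V} (hl : l ∈ P (In D) m) (h : l.headD (0, 0) ∉ D) :
    l.headD (0, 0) ∉ l.tail := by
  obtain ⟨z, t, rfl, hg, hlen⟩ := good_of_mem hl
  have hv := (val_iff z t).2 hg
  simp only [List.headD_cons, List.tail_cons] at h ⊢
  intro ht
  have h1 := hg.last
  have hz : z = (0, 0) := by
    rcases List.eq_nil_or_concat t with h2 | ⟨s, a, h2⟩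
    · rw [h2] at hlen; simp at hlen
    · subst h2
      rw [List.concat_eq_append] at ht h1
      have ha : a = (0, 0) := by simpa using h1
      rcases List.mem_append.1 ht with h2 | h2
      · exact absurd (hg.om z (by simpa using h2)) h
      · rw [List.mem_singleton] at h2
        rw [h2, ha]
  subst hz
  match t, hv, hg with
  | [y], hv, _ =>
    obtain ⟨h3, -⟩ := hv
    exact absurd (congrArg Prod.fst h3) (by norm_num)
  | y :: x :: t, hv, hg =>
    obtain ⟨h3, h4, h5, h6, h7⟩ := hv
    have h8 := hO y h5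
    have hy : y = (1, 0) := by
      rw [adj_iff] at h3
      obtain ⟨y1, y2⟩ := y
      unfold Slit at h8
      simp only at h3 h8
      rcases h3 with h3 | h3 | h3 | h3
      · exfalso; omega
      · ext <;> simp only <;> omega
      · exfalso; omega
      · exfalso
        apply h01
        have e1 : y1 = 0 := by omega
        have e2 : y2 = 1 := by omega
        rw [← e1, ← e2]
        exact h5
    subst hy
    obtain ⟨s, hs⟩ := hg.suff
    match s, hs with
    | [], hs => simp at hs
    | [a], hs =>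
      simp only [List.singleton_append, List.cons.injEq] at hs
      exact h4 hs.2.2.1
    | a :: b :: s, hs =>
      simp only [List.cons_append, List.cons.injEq] at hs
      apply h6
      rw [← hs.2.2]
      simp

/-- paths with `m` vertices in `D`, the last vertex being outside `D` and in `Q` -/
def Pth (D Q : Set V) (m : ℕ) : Set (Fin (m + 2) → V) :=
  {γ | γ ∈ WalkSet (fun v => v ∈ D) m ∧ γ (Fin.last (m + 1)) ∉ D ∧ γ (Fin.last (m + 1)) ∈ Q}

open scoped Classical in
theorem path_level (n x : ℝ) (D : Finset V) (hO : ∀ v ∈ D, ¬ Slit v) (h01 : ((0, 1) : V) ∉ D)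
    (Q : Set V) (g : ℤ → ℝ) (ZZl : Set V → ℝ) (hZ : ∀ A : Finset V, ZZl (A : Set V) = Zp n x A)
    (m : ℕ) :
    ∑ᶠ γ ∈ Pth (D : Set V) Q m, g (turnSum γ) * (x ^ (m + 1) * ZZl ((D : Set V) \ Set.range γ)) =
      ∑ l ∈ (P (In D) m).filter (fun l => l.headD (0, 0) ∉ D ∧ l.headD (0, 0) ∈ Q),
        x * (g (W l) * wt n x D l) := by
  rw [← finsum_mem_coe_finset]
  apply finsum_mem_eq_of_bijOn rl
  · refine ⟨?_, ?_, ?_⟩
    · intro f hf
      rw [Finset.mem_coe, Finset.mem_filter, rl_head]
      exact ⟨rl_mem (D := In D) hf.1, hf.2⟩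
    · intro f _ g _ h
      exact rl_inj h
    · intro l hl
      rw [Finset.mem_coe, Finset.mem_filter] at hl
      obtain ⟨h0, h1, h2⟩ := hl
      obtain ⟨f, h3, h4⟩ := exists_rl h0 (exit_new hO h01 h0 h1)
      have h5 := rl_head f
      rw [h4] at h5
      refine ⟨f, ⟨h3, ?_, ?_⟩, h4⟩
      · rw [← h5]; exact h1
      · rw [← h5]; exact h2
  · intro f hf
    rw [W_rl]
    have h1 : ((D : Set V) \ Set.range f) = ((D \ (rl f).tail.toFinset : Finset V) : Set V) := by
      ext v
      rw [Finset.coe_sdiff, Set.mem_diff, Set.mem_diff, Finset.mem_coe, Finset.mem_coe,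
        List.mem_toFinset]
      have h2 : v ∈ Set.range f ↔ v = f (Fin.last (m + 1)) ∨ v ∈ (rl f).tail := by
        rw [Set.mem_range, ← mem_rl, rl_succ, List.mem_cons, List.tail_cons]
      constructor
      · rintro ⟨a, b⟩
        exact ⟨a, fun hc => b (h2.2 (Or.inr hc))⟩
      · rintro ⟨a, b⟩
        refine ⟨a, fun hc => ?_⟩
        rcases h2.1 hc with h3 | h3
        · rw [h3] at a
          exact hf.2.1 a
        · exact b h3
    rw [h1, hZ]
    unfold wt
    rw [rl_length]
    have : m + 2 - 2 = m := by omega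
    rw [this, pow_succ]
    ring

open scoped Classical in
theorem path_sum (n x : ℝ) (D : Finset V) (hO : ∀ v ∈ D, ¬ Slit v) (h01 : ((0, 1) : V) ∉ D)
    (Q : Set V) (g : ℤ → ℝ) (ZZl : Set V → ℝ) (hZ : ∀ A : Finset V, ZZl (A : Set V) = Zp n x A) :
    ∑' m : ℕ, ∑ᶠ γ ∈ Pth (D : Set V) Q m,
      g (turnSum γ) * (x ^ (m + 1) * ZZl ((D : Set V) \ Set.range γ)) =
      x * ∑ l ∈ (EE D).filter (fun l => l.headD (0, 0) ∈ Q), g (W l) * wt n x D l := by
  simp_rw [path_level n x D hO h01 Q g ZZl hZ]
  rw [tsum_eq_sum (s := Finset.range (D.card + 1 + 1))]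
  · rw [Finset.mul_sum]
    unfold EE
    rw [Finset.filter_filter, Finset.sum_filter, sum_All]
    refine Finset.sum_congr rfl fun m _ => ?_
    rw [Finset.sum_filter]
  · intro m hm
    rw [Finset.mem_range, not_lt] at hm
    obtain ⟨k, hk⟩ : ∃ k, m = k + 1 := ⟨m - 1, by omega⟩
    subst hk
    rw [P_nil D k (by omega)]
    simp

end Pool.Agent.V7H29.OL
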