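import Pool.Agent.V7H29.OL.Loop

set_option autoImplicit false

/-! The finite set of closed lists at a vertex and the expansion of the loop gas. -/

namespace Pool.Agent.V7H29.OL

open Finset H978R2.Hex

theorem wrap (z : V) (L : List V) (i : ℕ) (hi : i < (z :: L).length) :
    ((z :: L) ++ [z])[i + 1]'(by simp at hi ⊢; omega) =
      (z :: L)[(i + 1) % (z :: L).length]'(Nat.mod_lt _ (by simp)) := by
  rcases Nat.lt_or_ge (i + 1) (z :: L).length with h | h
  · rw [List.getElem_append_left h]
    congr 1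
    rw [Nat.mod_eq_of_lt h]
  · have h2 : i + 1 = (z :: L).length := by omega
    have h3 : (i + 1) % (z :: L).length = 0 := by rw [h2, Nat.mod_self]
    rw [List.getElem_append_right h]
    simp only [h3, List.getElem_cons_zero, List.getElem_singleton]

theorem cl_iff (z : V) (L : List V) :
    CL (z :: L) ↔ 2 ≤ L.length ∧ (z :: L).Nodup ∧ ((z :: L) ++ [z]).IsChain Adj := by
  constructor
  · intro h
    refine ⟨by have := h.len; simp at this; omega, h.nd, ?_⟩
    rw [List.isChain_iff_getElem]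
    intro i hi
    have hi' : i < (z :: L).length := by simp at hi ⊢; omega
    rw [wrap z L i hi', List.getElem_append_left hi']
    have h1 := h.adj _ (List.getElem_mem hi')
    rw [List.formPerm_apply_getElem _ h.nd i hi'] at h1
    exact h1
  · rintro ⟨h1, h2, h3⟩
    refine ⟨by simp; omega, h2, ?_⟩
    intro v hv
    obtain ⟨i, hi, rfl⟩ := List.getElem_of_mem hv
    rw [List.formPerm_apply_getElem _ h2 i hi]
    rw [List.isChain_iff_getElem] at h3
    have h4 := h3 i (by simp at hi ⊢; omega)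
    rw [wrap z L i hi, List.getElem_append_left hi] at h4
    exact h4

/-- lists of length `k` in `A` -/
def nl (A : Finset V) : ℕ → Finset (List V)
  | 0 => {[]}
  | k + 1 => (A ×ˢ nl A k).image (fun p => p.1 :: p.2)

theorem mem_nl {A : Finset V} : ∀ {k : ℕ} {l : List V},
    l ∈ nl A k ↔ l.length = k ∧ ∀ v ∈ l, v ∈ A
  | 0, l => by
    rw [nl, Finset.mem_singleton]
    constructor
    · rintro rfl
      simp
    · rintro ⟨h, _⟩
      exact List.length_eq_zero_iff.1 h
  | k + 1, l => by
    rw [nl, Finset.mem_image]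
    constructor
    · rintro ⟨⟨a, t⟩, h, rfl⟩
      rw [Finset.mem_product] at h
      have h2 := mem_nl.1 h.2
      refine ⟨by simp [h2.1], ?_⟩
      intro v hv
      rcases List.mem_cons.1 hv with rfl | hv
      · exact h.1
      · exact h2.2 v hv
    · rintro ⟨h1, h2⟩
      match l, h1, h2 with
      | a :: t, h1, h2 =>
        refine ⟨(a, t), ?_, rfl⟩
        rw [Finset.mem_product]
        refine ⟨h2 a (by simp), mem_nl.2 ⟨by simpa using h1, fun v hv => h2 v (by simp [hv])⟩⟩

open scoped Classical in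
/-- closed lists at `z` in `A` -/
noncomputable def CLs (z : V) (A : Finset V) : Finset (List V) :=
  ((range (A.card + 1)).biUnion (nl A)).filter (fun L => CL (z :: L) ∧ z ∈ A)

theorem mem_CLs {z : V} {A : Finset V} {L : List V} :
    L ∈ CLs z A ↔ CL (z :: L) ∧ ∀ v ∈ z :: L, v ∈ A := by
  classical
  unfold CLs
  rw [Finset.mem_filter, Finset.mem_biUnion]
  constructor
  · rintro ⟨⟨k, _, hk⟩, h1, h2⟩
    refine ⟨h1, ?_⟩
    intro v hv
    rcases List.mem_cons.1 hv with rfl | hv
    · exact h2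
    · exact (mem_nl.1 hk).2 v hv
  · rintro ⟨h1, h2⟩
    refine ⟨⟨L.length, ?_, mem_nl.2 ⟨rfl, fun v hv => h2 v (List.mem_cons_of_mem _ hv)⟩⟩, h1,
      h2 z List.mem_cons_self⟩
    rw [Finset.mem_range]
    have h3 : (z :: L).toFinset ⊆ A := by
      intro v hv
      exact h2 v (List.mem_toFinset.1 hv)
    have h4 := Finset.card_le_card h3
    rw [List.toFinset_card_of_nodup h1.nd, List.length_cons] at h4
    omega

open scoped Classical in
/-- loops in `A` -/
noncomputable def Lp (A : Finset V) : Finset (Finset (Sym2 V)) :=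
  A.sym2.powerset.filter (fun e => IsLp e)

theorem mem_Lp (A : Finset V) (e : Finset (Sym2 V)) : e ∈ Lp A ↔ IsLp e ∧ sp e ⊆ A := by
  classical
  unfold Lp
  rw [Finset.mem_filter, Finset.mem_powerset]
  have h : e ⊆ A.sym2 ↔ sp e ⊆ A := by
    constructor
    · intro h v hv
      rw [mem_sp] at hv
      obtain ⟨s, hs, hv⟩ := hv
      exact Finset.mem_sym2_iff.1 (h hs) v hv
    · intro h s hs
      rw [Finset.mem_sym2_iff]
      intro v hv
      exact h (mem_sp.2 ⟨s, hs, hv⟩)
  rw [h]
  exact and_comm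

/-- every loop through `z` comes from two closed lists at `z` -/
theorem two_to_one (A : Finset V) (z : V) (g : Finset (Sym2 V) → ℝ) :
    ∑ L ∈ CLs z A, g (El (z :: L)) = 2 * ∑ e ∈ (Lp A).filter (fun e => z ∈ sp e), g e := by
  classical
  rw [← Finset.sum_fiberwise_of_maps_to (s := CLs z A) (t := (Lp A).filter (fun e => z ∈ sp e))
    (g := fun L => El (z :: L)), Finset.mul_sum]
  · refine Finset.sum_congr rfl fun e he => ?_
    rw [Finset.mem_filter, mem_Lp] at he
    obtain ⟨⟨h1, h2⟩, h3⟩ := he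
    obtain ⟨L0, hc, hE⟩ := h1.exists_at h3
    have hsub : ∀ L, CL (z :: L) → El (z :: L) = e → ∀ v ∈ z :: L, v ∈ A := by
      intro L _ he v hv
      apply h2
      rw [← he, sp_El, List.mem_toFinset]
      exact hv
    have hf : (CLs z A).filter (fun L => El (z :: L) = e) = {L0, L0.reverse} := by
      ext L
      rw [Finset.mem_filter, mem_CLs, Finset.mem_insert, Finset.mem_singleton]
      constructor
      · rintro ⟨⟨h4, _⟩, h6⟩
        exact fibre hc h4 (h6.trans hE.symm)
      · rintro (rfl | rfl)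
        · exact ⟨⟨hc, hsub _ hc hE⟩, hE⟩
        · have h5 : El (z :: L0.reverse) = e := (El_rev' hc).trans hE
          exact ⟨⟨hc.rev', hsub _ hc.rev' h5⟩, h5⟩
    rw [hf, Finset.sum_pair (ne_reverse hc), El_rev' hc, hE]
    ring
  · intro L hL
    rw [mem_CLs] at hL
    rw [Finset.mem_filter, mem_Lp, sp_El]
    refine ⟨⟨⟨_, hL.1, rfl⟩, ?_⟩, by simp⟩
    intro v hv
    exact hL.2 v (List.mem_toFinset.1 hv)

/-- the partition function of the loops in `A` -/
noncomputable def Zp (n x : ℝ) (A : Finset V) : ℝ := ZZ Lp sp (fun e => n * x ^ e.card) A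

theorem Zp_ge {n x : ℝ} (hn : 0 ≤ n) (hx : 0 ≤ x) (A : Finset V) : 1 ≤ Zp n x A :=
  ZZ_pos (fun _ => by positivity) A

theorem Zp_expand (n x : ℝ) {A : Finset V} {z : V} (hz : z ∈ A) :
    Zp n x A = Zp n x (A.erase z) +
      n / 2 * ∑ L ∈ CLs z A, x ^ (L.length + 1) * Zp n x (A \ (z :: L).toFinset) := by
  unfold Zp
  rw [ZZ_expand IsLp mem_Lp hz]
  congr 1
  have h := two_to_one A z (fun e => x ^ e.card * ZZ Lp sp (fun e => n * x ^ e.card) (A \ sp e))
  have h2 : ∑ L ∈ CLs z A, x ^ (L.length + 1) *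
      ZZ Lp sp (fun e => n * x ^ e.card) (A \ (z :: L).toFinset) =
      ∑ L ∈ CLs z A, x ^ (El (z :: L)).card *
        ZZ Lp sp (fun e => n * x ^ e.card) (A \ sp (El (z :: L))) := by
    refine Finset.sum_congr rfl fun L hL => ?_
    rw [mem_CLs] at hL
    rw [El_eq_sym hL.1.len hL.1.nd, sp_El, List.length_cons]
  rw [h2, h, ← mul_assoc, Finset.mul_sum]
  refine Finset.sum_congr rfl fun e _ => ?_
  ring

end Pool.Agent.V7H29.OL
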