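import Pool.Agent.V7H29.OL.Stub

set_option autoImplicit false

/-! The formulas for triangles and parallelograms, for paths which start at a corner. -/

namespace Pool.Agent.V7H29.OL

open Finset H978R2.Hex H978R3.Wedge

theorem Pc_congr {D : Set V} (h1 : ((1, -1) : V) ∈ D) {Q Q' : Set V}
    (h : ∀ y ∈ D, ∀ v, v ∉ D → v ≠ (1, 0) → Adj y v → (v ∈ Q ↔ v ∈ Q')) (m : ℕ) :
    Pc D Q m = Pc D Q' m := by
  have key : ∀ γ : Fin (m + 2) → V, γ 0 = (1, 0) → γ 1 = (1, -1) → Function.Injective γ →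
      (∀ i : Fin (m + 1), Adj (γ i.castSucc) (γ i.succ)) →
      (∀ i : Fin (m + 1), i ≠ 0 → γ i.castSucc ∈ D) → γ (Fin.last (m + 1)) ∉ D →
      (γ (Fin.last (m + 1)) ∈ Q ↔ γ (Fin.last (m + 1)) ∈ Q') := by
    intro γ g0 g1 g2 g3 g4 g5
    by_cases hm : Fin.last m = 0
    · exfalso
      have h2 : Fin.last (m + 1) = 1 := by
        rw [← Fin.succ_last, hm]; rfl
      rw [h2, g1] at g5
      exact g5 h1
    · have h3 := g3 (Fin.last m)
      rw [Fin.succ_last] at h3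
      refine h _ (g4 _ hm) _ g5 ?_ h3
      intro h4
      have h5 := g2 (h4.trans g0.symm)
      have h6 := congrArg Fin.val h5
      simp at h6
  ext γ
  unfold Pc
  simp only [Set.mem_ofPred_eq]
  constructor
  · rintro ⟨⟨g0, g1, g2, g3, g4⟩, g5, g6⟩
    exact ⟨⟨g0, g1, g2, g3, g4⟩, g5, (key γ g0 g1 g2 g3 g4 g5).1 g6⟩
  · rintro ⟨⟨g0, g1, g2, g3, g4⟩, g5, g6⟩
    exact ⟨⟨g0, g1, g2, g3, g4⟩, g5, (key γ g0 g1 g2 g3 g4 g5).2 g6⟩

theorem head_ne {D : Finset V} (hO : ∀ v ∈ D, ¬ Slit v) (h01 : ((0, 1) : V) ∉ D)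
    {l : List V} (hl : l ∈ EE D) : l.headD (0, 0) ≠ (0, 0) := by
  unfold EE at hl
  rw [Finset.mem_filter] at hl
  obtain ⟨h1, h2⟩ := hl
  unfold All at h1
  rw [Finset.mem_biUnion] at h1
  obtain ⟨m, -, h3⟩ := h1
  have h4 := exit_new hO h01 h3 h2
  obtain ⟨z, t, rfl, hg, hlen⟩ := good_of_mem h3
  simp only [List.headD_cons, List.tail_cons] at h4 ⊢
  intro hz
  apply h4
  rw [hz]
  rcases List.eq_nil_or_concat t with h5 | ⟨s, a, h5⟩
  · rw [h5] at hlen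
    simp at hlen
  · have h6 := hg.last
    subst h5
    rw [List.concat_eq_append] at h6 ⊢
    have ha : a = (0, 0) := by simpa using h6
    rw [ha]
    simp

theorem corner_slit {D' : Finset V} (hD : ∀ v ∈ D', v.2 ≤ -1) :
    ∀ v ∈ insert (1, 0) D', ¬ Slit v := by
  intro v hv hs
  rw [Finset.mem_insert] at hv
  unfold Slit at hs
  rcases hv with rfl | hv
  · simp at hs
  · have := hD v hv
    omega

theorem corner_01 {D' : Finset V} (hD : ∀ v ∈ D', v.2 ≤ -1) :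
    ((0, 1) : V) ∉ insert (1, 0) D' := by
  intro h
  rw [Finset.mem_insert] at h
  rcases h with h | h
  · exact absurd (congrArg Prod.fst h) (by norm_num)
  · have := hD _ h
    simp at this

/-- a neighbour of a vertex below the axis -/
theorem adj_low {D' : Finset V} (hD : ∀ v ∈ D', v.2 ≤ -1) {y v : V} (hy : y ∈ D')
    (h : Adj y v) : v ≠ (2, 0) ∧ v ≠ (0, 0) := by
  have h1 := hD y hy
  rw [adj_iff] at h
  obtain ⟨y1, y2⟩ := y
  obtain ⟨v1, v2⟩ := v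
  simp only at h h1
  rw [ne_eq, ne_eq, Prod.mk.injEq, Prod.mk.injEq]
  omega

theorem corner_far (n x : ℝ) (hx : x ≠ 0) {D' : Finset V} (hD : ∀ v ∈ D', v.2 ≤ -1)
    (h11 : ((1, -1) : V) ∈ D') {j : ℕ} (hj : j ≤ 2) (Q : Set V)
    (hQ : ∀ y ∈ D', ∀ v, v ∉ D' → v ≠ (1, 0) → Adj y v → (v ∈ Q ↔ Wj j v))
    (ZZl : Set V → ℝ) (hZ : ∀ A : Finset V, ZZl (A : Set V) = Zp n x A) :
    ∑' m : ℕ, ∑ᶠ γ ∈ Pc (D' : Set V) Q m, x ^ (m + 1) * ZZl ((D' : Set V) \ Set.range γ) =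
      ∑ l ∈ EF j (insert (1, 0) D'), wt n x (insert (1, 0) D') l := by
  have e : ∀ m, Pc (D' : Set V) Q m = Pc (D' : Set V) {v | Wj j v} m := by
    intro m
    exact Pc_congr (by exact_mod_cast h11)
      (fun y hy v hv hv' ha => hQ y (by exact_mod_cast hy) v (by exact_mod_cast hv) hv' ha) m
  simp_rw [e]
  refine corner_sum n x hx hD {v | Wj j v} ?_ ?_ ZZl hZ _ (fun l => Finset.mem_filter)
  · exact not_Wj_two hj
  · intro h
    have : Wj j ((0, 0) : V) := h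
    unfold Wj at this
    simp at this

theorem corner_near (n x : ℝ) (hx : x ≠ 0) {D' : Finset V} (hD : ∀ v ∈ D', v.2 ≤ -1)
    (h11 : ((1, -1) : V) ∈ D') {j : ℕ} (Q : Set V)
    (hQ : ∀ y ∈ D', ∀ v, v ∉ D' → v ≠ (1, 0) → Adj y v → (v ∈ Q ↔ ¬ Wj j v))
    (ZZl : Set V → ℝ) (hZ : ∀ A : Finset V, ZZl (A : Set V) = Zp n x A) :
    ∑' m : ℕ, ∑ᶠ γ ∈ Pc (D' : Set V) Q m, x ^ (m + 1) * ZZl ((D' : Set V) \ Set.range γ) =
      ∑ l ∈ EN j (insert (1, 0) D'), wt n x (insert (1, 0) D') l := by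
  have e : ∀ m, Pc (D' : Set V) Q m =
      Pc (D' : Set V) {v | ¬ Wj j v ∧ v ≠ (2, 0) ∧ v ≠ (0, 0)} m := by
    intro m
    refine Pc_congr (by exact_mod_cast h11) (fun y hy v hv hv' ha => ?_) m
    rw [hQ y (by exact_mod_cast hy) v (by exact_mod_cast hv) hv' ha]
    have := adj_low hD (by exact_mod_cast hy) ha
    exact ⟨fun h => ⟨h, this⟩, fun h => h.1⟩
  simp_rw [e]
  refine corner_sum n x hx hD _ ?_ ?_ ZZl hZ _ (fun l => ?_)
  · exact fun h => h.2.1 rfl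
  · exact fun h => h.2.2 rfl
  · unfold EN
    rw [Finset.mem_filter]
    constructor
    · rintro ⟨h1, h2, h3⟩
      exact ⟨h1, h2, h3, head_ne (corner_slit hD) (corner_01 hD) h1⟩
    · rintro ⟨h1, h2, h3, _⟩
      exact ⟨h1, h2, h3⟩

/-- the triangle without the first vertex -/
noncomputable def Tc (N : ℤ) : Finset V := (Tn N).erase (1, 0)

theorem mem_Tc (N : ℤ) (v : V) :
    v ∈ Tc N ↔ v.2 ≤ -1 ∧ v.1 - v.2 ≤ 2 ∧ -2 * N ≤ v.1 + v.2 := by
  unfold Tc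
  rw [Finset.mem_erase, mem_Tn]
  obtain ⟨a, b⟩ := v
  unfold Wj
  rw [ne_eq, Prod.mk.injEq]
  simp only
  omega

theorem ins_Tc (N : ℤ) (hN : 1 ≤ N) : insert (1, 0) (Tc N) = Tn N :=
  Finset.insert_erase (base_Tn N hN)

/-- the parallelogram without the first vertex -/
noncomputable def Pd (M N : ℤ) : Finset V := (Pn M N).erase (1, 0)

theorem mem_Pd (M N : ℤ) (v : V) :
    v ∈ Pd M N ↔ -M ≤ v.2 ∧ v.2 ≤ -1 ∧ -2 * N ≤ v.1 + v.2 ∧ v.1 + v.2 ≤ 1 := by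
  unfold Pd
  rw [Finset.mem_erase, mem_Pn]
  obtain ⟨a, b⟩ := v
  unfold Wj
  rw [ne_eq, Prod.mk.injEq]
  simp only
  omega

theorem ins_Pd (M N : ℤ) (hM : 1 ≤ M) (hN : 1 ≤ N) : insert (1, 0) (Pd M N) = Pn M N :=
  Finset.insert_erase (base_Pn M N hM hN)

theorem tri_gen {n x θ : ℝ} (hx : 2 * x * Real.cos θ = 1) (hn : n = -2 * Real.cos (4 * θ))
    (N : ℤ) (hN : 1 ≤ N) :
    ∑ l ∈ EF 1 (Tn N), wt n x (Tn N) l + Real.cos (2 * θ) * ∑ l ∈ EN 1 (Tn N), wt n x (Tn N) l =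
      1 / 2 * Zp n x (Tn N) := by
  have h1 := wedge_id hx 1 (le_refl _) (by norm_num) (Tn_Wj N) (base_Tn N hN) n hn
  have h2 : ∑ l ∈ EF 1 (Tn N), Real.cos (((W l : ℝ) - (((1 : ℕ) : ℝ) - 5) / 2) * θ) *
      wt n x (Tn N) l = ∑ l ∈ EF 1 (Tn N), wt n x (Tn N) l := by
    refine Finset.sum_congr rfl fun l hl => ?_
    rw [tri_idx N hN hl]
    have e : ((((-2 : ℤ) : ℝ)) - (((1 : ℕ) : ℝ) - 5) / 2) * θ = 0 := by
      push_cast; ring
    rw [e, Real.cos_zero, one_mul]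
  have h3 : Real.cos ((((1 : ℕ) : ℝ) + 3) * θ / 2) = Real.cos (2 * θ) := by
    congr 1
    push_cast
    ring
  have h4 : rr 1 x θ = 1 / 2 := by
    unfold rr
    rw [if_pos (by norm_num)]
    have e : (3 - ((1 : ℕ) : ℝ)) * θ / 2 = θ := by push_cast; ring
    rw [e]
    linarith
  rw [h2, h3, h4] at h1
  exact h1

theorem par_gen {n x θ : ℝ} (hx : 2 * x * Real.cos θ = 1) (hn : n = -2 * Real.cos (4 * θ))
    (hc : Real.cos (θ / 2) ≠ 0) (M N : ℤ) (hM : 1 ≤ M) (hN : 1 ≤ N) :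
    ∑ l ∈ EF 2 (Pn M N), wt n x (Pn M N) l +
      (2 * Real.cos (2 * θ) - 2 * Real.cos θ + 1) * ∑ l ∈ EN 2 (Pn M N), wt n x (Pn M N) l =
      x * Zp n x (Pn M N) := by
  have h1 := wedge_id hx 2 (by norm_num) (by norm_num) (Pn_Wj M N) (base_Pn M N hM hN) n hn
  have h2 : ∑ l ∈ EF 2 (Pn M N), Real.cos (((W l : ℝ) - (((2 : ℕ) : ℝ) - 5) / 2) * θ) *
      wt n x (Pn M N) l = Real.cos (θ / 2) * ∑ l ∈ EF 2 (Pn M N), wt n x (Pn M N) l := by
    rw [Finset.mul_sum]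
    refine Finset.sum_congr rfl fun l hl => ?_
    congr 1
    rcases par_idx M N hM hN hl with h3 | h3
    · rw [h3]
      congr 1
      push_cast
      ring
    · rw [h3]
      have e : ((((-2 : ℤ) : ℝ)) - (((2 : ℕ) : ℝ) - 5) / 2) * θ = -(θ / 2) := by
        push_cast; ring
      rw [e, Real.cos_neg]
  have h3 : Real.cos ((((2 : ℕ) : ℝ) + 3) * θ / 2) =
      Real.cos (θ / 2) * (2 * Real.cos (2 * θ) - 2 * Real.cos θ + 1) := by
    have e1 : (((2 : ℕ) : ℝ) + 3) * θ / 2 = 2 * θ + θ / 2 := by push_cast; ring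
    have e2 : θ = 2 * (θ / 2) := by ring
    have e3 : Real.cos θ = 2 * Real.cos (θ / 2) ^ 2 - 1 := by
      conv_lhs => rw [e2]
      exact Real.cos_two_mul _
    have e4 : Real.sin θ = 2 * Real.sin (θ / 2) * Real.cos (θ / 2) := by
      conv_lhs => rw [e2]
      exact Real.sin_two_mul _
    have e5 : Real.cos (2 * θ) = 2 * Real.cos θ ^ 2 - 1 := Real.cos_two_mul _
    have e6 : Real.sin (2 * θ) = 2 * Real.sin θ * Real.cos θ := Real.sin_two_mul _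
    have e7 : Real.sin (θ / 2) ^ 2 = 1 - Real.cos (θ / 2) ^ 2 := by
      have := Real.sin_sq_add_cos_sq (θ / 2)
      linarith
    rw [e1, Real.cos_add, e5, e6, e4, e3]
    generalize Real.cos (θ / 2) = c at *
    generalize Real.sin (θ / 2) = s at *
    linear_combination (-4 * c * (2 * c ^ 2 - 1)) * e7
  have h4 : rr 2 x θ = x * Real.cos (θ / 2) := by
    unfold rr
    rw [if_pos (le_refl _)]
    congr 2
    push_cast
    ring
  rw [h2, h3, h4] at h1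
  apply mul_left_cancel₀ hc
  linear_combination h1

/-- the angle -/
theorem ang_gen {n x σ : ℝ} (hn : -2 ≤ n) (hσ : σ ^ 2 = 2 - n) (hσ' : -2 < σ)
    (hx : x = (2 + σ) ^ (-(1 / 2) : ℝ)) :
    ∃ θ : ℝ, 2 * x * Real.cos θ = 1 ∧ n = -2 * Real.cos (4 * θ) ∧ σ = 2 * Real.cos (2 * θ) ∧
      Real.cos (θ / 2) ≠ 0 ∧ 0 < x := by
  have hpi := Real.pi_pos
  have h2 : σ ≤ 2 := by nlinarith
  refine ⟨Real.arccos (σ / 2) / 2, ?_⟩
  have h3 := Real.arccos_nonneg (σ / 2)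
  have h4 : Real.arccos (σ / 2) < Real.pi := by
    rcases lt_or_eq_of_le (Real.arccos_le_pi (σ / 2)) with h | h
    · exact h
    · rw [Real.arccos_eq_pi] at h
      linarith
  have h5 : Real.cos (2 * (Real.arccos (σ / 2) / 2)) = σ / 2 := by
    have e : 2 * (Real.arccos (σ / 2) / 2) = Real.arccos (σ / 2) := by ring
    rw [e, Real.cos_arccos (by linarith) (by linarith)]
  generalize Real.arccos (σ / 2) = t at *
  have h6 : 0 < Real.cos (t / 2) := Real.cos_pos_of_mem_Ioo ⟨by linarith, by linarith⟩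
  have h7 : 0 < Real.cos (t / 2 / 2) := Real.cos_pos_of_mem_Ioo ⟨by linarith, by linarith⟩
  have h8 : Real.cos (4 * (t / 2)) = 2 * (σ / 2) ^ 2 - 1 := by
    have e : 4 * (t / 2) = 2 * (2 * (t / 2)) := by ring
    rw [e, Real.cos_two_mul, h5]
  have hsq : (2 * Real.cos (t / 2)) ^ 2 = 2 + σ := by
    have h9 := Real.cos_two_mul (t / 2)
    rw [h5] at h9
    linear_combination -2 * h9
  have hpow : ((2 * Real.cos (t / 2)) ^ 2) ^ (-(1 / 2) : ℝ) = (2 * Real.cos (t / 2))⁻¹ := by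
    rw [← Real.rpow_natCast, ← Real.rpow_mul (by positivity)]
    norm_num
    rw [Real.rpow_neg_one]
    simp [mul_comm]
  have hx2 : x = (2 * Real.cos (t / 2))⁻¹ := by
    rw [hx, ← hsq, hpow]
  refine ⟨?_, ?_, ?_, h7.ne', ?_⟩
  · rw [hx2]
    field_simp
  · rw [h8]
    linear_combination hσ
  · rw [h5]
    ring
  · rw [hx2]
    positivity

/-- the formula in triangles -/
theorem tri_corner {n x σ : ℝ} (hn : -2 ≤ n) (hσ : σ ^ 2 = 2 - n) (hσ' : -2 < σ)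
    (hx : x = (2 + σ) ^ (-(1 / 2) : ℝ)) (N : ℤ) (hN : 1 ≤ N)
    (ZZl : Set V → ℝ) (hZ : ∀ A : Finset V, ZZl (A : Set V) = Zp n x A) :
    2 * (∑' m : ℕ, ∑ᶠ γ ∈ Pc (Tc N : Set V) {v | v.1 + v.2 < -2 * N} m,
        x ^ (m + 1) * ZZl ((Tc N : Set V) \ Set.range γ)) +
      σ * (∑' m : ℕ, ∑ᶠ γ ∈ Pc (Tc N : Set V) {v | -2 * N ≤ v.1 + v.2} m,
        x ^ (m + 1) * ZZl ((Tc N : Set V) \ Set.range γ)) = ZZl (Tc N : Set V) := by
  obtain ⟨θ, hA, hA2, hs, -, hx0⟩ := ang_gen hn hσ hσ' hx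
  have hD : ∀ v ∈ Tc N, v.2 ≤ -1 := fun v hv => ((mem_Tc N v).1 hv).1
  have h11 : ((1, -1) : V) ∈ Tc N := by
    rw [mem_Tc]
    simp only
    omega
  rw [corner_far n x hx0.ne' hD h11 (j := 1) (by norm_num) _ ?_ ZZl hZ,
    corner_near n x hx0.ne' hD h11 (j := 1) _ ?_ ZZl hZ, ins_Tc N hN, hZ,
    ← corner_loops n x (j := 1) (by norm_num) hD (by rw [ins_Tc N hN]; exact Tn_Wj N),
    ins_Tc N hN, hs]
  · have := tri_gen hA hA2 N hN
    linear_combination 2 * this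
  · intro y hy v hv hv' ha
    rw [mem_Tc] at hy hv
    rw [adj_iff] at ha
    obtain ⟨y1, y2⟩ := y
    obtain ⟨v1, v2⟩ := v
    unfold Wj
    rw [ne_eq, Prod.mk.injEq] at hv'
    simp only [Set.mem_ofPred_eq] at *
    omega
  · intro y hy v hv hv' ha
    rw [mem_Tc] at hy hv
    rw [adj_iff] at ha
    obtain ⟨y1, y2⟩ := y
    obtain ⟨v1, v2⟩ := v
    unfold Wj
    rw [ne_eq, Prod.mk.injEq] at hv'
    simp only [Set.mem_ofPred_eq] at *
    omega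

/-- the formula in parallelograms -/
theorem par_corner {n x σ : ℝ} (hn : -2 ≤ n) (hσ : σ ^ 2 = 2 - n) (hσ' : -2 < σ)
    (hx : x = (2 + σ) ^ (-(1 / 2) : ℝ)) (M N : ℤ) (hM : 1 ≤ M) (hN : 1 ≤ N)
    (ZZl : Set V → ℝ) (hZ : ∀ A : Finset V, ZZl (A : Set V) = Zp n x A) :
    ∑' m : ℕ, ∑ᶠ γ ∈ Pc (Pd M N : Set V) {v | v.2 < -M ∨ v.1 + v.2 < -2 * N} m,
        x ^ (m + 1) * ZZl ((Pd M N : Set V) \ Set.range γ) +
      (1 + σ - 1 / x) *
        (∑' m : ℕ, ∑ᶠ γ ∈ Pc (Pd M N : Set V) {v | -1 < v.2 ∨ 1 < v.1 + v.2} m,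
        x ^ (m + 1) * ZZl ((Pd M N : Set V) \ Set.range γ)) = x * ZZl (Pd M N : Set V) := by
  obtain ⟨θ, hA, hA2, hs, hc2, hx0⟩ := ang_gen hn hσ hσ' hx
  have hD : ∀ v ∈ Pd M N, v.2 ≤ -1 := fun v hv => ((mem_Pd M N v).1 hv).2.1
  have h11 : ((1, -1) : V) ∈ Pd M N := by
    rw [mem_Pd]
    simp only
    omega
  have hc : 1 / x = 2 * Real.cos θ := by
    rw [div_eq_iff hx0.ne']
    linarith
  rw [corner_far n x hx0.ne' hD h11 (j := 2) (by norm_num) _ ?_ ZZl hZ,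
    corner_near n x hx0.ne' hD h11 (j := 2) _ ?_ ZZl hZ, ins_Pd M N hM hN, hZ,
    ← corner_loops n x (j := 2) (by norm_num) hD (by rw [ins_Pd M N hM hN]; exact Pn_Wj M N),
    ins_Pd M N hM hN, hs, hc]
  · have := par_gen hA hA2 hc2 M N hM hN
    linear_combination this
  · intro y hy v hv hv' ha
    rw [mem_Pd] at hy hv
    rw [adj_iff] at ha
    obtain ⟨y1, y2⟩ := y
    obtain ⟨v1, v2⟩ := v
    unfold Wj
    rw [ne_eq, Prod.mk.injEq] at hv'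
    simp only [Set.mem_ofPred_eq] at *
    omega
  · intro y hy v hv hv' ha
    rw [mem_Pd] at hy hv
    rw [adj_iff] at ha
    obtain ⟨y1, y2⟩ := y
    obtain ⟨v1, v2⟩ := v
    unfold Wj
    rw [ne_eq, Prod.mk.injEq] at hv'
    simp only [Set.mem_ofPred_eq] at *
    omega

end Pool.Agent.V7H29.OL
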