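import Pool.Agent.V7H29.OL.Cor

set_option autoImplicit false

/-! The formulas for triangles and parallelograms, side by side. -/

namespace Pool.Agent.V7H29.OL

open Finset H978R2.Hex H978R3.Wedge

theorem len_EE {D : Finset V} {l : List V} (h : l ∈ EE D) : Val (In D) l ∧ 2 ≤ l.length := by
  unfold EE at h
  rw [Finset.mem_filter, mem_All] at h
  refine ⟨h.1, ?_⟩
  match l, h.1 with
  | [_, _], _ => simp
  | _ :: _ :: _ :: _, _ => simp

theorem tri_kind (N : ℤ) (hN : 1 ≤ N) {l : List V} (hl : l ∈ EE (Tn N))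
    (h20 : l.headD (0, 0) ≠ (2, 0)) (h00 : l.headD (0, 0) ≠ (0, 0)) :
    (-1 < (l.headD (0, 0)).2 ∧ ¬ 2 < (l.headD (0, 0)).1 - (l.headD (0, 0)).2 ∧
      ¬ (l.headD (0, 0)).1 + (l.headD (0, 0)).2 < -2 * N ∧ W l = -4) ∨
    (¬ -1 < (l.headD (0, 0)).2 ∧ 2 < (l.headD (0, 0)).1 - (l.headD (0, 0)).2 ∧
      ¬ (l.headD (0, 0)).1 + (l.headD (0, 0)).2 < -2 * N ∧ W l = 0) ∨
    (¬ -1 < (l.headD (0, 0)).2 ∧ ¬ 2 < (l.headD (0, 0)).1 - (l.headD (0, 0)).2 ∧
      (l.headD (0, 0)).1 + (l.headD (0, 0)).2 < -2 * N ∧ W l = -2) := by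
  obtain ⟨y, hy, ha⟩ := exit_adj (base_Tn N hN) hl
  obtain ⟨h3, hlen⟩ := len_EE hl
  unfold EE at hl
  rw [Finset.mem_filter] at hl
  have h4 := hl.2
  have h5 : Val (Om (tp N)) l := Val_mono (fun v hv => (om_tp N hN v).2 hv) h3
  have ho := class_om (tp N) (ok_tp N hN) (l.length - 2) l (mem_P.2 ⟨h5, by omega⟩)
    (fun h => h4 ((om_tp N hN _).1 h))
  have hb : W l ≠ 5 := by
    have hP : l ∈ P (Om (tp N)) (l.length - 2) := mem_P.2 ⟨h5, by omega⟩
    apply no_five (tp N) (ok_tp N hN) _ hP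
      (fun h => h4 ((om_tp N hN _).1 h))
    intro x hx hOm
    rw [om_tp N hN, mem_Tn] at hOm
    unfold Wj at hOm
    simp only at hOm
    omega
  rw [mem_Tn] at hy h4
  clear h3 h5 hlen hl
  generalize l.headD (0, 0) = z at *
  generalize W l = k at *
  obtain ⟨z1, z2⟩ := z
  obtain ⟨y1, y2⟩ := y
  rw [adj_iff] at ha
  unfold Wj at h4 hy
  unfold Out tp Slit at ho
  rw [ne_eq, Prod.mk.injEq] at h20 h00
  simp only at ha h4 hy ho
  norm_num at h4 hy
  rcases ho with ho | ho | ho | ho | ho | ho | ho | ho | ho | ho <;>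
    rcases ha with ha | ha | ha | ha <;> omega

theorem par_kind (M N : ℤ) (hM : 1 ≤ M) (hN : 1 ≤ N) {l : List V} (hl : l ∈ EE (Pn M N))
    (h20 : l.headD (0, 0) ≠ (2, 0)) (h00 : l.headD (0, 0) ≠ (0, 0)) :
    (-1 < (l.headD (0, 0)).2 ∧ ¬ 1 < (l.headD (0, 0)).1 + (l.headD (0, 0)).2 ∧
      ¬ (l.headD (0, 0)).2 < -M ∧
      ¬ (l.headD (0, 0)).1 + (l.headD (0, 0)).2 < -2 * N ∧ W l = -4) ∨
    (¬ -1 < (l.headD (0, 0)).2 ∧ 1 < (l.headD (0, 0)).1 + (l.headD (0, 0)).2 ∧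
      ¬ (l.headD (0, 0)).2 < -M ∧
      ¬ (l.headD (0, 0)).1 + (l.headD (0, 0)).2 < -2 * N ∧ W l = 1) ∨
    (¬ -1 < (l.headD (0, 0)).2 ∧ ¬ 1 < (l.headD (0, 0)).1 + (l.headD (0, 0)).2 ∧
      (l.headD (0, 0)).2 < -M ∧
      ¬ (l.headD (0, 0)).1 + (l.headD (0, 0)).2 < -2 * N ∧ W l = -1) ∨
    (¬ -1 < (l.headD (0, 0)).2 ∧ ¬ 1 < (l.headD (0, 0)).1 + (l.headD (0, 0)).2 ∧
      ¬ (l.headD (0, 0)).2 < -M ∧
      (l.headD (0, 0)).1 + (l.headD (0, 0)).2 < -2 * N ∧ W l = -2) := by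
  obtain ⟨y, hy, ha⟩ := exit_adj (base_Pn M N hM hN) hl
  obtain ⟨h3, hlen⟩ := len_EE hl
  unfold EE at hl
  rw [Finset.mem_filter] at hl
  have h4 := hl.2
  have h5 : Val (Om (pp M N)) l := Val_mono (fun v hv => (om_pp M N hM hN v).2 hv) h3
  have ho := class_om (pp M N) (ok_pp M N hM hN) (l.length - 2) l (mem_P.2 ⟨h5, by omega⟩)
    (fun h => h4 ((om_pp M N hM hN _).1 h))
  have hb : W l ≠ 5 := by
    have hP : l ∈ P (Om (pp M N)) (l.length - 2) := mem_P.2 ⟨h5, by omega⟩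
    apply no_five (pp M N) (ok_pp M N hM hN) _ hP
      (fun h => h4 ((om_pp M N hM hN _).1 h))
    intro x hx hOm
    rw [om_pp M N hM hN, mem_Pn] at hOm
    unfold Wj at hOm
    simp only at hOm
    omega
  rw [mem_Pn] at hy h4
  clear h3 h5 hlen hl
  generalize l.headD (0, 0) = z at *
  generalize W l = k at *
  obtain ⟨z1, z2⟩ := z
  obtain ⟨y1, y2⟩ := y
  rw [adj_iff] at ha
  unfold Wj at h4 hy
  unfold Out pp Slit at ho
  rw [ne_eq, Prod.mk.injEq] at h20 h00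
  simp only at ha h4 hy ho
  norm_num at h4 hy
  rcases ho with ho | ho | ho | ho | ho | ho | ho | ho | ho | ho <;>
    rcases ha with ha | ha | ha | ha <;> omega

/-- the part of the exits which end in `Q` -/
noncomputable def ES (D : Finset V) (Q : Set V) : Finset (List V) :=
  open scoped Classical in (EE D).filter (fun l => l.headD (0, 0) ∈ Q ∧ l.headD (0, 0) ≠ (2, 0))

theorem corner_any (n x : ℝ) (hx : x ≠ 0) {D' : Finset V} (hD : ∀ v ∈ D', v.2 ≤ -1)
    (h11 : ((1, -1) : V) ∈ D') (Q : Set V)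
    (ZZl : Set V → ℝ) (hZ : ∀ A : Finset V, ZZl (A : Set V) = Zp n x A) :
    ∑' m : ℕ, ∑ᶠ γ ∈ Pc (D' : Set V) Q m, x ^ (m + 1) * ZZl ((D' : Set V) \ Set.range γ) =
      ∑ l ∈ ES (insert (1, 0) D') Q, wt n x (insert (1, 0) D') l := by
  classical
  have e : ∀ m, Pc (D' : Set V) Q m =
      Pc (D' : Set V) {v | v ∈ Q ∧ v ≠ (2, 0) ∧ v ≠ (0, 0)} m := by
    intro m
    refine Pc_congr (by exact_mod_cast h11) (fun y hy v hv hv' ha => ?_) m
    have := adj_low hD (by exact_mod_cast hy) ha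
    exact ⟨fun h => ⟨h, this⟩, fun h => h.1⟩
  simp_rw [e]
  refine corner_sum n x hx hD _ ?_ ?_ ZZl hZ _ (fun l => ?_)
  · exact fun h => h.2.1 rfl
  · exact fun h => h.2.2 rfl
  · unfold ES
    rw [Finset.mem_filter]
    constructor
    · rintro ⟨h1, h2, h3⟩
      exact ⟨h1, h2, h3, head_ne (corner_slit hD) (corner_01 hD) h1⟩
    · rintro ⟨h1, h2, h3, _⟩
      exact ⟨h1, h2, h3⟩

/-- the identity in the triangle with all exits named -/
theorem tri_all {x θ : ℝ} (hx : 2 * x * Real.cos θ = 1) (N : ℤ) (hN : 1 ≤ N) (φ : ℝ) :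
    Real.cos (-4 * θ + φ) *
        ∑ l ∈ ES (Tn N) {v | -1 < v.2}, wt (-2 * Real.cos (4 * θ)) x (Tn N) l +
      Real.cos φ * ∑ l ∈ ES (Tn N) {v | 2 < v.1 - v.2}, wt (-2 * Real.cos (4 * θ)) x (Tn N) l +
      Real.cos (-2 * θ + φ) *
        ∑ l ∈ ES (Tn N) {v | v.1 + v.2 < -2 * N}, wt (-2 * Real.cos (4 * θ)) x (Tn N) l =
      x * Real.cos (φ - θ) * Zp (-2 * Real.cos (4 * θ)) x (Tn N) := by
  classical
  have hO : ∀ v ∈ Tn N, ¬ Slit v := by
    intro v hv hs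
    have := Tn_Wj N v hv
    unfold Wj at this
    unfold Slit at hs
    omega
  have h01 : ((0, 1) : V) ∉ Tn N := by
    intro h
    have := Tn_Wj N _ h
    unfold Wj at this
    simp only at this
    omega
  have h := rot_id hx hO φ
  have himm : ∑ l ∈ (EE (Tn N)).filter (fun l => l.headD (0, 0) = (2, 0)),
      Real.cos ((W l : ℝ) * θ + φ) * wt (-2 * Real.cos (4 * θ)) x (Tn N) l =
      x * Real.cos (θ + φ) * Zp (-2 * Real.cos (4 * θ)) x (Tn N) := by
    rw [imm_exit' (j := 1) (by norm_num) (Tn_Wj N) (base_Tn N hN), Finset.sum_singleton]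
    have e1 : W [((2, 0) : V), (1, 0), (0, 0)] = 1 := by decide
    have e2 : wt (-2 * Real.cos (4 * θ)) x (Tn N) [((2, 0) : V), (1, 0), (0, 0)] =
        x * Zp (-2 * Real.cos (4 * θ)) x (Tn N) := by
      unfold wt
      have := apex_free (-2 * Real.cos (4 * θ)) x (j := 1) (by norm_num) (Tn_Wj N) (base_Tn N hN)
      rw [List.tail_cons, this]
      norm_num
    rw [e1, e2]
    push_cast
    rw [one_mul]
    ring
  have hsplit : ∑ l ∈ EE (Tn N), Real.cos ((W l : ℝ) * θ + φ) *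
        wt (-2 * Real.cos (4 * θ)) x (Tn N) l =
      ∑ l ∈ (EE (Tn N)).filter (fun l => l.headD (0, 0) = (2, 0)),
        Real.cos ((W l : ℝ) * θ + φ) * wt (-2 * Real.cos (4 * θ)) x (Tn N) l +
      (Real.cos (-4 * θ + φ) *
        ∑ l ∈ ES (Tn N) {v | -1 < v.2}, wt (-2 * Real.cos (4 * θ)) x (Tn N) l +
      Real.cos φ * ∑ l ∈ ES (Tn N) {v | 2 < v.1 - v.2}, wt (-2 * Real.cos (4 * θ)) x (Tn N) l +
      Real.cos (-2 * θ + φ) *
        ∑ l ∈ ES (Tn N) {v | v.1 + v.2 < -2 * N}, wt (-2 * Real.cos (4 * θ)) x (Tn N) l) := by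
    unfold ES
    simp only [Set.mem_ofPred_eq]
    rw [Finset.mul_sum, Finset.mul_sum, Finset.mul_sum, Finset.sum_filter, Finset.sum_filter,
      Finset.sum_filter, Finset.sum_filter, ← Finset.sum_add_distrib, ← Finset.sum_add_distrib,
      ← Finset.sum_add_distrib]
    refine Finset.sum_congr rfl fun l hl => ?_
    by_cases h20 : l.headD (0, 0) = (2, 0)
    · rw [if_pos h20, if_neg (fun h => h.2 h20), if_neg (fun h => h.2 h20),
        if_neg (fun h => h.2 h20)]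
      ring
    · rcases tri_kind N hN hl h20 (head_ne hO h01 hl) with h1 | h1 | h1
      · obtain ⟨a1, a2, a3, a4⟩ := h1
        rw [if_neg h20, if_pos ⟨a1, h20⟩, if_neg (fun h => a2 h.1), if_neg (fun h => a3 h.1), a4]
        push_cast
        ring
      · obtain ⟨a1, a2, a3, a4⟩ := h1
        rw [if_neg h20, if_neg (fun h => a1 h.1), if_pos ⟨a2, h20⟩, if_neg (fun h => a3 h.1), a4]
        push_cast
        rw [zero_mul, zero_add]
        ring
      · obtain ⟨a1, a2, a3, a4⟩ := h1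
        rw [if_neg h20, if_neg (fun h => a1 h.1), if_neg (fun h => a2 h.1), if_pos ⟨a3, h20⟩, a4]
        push_cast
        ring
  rw [hsplit, himm] at h
  have e3 : x * Real.cos (φ - θ) = Real.cos φ - x * Real.cos (θ + φ) := by
    rw [Real.cos_sub, Real.cos_add]
    linear_combination (Real.cos φ) * hx
  rw [e3]
  linear_combination h

/-- the identity in the parallelogram with all exits named -/
theorem par_all {x θ : ℝ} (hx : 2 * x * Real.cos θ = 1) (M N : ℤ) (hM : 1 ≤ M) (hN : 1 ≤ N)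
    (φ : ℝ) :
    Real.cos (-4 * θ + φ) *
        ∑ l ∈ ES (Pn M N) {v | -1 < v.2}, wt (-2 * Real.cos (4 * θ)) x (Pn M N) l +
      Real.cos (θ + φ) *
        ∑ l ∈ ES (Pn M N) {v | 1 < v.1 + v.2}, wt (-2 * Real.cos (4 * θ)) x (Pn M N) l +
      Real.cos (-θ + φ) *
        ∑ l ∈ ES (Pn M N) {v | v.2 < -M}, wt (-2 * Real.cos (4 * θ)) x (Pn M N) l +
      Real.cos (-2 * θ + φ) *
        ∑ l ∈ ES (Pn M N) {v | v.1 + v.2 < -2 * N}, wt (-2 * Real.cos (4 * θ)) x (Pn M N) l =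
      x * Real.cos (φ - θ) * Zp (-2 * Real.cos (4 * θ)) x (Pn M N) := by
  classical
  have hO : ∀ v ∈ Pn M N, ¬ Slit v := by
    intro v hv hs
    have := Pn_Wj M N v hv
    unfold Wj at this
    unfold Slit at hs
    omega
  have h01 : ((0, 1) : V) ∉ Pn M N := by
    intro h
    have := Pn_Wj M N _ h
    unfold Wj at this
    simp only at this
    omega
  have h := rot_id hx hO φ
  have himm : ∑ l ∈ (EE (Pn M N)).filter (fun l => l.headD (0, 0) = (2, 0)),
      Real.cos ((W l : ℝ) * θ + φ) * wt (-2 * Real.cos (4 * θ)) x (Pn M N) l =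
      x * Real.cos (θ + φ) * Zp (-2 * Real.cos (4 * θ)) x (Pn M N) := by
    rw [imm_exit' (j := 2) (by norm_num) (Pn_Wj M N) (base_Pn M N hM hN), Finset.sum_singleton]
    have e1 : W [((2, 0) : V), (1, 0), (0, 0)] = 1 := by decide
    have e2 : wt (-2 * Real.cos (4 * θ)) x (Pn M N) [((2, 0) : V), (1, 0), (0, 0)] =
        x * Zp (-2 * Real.cos (4 * θ)) x (Pn M N) := by
      unfold wt
      have := apex_free (-2 * Real.cos (4 * θ)) x (j := 2) (by norm_num) (Pn_Wj M N)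
        (base_Pn M N hM hN)
      rw [List.tail_cons, this]
      norm_num
    rw [e1, e2]
    push_cast
    rw [one_mul]
    ring
  have hsplit : ∑ l ∈ EE (Pn M N), Real.cos ((W l : ℝ) * θ + φ) *
        wt (-2 * Real.cos (4 * θ)) x (Pn M N) l =
      ∑ l ∈ (EE (Pn M N)).filter (fun l => l.headD (0, 0) = (2, 0)),
        Real.cos ((W l : ℝ) * θ + φ) * wt (-2 * Real.cos (4 * θ)) x (Pn M N) l +
      (Real.cos (-4 * θ + φ) *
        ∑ l ∈ ES (Pn M N) {v | -1 < v.2}, wt (-2 * Real.cos (4 * θ)) x (Pn M N) l +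
      Real.cos (θ + φ) *
        ∑ l ∈ ES (Pn M N) {v | 1 < v.1 + v.2}, wt (-2 * Real.cos (4 * θ)) x (Pn M N) l +
      Real.cos (-θ + φ) *
        ∑ l ∈ ES (Pn M N) {v | v.2 < -M}, wt (-2 * Real.cos (4 * θ)) x (Pn M N) l +
      Real.cos (-2 * θ + φ) *
        ∑ l ∈ ES (Pn M N) {v | v.1 + v.2 < -2 * N},
          wt (-2 * Real.cos (4 * θ)) x (Pn M N) l) := by
    unfold ES
    simp only [Set.mem_ofPred_eq]
    rw [Finset.mul_sum, Finset.mul_sum, Finset.mul_sum, Finset.mul_sum, Finset.sum_filter,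
      Finset.sum_filter, Finset.sum_filter, Finset.sum_filter, Finset.sum_filter,
      ← Finset.sum_add_distrib, ← Finset.sum_add_distrib,
      ← Finset.sum_add_distrib, ← Finset.sum_add_distrib]
    refine Finset.sum_congr rfl fun l hl => ?_
    by_cases h20 : l.headD (0, 0) = (2, 0)
    · rw [if_pos h20, if_neg (fun h => h.2 h20), if_neg (fun h => h.2 h20),
        if_neg (fun h => h.2 h20), if_neg (fun h => h.2 h20)]
      ring
    · rcases par_kind M N hM hN hl h20 (head_ne hO h01 hl) with h1 | h1 | h1 | h1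
      · obtain ⟨a1, a2, a3, a4, a5⟩ := h1
        rw [if_neg h20, if_pos ⟨a1, h20⟩, if_neg (fun h => a2 h.1), if_neg (fun h => a3 h.1),
          if_neg (fun h => a4 h.1), a5]
        push_cast
        ring
      · obtain ⟨a1, a2, a3, a4, a5⟩ := h1
        rw [if_neg h20, if_neg (fun h => a1 h.1), if_pos ⟨a2, h20⟩, if_neg (fun h => a3 h.1),
          if_neg (fun h => a4 h.1), a5]
        push_cast
        rw [one_mul]
        ring
      · obtain ⟨a1, a2, a3, a4, a5⟩ := h1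
        rw [if_neg h20, if_neg (fun h => a1 h.1), if_neg (fun h => a2 h.1), if_pos ⟨a3, h20⟩,
          if_neg (fun h => a4 h.1), a5]
        push_cast
        rw [neg_one_mul]
        ring
      · obtain ⟨a1, a2, a3, a4, a5⟩ := h1
        rw [if_neg h20, if_neg (fun h => a1 h.1), if_neg (fun h => a2 h.1),
          if_neg (fun h => a3 h.1), if_pos ⟨a4, h20⟩, a5]
        push_cast
        ring
  rw [hsplit, himm] at h
  have e3 : x * Real.cos (φ - θ) = Real.cos φ - x * Real.cos (θ + φ) := by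
    rw [Real.cos_sub, Real.cos_add]
    linear_combination (Real.cos φ) * hx
  rw [e3]
  linear_combination h

/-- the two formulas in triangles -/
theorem tri_pair {n x σ : ℝ} (hn : -2 < n) (hσ : σ ^ 2 = 2 - n) (hσ' : -2 < σ)
    (hx : x = (2 + σ) ^ (-(1 / 2) : ℝ)) (N : ℤ) (hN : 1 ≤ N)
    (ZZl : Set V → ℝ) (hZ : ∀ A : Finset V, ZZl (A : Set V) = Zp n x A) (Zs : Set V → ℝ)
    (hZs : ∀ Q, Zs Q = ∑' m : ℕ, ∑ᶠ γ ∈ Pc (Tc N : Set V) Q m,
        x ^ (m + 1) * ZZl ((Tc N : Set V) \ Set.range γ)) :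
    Zs {v | v.1 + v.2 < -2 * N} + σ * Zs {v | -1 < v.2} = x ^ 2 * ZZl (Tc N : Set V) ∧
      Zs {v | 2 < v.1 - v.2} = Zs {v | v.1 + v.2 < -2 * N} + (1 + σ) * Zs {v | -1 < v.2} := by
  obtain ⟨θ, hA, hA2, hs, -, hx0⟩ := ang_gen hn.le hσ hσ' hx
  have hD : ∀ v ∈ Tc N, v.2 ≤ -1 := fun v hv => ((mem_Tc N v).1 hv).1
  have h11 : ((1, -1) : V) ∈ Tc N := by
    rw [mem_Tc]
    simp only
    omega
  have hS : ∀ Q, Zs Q = ∑ l ∈ ES (Tn N) Q, wt n x (Tn N) l := by
    intro Q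
    rw [hZs, corner_any n x hx0.ne' hD h11 Q ZZl hZ, ins_Tc N hN]
  have hL : ZZl (Tc N : Set V) = Zp n x (Tn N) := by
    rw [hZ, ← corner_loops n x (j := 1) (by norm_num) hD (by rw [ins_Tc N hN]; exact Tn_Wj N),
      ins_Tc N hN]
  have hsin : Real.sin θ ≠ 0 := by
    intro h
    have h1 := Real.sin_sq_add_cos_sq θ
    have h2 := Real.cos_two_mul θ
    rw [h] at h1
    have h3 : σ = 2 := by
      rw [hs, h2]
      nlinarith
    rw [h3] at hσ
    linarith
  have hcos : Real.cos θ ≠ 0 := by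
    intro h
    rw [h] at hA
    simp at hA
  have a1 := tri_all hA N hN (Real.pi / 2)
  have a2 := tri_all hA N hN (θ + Real.pi / 2)
  rw [← hA2, ← hS, ← hS, ← hS, ← hL] at a1 a2
  have b1 : Real.cos (-4 * θ + Real.pi / 2) = Real.sin (4 * θ) := by
    rw [Real.cos_add_pi_div_two, ← Real.sin_neg]
    congr 1
    ring
  have b2 : Real.cos (-2 * θ + Real.pi / 2) = Real.sin (2 * θ) := by
    rw [Real.cos_add_pi_div_two, ← Real.sin_neg]
    congr 1
    ring
  have b3 : Real.cos (Real.pi / 2 - θ) = Real.sin θ := Real.cos_pi_div_two_sub θ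
  have b4 : Real.cos (-4 * θ + (θ + Real.pi / 2)) = Real.sin (3 * θ) := by
    have e : -4 * θ + (θ + Real.pi / 2) = -3 * θ + Real.pi / 2 := by ring
    rw [e, Real.cos_add_pi_div_two, ← Real.sin_neg]
    congr 1
    ring
  have b5 : Real.cos (-2 * θ + (θ + Real.pi / 2)) = Real.sin θ := by
    have e : -2 * θ + (θ + Real.pi / 2) = -θ + Real.pi / 2 := by ring
    rw [e, Real.cos_add_pi_div_two, ← Real.sin_neg]
    congr 1
    ring
  have b6 : Real.cos (θ + Real.pi / 2) = -Real.sin θ := Real.cos_add_pi_div_two θ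
  have b7 : Real.cos (θ + Real.pi / 2 - θ) = 0 := by
    have e : θ + Real.pi / 2 - θ = Real.pi / 2 := by ring
    rw [e, Real.cos_pi_div_two]
  rw [b1, b2, b3, Real.cos_pi_div_two] at a1
  rw [b4, b5, b6, b7] at a2
  have c1 : Real.sin (4 * θ) = 2 * Real.sin (2 * θ) * Real.cos (2 * θ) := by
    have e : 4 * θ = 2 * (2 * θ) := by ring
    rw [e, Real.sin_two_mul]
  have c2 : Real.sin (2 * θ) = 2 * Real.sin θ * Real.cos θ := Real.sin_two_mul θ
  have c3 : Real.sin (3 * θ) = Real.sin θ * (1 + σ) := by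
    rw [Real.sin_three_mul, hs, Real.cos_two_mul]
    have h1 := Real.sin_sq_add_cos_sq θ
    linear_combination (-4 * Real.sin θ) * h1
  refine ⟨?_, ?_⟩
  · rw [c1, c2] at a1
    apply mul_left_cancel₀ (mul_ne_zero (mul_ne_zero two_ne_zero hsin) hcos)
    rw [hs]
    linear_combination a1 - (x * Real.sin θ * ZZl (Tc N : Set V)) * hA
  · rw [c3] at a2
    apply mul_left_cancel₀ hsin
    linear_combination -a2

/-- the two formulas in parallelograms -/
theorem par_pair {n x σ : ℝ} (hn : -2 < n) (hσ : σ ^ 2 = 2 - n) (hσ' : -2 < σ)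
    (hx : x = (2 + σ) ^ (-(1 / 2) : ℝ)) (M N : ℤ) (hM : 1 ≤ M) (hN : 1 ≤ N)
    (ZZl : Set V → ℝ) (hZ : ∀ A : Finset V, ZZl (A : Set V) = Zp n x A) (Zs : Set V → ℝ)
    (hZs : ∀ Q, Zs Q = ∑' m : ℕ, ∑ᶠ γ ∈ Pc (Pd M N : Set V) Q m,
        x ^ (m + 1) * ZZl ((Pd M N : Set V) \ Set.range γ)) :
    Zs {v | v.2 < -M} / x + (1 + σ) * Zs {v | v.1 + v.2 < -2 * N} +
        (σ ^ 2 + σ - 1) * Zs {v | -1 < v.2} = ZZl (Pd M N : Set V) ∧
      Zs {v | 1 < v.1 + v.2} =
        x * (Zs {v | v.1 + v.2 < -2 * N} + (1 + σ) * Zs {v | -1 < v.2}) := by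
  obtain ⟨θ, hA, hA2, hs, -, hx0⟩ := ang_gen hn.le hσ hσ' hx
  have hD : ∀ v ∈ Pd M N, v.2 ≤ -1 := fun v hv => ((mem_Pd M N v).1 hv).2.1
  have h11 : ((1, -1) : V) ∈ Pd M N := by
    rw [mem_Pd]
    simp only
    omega
  have hS : ∀ Q, Zs Q = ∑ l ∈ ES (Pn M N) Q, wt n x (Pn M N) l := by
    intro Q
    rw [hZs, corner_any n x hx0.ne' hD h11 Q ZZl hZ, ins_Pd M N hM hN]
  have hL : ZZl (Pd M N : Set V) = Zp n x (Pn M N) := by
    rw [hZ, ← corner_loops n x (j := 2) (by norm_num) hD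
      (by rw [ins_Pd M N hM hN]; exact Pn_Wj M N), ins_Pd M N hM hN]
  have hsin : Real.sin θ ≠ 0 := by
    intro h
    have h1 := Real.sin_sq_add_cos_sq θ
    have h2 := Real.cos_two_mul θ
    rw [h] at h1
    have h3 : σ = 2 := by
      rw [hs, h2]
      nlinarith
    rw [h3] at hσ
    linarith
  have hcos : Real.cos θ ≠ 0 := by
    intro h
    rw [h] at hA
    simp at hA
  have a1 := par_all hA M N hM hN (Real.pi / 2 - θ)
  have a2 := par_all hA M N hM hN (θ + Real.pi / 2)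
  rw [← hA2, ← hS, ← hS, ← hS, ← hS, ← hL] at a1 a2
  have b1 : Real.cos (-4 * θ + (Real.pi / 2 - θ)) = Real.sin (5 * θ) := by
    have e : -4 * θ + (Real.pi / 2 - θ) = Real.pi / 2 - 5 * θ := by ring
    rw [e, Real.cos_pi_div_two_sub]
  have b2 : Real.cos (-2 * θ + (Real.pi / 2 - θ)) = Real.sin (3 * θ) := by
    have e : -2 * θ + (Real.pi / 2 - θ) = Real.pi / 2 - 3 * θ := by ring
    rw [e, Real.cos_pi_div_two_sub]
  have b3 : Real.cos (-θ + (Real.pi / 2 - θ)) = Real.sin (2 * θ) := by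
    have e : -θ + (Real.pi / 2 - θ) = Real.pi / 2 - 2 * θ := by ring
    rw [e, Real.cos_pi_div_two_sub]
  have b3' : Real.cos (Real.pi / 2 - θ - θ) = Real.sin (2 * θ) := by
    have e : Real.pi / 2 - θ - θ = Real.pi / 2 - 2 * θ := by ring
    rw [e, Real.cos_pi_div_two_sub]
  have b3'' : Real.cos (θ + (Real.pi / 2 - θ)) = 0 := by
    have e : θ + (Real.pi / 2 - θ) = Real.pi / 2 := by ring
    rw [e, Real.cos_pi_div_two]
  have b4 : Real.cos (-4 * θ + (θ + Real.pi / 2)) = Real.sin (3 * θ) := by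
    have e : -4 * θ + (θ + Real.pi / 2) = -3 * θ + Real.pi / 2 := by ring
    rw [e, Real.cos_add_pi_div_two, ← Real.sin_neg]
    congr 1
    ring
  have b5 : Real.cos (-2 * θ + (θ + Real.pi / 2)) = Real.sin θ := by
    have e : -2 * θ + (θ + Real.pi / 2) = -θ + Real.pi / 2 := by ring
    rw [e, Real.cos_add_pi_div_two, ← Real.sin_neg]
    congr 1
    ring
  have b6 : Real.cos (-θ + (θ + Real.pi / 2)) = 0 := by
    have e : -θ + (θ + Real.pi / 2) = Real.pi / 2 := by ring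
    rw [e, Real.cos_pi_div_two]
  have b7 : Real.cos (θ + Real.pi / 2 - θ) = 0 := by
    have e : θ + Real.pi / 2 - θ = Real.pi / 2 := by ring
    rw [e, Real.cos_pi_div_two]
  have b8 : Real.cos (θ + (θ + Real.pi / 2)) = -Real.sin (2 * θ) := by
    have e : θ + (θ + Real.pi / 2) = 2 * θ + Real.pi / 2 := by ring
    rw [e, Real.cos_add_pi_div_two]
  rw [b1, b2, b3, b3', b3''] at a1
  rw [b4, b5, b6, b7, b8] at a2
  have c2 : Real.sin (2 * θ) = 2 * Real.sin θ * Real.cos θ := Real.sin_two_mul θ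
  have h1 := Real.sin_sq_add_cos_sq θ
  have c3 : Real.sin (3 * θ) = Real.sin θ * (1 + σ) := by
    rw [Real.sin_three_mul, hs, Real.cos_two_mul]
    linear_combination (-4 * Real.sin θ) * h1
  have c0 : Real.cos (3 * θ) = Real.cos θ * (σ - 1) := by
    rw [Real.cos_three_mul, hs, Real.cos_two_mul]
    ring
  have c5 : Real.sin (5 * θ) = Real.sin θ * (σ ^ 2 + σ - 1) := by
    have e : 5 * θ = 3 * θ + 2 * θ := by ring
    have c4 : Real.cos (2 * θ) = σ / 2 := by rw [hs]; ring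
    have c6 : σ = 4 * Real.cos θ ^ 2 - 2 := by rw [hs, Real.cos_two_mul]; ring
    rw [e, Real.sin_add, c3, c0, c4, c2]
    linear_combination (-(1 / 2) * Real.sin θ * (σ - 1)) * c6
  refine ⟨?_, ?_⟩
  · rw [c5, c3, c2] at a1
    have hi : Zs {v | v.2 < -M} / x = Zs {v | v.2 < -M} * (2 * Real.cos θ) := by
      rw [div_eq_iff hx0.ne']
      linear_combination (-Zs {v | v.2 < -M}) * hA
    rw [hi]
    apply mul_left_cancel₀ hsin
    linear_combination a1 + (Real.sin θ * ZZl (Pd M N : Set V)) * hA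
  · rw [c3, c2] at a2
    apply mul_left_cancel₀ (mul_ne_zero (mul_ne_zero two_ne_zero hsin) hcos)
    linear_combination (-1 : ℝ) * a2 -
      (Real.sin θ * (Zs {v | v.1 + v.2 < -2 * N} + (1 + σ) * Zs {v | -1 < v.2})) * hA

end Pool.Agent.V7H29.OL
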