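import Pool.Agent.V7H29.OL.Trp

set_option autoImplicit false

/-! The identity for the O(n) loop model in a finite domain of the slit plane. -/

namespace Pool.Agent.V7H29.OL

open Finset H978R2.Hex Complex

/-- phase -/
noncomputable def ph (θ : ℝ) (k : ℤ) : ℂ := exp ((k : ℂ) * θ * I)

theorem ph_add (θ : ℝ) (k l : ℤ) : ph θ (k + l) = ph θ k * ph θ l := by
  unfold ph
  rw [← Complex.exp_add]
  congr 1
  push_cast
  ring

theorem ph_zero (θ : ℝ) : ph θ 0 = 1 := by
  unfold ph
  simp

theorem ph_pm (θ : ℝ) (k : ℤ) : ph θ k + ph θ (-k) = 2 * (Real.cos (k * θ) : ℂ) := by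
  unfold ph
  rw [Complex.ofReal_cos, Complex.cos]
  push_cast
  have e1 : -((k : ℂ) * θ) * I = -(k : ℂ) * θ * I := by ring
  rw [e1]
  ring

theorem FF_struct {D : Finset V} {b : List V} (h : b ∈ FF D) :
    ∃ z y t, b = z :: y :: t ∧ Good (In D) z (y :: t) ∧ z ∈ D ∧ z ∉ y :: t := by
  unfold FF at h
  rw [Finset.mem_filter] at h
  obtain ⟨z, t, rfl, hg⟩ := good_of_All h.1
  match t, hg, h with
  | [], hg, _ =>
    have := hg.suff.length_le
    simp at this
  | y :: t, hg, h => exact ⟨z, y, t, rfl, hg, h.2.1, h.2.2⟩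

theorem sum_turn (θ : ℝ) {y z : V} (h : Adj y z) (t : List V) :
    ∑ z' ∈ (nbrs z).erase y, ph θ (W (z' :: z :: y :: t)) =
      2 * (Real.cos θ : ℂ) * ph θ (W (z :: y :: t)) := by
  have hy : y ∈ nbrs z := mem_nbrs'.2 (adj_symm' h)
  have hcard : ((nbrs z).erase y).card = 2 := by
    rw [Finset.card_erase_of_mem hy, card_nbrs]
  obtain ⟨a, b, hab, hE⟩ := Finset.card_eq_two.1 hcard
  have ha : a ∈ (nbrs z).erase y := by rw [hE]; simp
  have hb : b ∈ (nbrs z).erase y := by rw [hE]; simp
  rw [Finset.mem_erase] at ha hb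
  have ha2 := mem_nbrs'.1 ha.2
  have hb2 := mem_nbrs'.1 hb.2
  have ho := turn_other h ha2 hb2 (Ne.symm ha.1) (Ne.symm hb.1) hab
  have hpm := turn_pm h ha2 (Ne.symm ha.1)
  rw [hE, Finset.sum_pair hab]
  have hW : ∀ u : V, W (u :: z :: y :: t) = turn y z u + W (z :: y :: t) := by
    intro u
    rw [W]
  rw [hW, hW, ph_add, ph_add, ← add_mul]
  congr 1
  have hb3 : turn y z b = - turn y z a := by rw [ho]; ring
  rw [hb3, ph_pm]
  rcases hpm with h1 | h1
  · rw [h1]
    simp
  · rw [h1]
    simp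

/-- the windings of the two orientations of the loop of a trapped walk -/
theorem W_pair {D : Finset V} (hO : ∀ v ∈ D, ¬ Slit v) {z q : V} {B L : List V}
    (hb : z :: q :: B ∈ FF D) (hL : L ∈ CLs z (D \ (q :: B).toFinset)) :
    ∃ s : ℤ, W (z :: (L ++ z :: q :: B)) = W (z :: q :: B) + 4 * s ∧
      W (z :: (L.reverse ++ z :: q :: B)) = W (z :: q :: B) + -(4 * s) ∧ (s = 1 ∨ s = -1) := by
  have hT : z :: (L ++ z :: q :: B) ∈ TT D := (TT_iff hO _).2 ⟨_, hb, L, hL, rfl⟩
  have hc := (mem_CLs.1 hL).1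
  have hcl := (cl_iff z L).1 hc
  match L, hcl.1 with
  | e :: L', hl =>
    rcases List.eq_nil_or_concat L' with h1 | ⟨M, a, h1⟩
    · exfalso
      rw [h1] at hl
      simp at hl
    · rw [List.concat_eq_append] at h1
      subst h1
      have hg : Good (In D) z ((e :: (M ++ [a])) ++ z :: q :: B) := by
        unfold TT at hT
        rw [Finset.mem_filter] at hT
        obtain ⟨z', t', h2, hg⟩ := good_of_All hT.1
        simp only [List.cons.injEq] at h2
        obtain ⟨rfl, rfl⟩ := h2
        exact hg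
      have hO' : ∀ v, In D v → ¬ Slit v := fun v hv => hO v hv
      have hg2 := hg.rev
      have hw1 := W_trap hO' hg
      have hw2 := W_trap hO' hg2
      have hrev : (e :: (M ++ [a])).reverse = a :: (M.reverse ++ [e]) := by simp
      have hce : Adj e z := by
        have := hg.chain
        simp only [List.cons_append] at this
        rw [List.isChain_cons_cons] at this
        exact this.1
      have hca : Adj a z := by
        have := hg2.chain
        simp only [List.cons_append] at this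
        rw [List.isChain_cons_cons] at this
        exact this.1
      have hqz : Adj q z := by
        have := hg.chain
        rw [← List.cons_append, List.isChain_split] at this
        have h2 := this.2
        rw [List.isChain_cons_cons] at h2
        exact h2.1
      have hn := hg.nodup
      rw [List.nodup_append] at hn
      have hqa : q ≠ a := by
        intro h
        exact hn.2.2 a (by simp) q (by simp) h.symm
      have hqe : q ≠ e := by
        intro h
        exact hn.2.2 e (by simp) q (by simp) h.symm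
      have hea : a ≠ e := by
        intro h
        have h2 := hn.1
        rw [List.nodup_cons] at h2
        apply h2.1
        rw [← h]
        simp
      have ho := turn_other hqz (adj_symm' hca) (adj_symm' hce) hqa hqe hea
      have hpm := turn_pm hqz (adj_symm' hca) hqa
      refine ⟨-turn q z a, ?_, ?_, ?_⟩
      · rw [hw1]; ring
      · rw [hrev, hw2, ho]; ring
      · rcases hpm with h | h
        · right; rw [h]
        · left; rw [h]; rfl

theorem rev_CLs {z : V} {A : Finset V} {L : List V} (h : L ∈ CLs z A) : L.reverse ∈ CLs z A := by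
  rw [mem_CLs] at h ⊢
  refine ⟨h.1.rev', ?_⟩
  intro v hv
  apply h.2
  rcases List.mem_cons.1 hv with rfl | hv
  · exact List.mem_cons_self
  · exact List.mem_cons_of_mem _ (List.mem_reverse.1 hv)

/-- weight of a walk -/
noncomputable def Fw (n x θ : ℝ) (D : Finset V) (l : List V) : ℂ :=
  (x : ℂ) ^ (l.length - 2) * ph θ (W l) * (Zp n x (D \ l.tail.toFinset) : ℂ)

/-- weight of a walk, the head being used as well -/
noncomputable def Cw (n x θ : ℝ) (D : Finset V) (b : List V) : ℂ :=
  (x : ℂ) ^ (b.length - 2) * ph θ (W b) * (Zp n x (D \ b.toFinset) : ℂ)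

/-- the loops attached to a walk -/
noncomputable def Bw (n x θ : ℝ) (D : Finset V) (b : List V) : ℂ :=
  ∑ L ∈ CLs (b.headD (0, 0)) (D \ b.tail.toFinset),
    (x : ℂ) ^ (b.length - 2 + (L.length + 1)) * ph θ (W b) *
      (Zp n x (D \ (L ++ b).toFinset) : ℂ)

theorem step_w {n x θ : ℝ} (hx : 2 * x * Real.cos θ = 1) {D : Finset V} {b : List V}
    (hb : b ∈ FF D) :
    ∑ z' ∈ (nbrs (b.headD (0, 0))).erase (b.tail.headD (0, 0)), Fw n x θ D (z' :: b) =
      Cw n x θ D b := by
  obtain ⟨z, y, t, rfl, hg, hz, hzt⟩ := FF_struct hb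
  have hc := hg.chain
  rw [List.isChain_cons_cons] at hc
  simp only [List.headD_cons, List.tail_cons]
  have h1 : ∀ z' : V, Fw n x θ D (z' :: z :: y :: t) =
      ((x : ℂ) ^ ((z :: y :: t).length - 2 + 1) * (Zp n x (D \ (z :: y :: t).toFinset) : ℂ)) *
        ph θ (W (z' :: z :: y :: t)) := by
    intro z'
    unfold Fw
    simp only [List.tail_cons, List.length_cons]
    have e : t.length + 1 + 1 + 1 - 2 = t.length + 1 + 1 - 2 + 1 := by omega
    rw [e]
    ring
  simp_rw [h1]
  rw [← Finset.mul_sum, sum_turn θ hc.1]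
  unfold Cw
  rw [pow_succ]
  have hx' : 2 * (x : ℂ) * (Real.cos θ : ℂ) = 1 := by
    rw [← Complex.ofReal_ofNat, ← Complex.ofReal_mul, ← Complex.ofReal_mul, hx,
      Complex.ofReal_one]
  linear_combination ((x : ℂ) ^ ((z :: y :: t).length - 2) *
    (Zp n x (D \ (z :: y :: t).toFinset) : ℂ) * ph θ (W (z :: y :: t))) * hx'

theorem free_w (n x θ : ℝ) {D : Finset V} {b : List V} (hb : b ∈ FF D) :
    Fw n x θ D b = Cw n x θ D b + (n / 2 : ℂ) * Bw n x θ D b := by
  obtain ⟨z, y, t, rfl, hg, hz, hzt⟩ := FF_struct hb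
  have hzA : z ∈ D \ (y :: t).toFinset := by
    rw [Finset.mem_sdiff, List.mem_toFinset]
    exact ⟨hz, hzt⟩
  have e1 : (D \ (y :: t).toFinset).erase z = D \ (z :: y :: t).toFinset := by
    ext v
    simp only [Finset.mem_erase, Finset.mem_sdiff, List.mem_toFinset, List.mem_cons]
    tauto
  have e2 : ∀ L : List V, (D \ (y :: t).toFinset) \ (z :: L).toFinset =
      D \ (L ++ z :: y :: t).toFinset := by
    intro L
    ext v
    simp only [Finset.mem_sdiff, List.mem_toFinset, List.mem_cons, List.mem_append]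
    tauto
  unfold Fw Cw Bw
  simp only [List.headD_cons, List.tail_cons]
  rw [Zp_expand n x hzA, e1]
  push_cast
  rw [mul_add, Finset.mul_sum, Finset.mul_sum, Finset.mul_sum]
  congr 1
  refine Finset.sum_congr rfl fun L _ => ?_
  rw [e2, pow_add]
  ring

theorem trap_w (n x θ : ℝ) {D : Finset V} (hO : ∀ v ∈ D, ¬ Slit v) {b : List V}
    (hb : b ∈ FF D) :
    ∑ L ∈ CLs (b.headD (0, 0)) (D \ b.tail.toFinset),
      Fw n x θ D (b.headD (0, 0) :: (L ++ b)) = (Real.cos (4 * θ) : ℂ) * Bw n x θ D b := by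
  obtain ⟨z, y, t, rfl, hg, hz, hzt⟩ := FF_struct hb
  simp only [List.headD_cons, List.tail_cons]
  have h2 : ∑ L ∈ CLs z (D \ (y :: t).toFinset), Fw n x θ D (z :: (L ++ z :: y :: t)) =
      ∑ L ∈ CLs z (D \ (y :: t).toFinset), Fw n x θ D (z :: (L.reverse ++ z :: y :: t)) := by
    refine Finset.sum_nbij' List.reverse List.reverse ?_ ?_ ?_ ?_ ?_
    · intro L hL; exact rev_CLs hL
    · intro L hL; exact rev_CLs hL
    · intro L _; exact List.reverse_reverse L
    · intro L _; exact List.reverse_reverse L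
    · intro L _; rw [List.reverse_reverse]
  have h3 : ∑ L ∈ CLs z (D \ (y :: t).toFinset), (Fw n x θ D (z :: (L ++ z :: y :: t)) +
      Fw n x θ D (z :: (L.reverse ++ z :: y :: t))) =
      2 * ((Real.cos (4 * θ) : ℂ) * Bw n x θ D (z :: y :: t)) := by
    unfold Bw
    simp only [List.headD_cons, List.tail_cons]
    rw [Finset.mul_sum, Finset.mul_sum]
    refine Finset.sum_congr rfl fun L hL => ?_
    obtain ⟨s, hs1, hs2, hs3⟩ := W_pair hO hb hL
    have e1 : (D \ (L.reverse ++ z :: y :: t).toFinset) = D \ (L ++ z :: y :: t).toFinset := by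
      ext v
      simp only [Finset.mem_sdiff, List.mem_toFinset, List.mem_append, List.mem_reverse]
    have e2 : (z :: (L ++ z :: y :: t)).length - 2 = (z :: y :: t).length - 2 + (L.length + 1) := by
      simp only [List.length_cons, List.length_append]
      omega
    have e3 : (z :: (L.reverse ++ z :: y :: t)).length - 2 =
        (z :: y :: t).length - 2 + (L.length + 1) := by
      simp only [List.length_cons, List.length_append, List.length_reverse]
      omega
    have e4 : ph θ (4 * s) + ph θ (-(4 * s)) = 2 * (Real.cos (4 * θ) : ℂ) := by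
      rw [ph_pm]
      rcases hs3 with h | h
      · rw [h]; push_cast; simp
      · rw [h]
        have : (((4 * -1 : ℤ) : ℝ) * θ) = -(4 * θ) := by push_cast; ring
        rw [this, Real.cos_neg]
    unfold Fw
    rw [e2, e3]
    simp only [List.tail_cons]
    rw [e1, hs1, hs2, ph_add, ph_add]
    linear_combination ((x : ℂ) ^ ((z :: y :: t).length - 2 + (L.length + 1)) *
      ph θ (W (z :: y :: t)) * (Zp n x (D \ (L ++ z :: y :: t).toFinset) : ℂ)) * e4
  rw [Finset.sum_add_distrib, ← h2, ← two_mul] at h3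
  exact mul_left_cancel₀ two_ne_zero h3

/-- **the identity**: the weighted exits of a finite domain of the slit plane -/
theorem exit_identity {x θ : ℝ} (hx : 2 * x * Real.cos θ = 1) {D : Finset V}
    (hO : ∀ v ∈ D, ¬ Slit v) :
    ∑ l ∈ EE D, Fw (-2 * Real.cos (4 * θ)) x θ D l =
      (Zp (-2 * Real.cos (4 * θ)) x D : ℂ) := by
  obtain ⟨n, hn⟩ : ∃ n, n = -2 * Real.cos (4 * θ) := ⟨_, rfl⟩
  rw [← hn]
  have h1 := sum_step D (Fw n x θ D)
  rw [sum_split, sum_TT hO] at h1
  have h2 : ∑ l ∈ FF D, Fw n x θ D l = ∑ l ∈ FF D, (Cw n x θ D l + (n / 2 : ℂ) * Bw n x θ D l) :=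
    Finset.sum_congr rfl fun b hb => free_w n x θ hb
  have h3 : ∑ b ∈ FF D, ∑ L ∈ CLs (b.headD (0, 0)) (D \ b.tail.toFinset),
      Fw n x θ D (b.headD (0, 0) :: (L ++ b)) =
      ∑ b ∈ FF D, (Real.cos (4 * θ) : ℂ) * Bw n x θ D b :=
    Finset.sum_congr rfl fun b hb => trap_w n x θ hO hb
  have h4 : ∑ l ∈ FF D, ∑ z' ∈ (nbrs (l.headD (0, 0))).erase (l.tail.headD (0, 0)),
      Fw n x θ D (z' :: l) = ∑ l ∈ FF D, Cw n x θ D l :=
    Finset.sum_congr rfl fun b hb => step_w hx hb
  rw [h2, h3, h4, Finset.sum_add_distrib, ← Finset.mul_sum, ← Finset.mul_sum] at h1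
  have h5 : Fw n x θ D [(1, 0), (0, 0)] = (Zp n x D : ℂ) := by
    unfold Fw
    have e0 : W [(1, 0), (0, 0)] = 0 := rfl
    have e1 : D \ [((1, 0) : V), (0, 0)].tail.toFinset = D := by
      ext v
      simp only [List.tail_cons, Finset.mem_sdiff, List.mem_toFinset, List.mem_singleton]
      constructor
      · exact fun h => h.1
      · intro h
        refine ⟨h, ?_⟩
        rintro rfl
        exact hO _ h ⟨rfl, le_refl _⟩
    rw [e0, e1, ph_zero]
    simp
  rw [h5] at h1
  have h6 : (n : ℂ) = -2 * (Real.cos (4 * θ) : ℂ) := by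
    rw [hn]; push_cast; ring
  rw [h6] at h1
  linear_combination h1

end Pool.Agent.V7H29.OL
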