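import Pool.Agent.V7H29.OL.Mas

set_option autoImplicit false

/-! Inequalities for the exits of the truncated wedges. -/

namespace Pool.Agent.V7H29.OL

open Finset H978R2.Hex H978R3.Wedge Real

/-- range of the angle -/
structure Ang (n x θ : ℝ) : Prop where
  lo : π / 8 ≤ θ
  hi : θ ≤ 3 * π / 8
  hx : 2 * x * Real.cos θ = 1
  hn : n = -2 * Real.cos (4 * θ)

theorem Ang.cos_pos {n x θ : ℝ} (h : Ang n x θ) : 0 < Real.cos θ := by
  have := Real.pi_pos
  have h1 := h.lo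
  have h2 := h.hi
  exact Real.cos_pos_of_mem_Ioo ⟨by linarith, by linarith⟩

theorem Ang.x_pos {n x θ : ℝ} (h : Ang n x θ) : 0 < x := by
  have h1 := h.cos_pos
  have h2 := h.hx
  by_contra hc
  rw [not_lt] at hc
  nlinarith

theorem Ang.n_nonneg {n x θ : ℝ} (h : Ang n x θ) : 0 ≤ n := by
  have := Real.pi_pos
  have h1 := h.lo
  have h2 := h.hi
  have h3 : Real.cos (4 * θ) ≤ 0 :=
    Real.cos_nonpos_of_pi_div_two_le_of_le (by linarith) (by linarith)
  rw [h.hn]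
  linarith

theorem Ang.n_le {n x θ : ℝ} (h : Ang n x θ) : n ≤ 2 := by
  have := Real.neg_one_le_cos (4 * θ)
  rw [h.hn]
  linarith

theorem Ang.rr_pos {n x θ : ℝ} (h : Ang n x θ) (j : ℕ) (hj1 : 1 ≤ j) (hj5 : j ≤ 6) :
    0 < rr j x θ := by
  have hpi := Real.pi_pos
  have h1 := h.lo
  have h2 := h.hi
  have hj1' : (1 : ℝ) ≤ j := by exact_mod_cast hj1
  have hj5' : (j : ℝ) ≤ 6 := by exact_mod_cast hj5
  unfold rr
  split_ifs with hj
  · have hj2 : (j : ℝ) ≤ 2 := by exact_mod_cast hj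
    apply mul_pos h.x_pos
    apply Real.cos_pos_of_mem_Ioo
    constructor <;> nlinarith
  · have hj3 : (3 : ℝ) ≤ j := by exact_mod_cast (by omega : 3 ≤ j)
    apply Real.cos_pos_of_mem_Ioo
    constructor <;> nlinarith

/-- large opening -/
theorem three_pi {n x θ : ℝ} (h : Ang n x θ) (j : ℕ) (hj5 : j ≤ 5) : (j + 3) * θ ≤ 3 * π := by
  have hpi := Real.pi_pos
  have h1 := h.lo
  have h2 := h.hi
  have hj5' : (j : ℝ) ≤ 5 := by exact_mod_cast hj5
  nlinarith

theorem caseA {n x θ : ℝ} (h : Ang n x θ) (j : ℕ) (hj1 : 1 ≤ j) (hj5 : j ≤ 6)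
    (hθ : π ≤ (j + 3) * θ) (hθ2 : (j + 3) * θ ≤ 3 * π) {D : Finset V} (hD : ∀ v ∈ D, Wj j v) (h10 : ((1, 0) : V) ∈ D) :
    rr j x θ * Zp n x D + |Real.cos ((j + 3) * θ / 2)| * ∑ l ∈ EN j D, wt n x D l ≤
      ∑ l ∈ EF j D, wt n x D l := by
  have hpi := Real.pi_pos
  have hc : Real.cos ((j + 3) * θ / 2) ≤ 0 := by
    apply Real.cos_nonpos_of_pi_div_two_le_of_le
    · linarith
    · linarith
  have hid := wedge_id h.hx j hj1 (by omega) hD h10 n h.hn
  rw [abs_of_nonpos hc]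
  have h3 : ∑ l ∈ EF j D, Real.cos (((W l : ℝ) - ((j : ℝ) - 5) / 2) * θ) * wt n x D l ≤
      ∑ l ∈ EF j D, wt n x D l := by
    apply Finset.sum_le_sum
    intro l _
    have h4 := Real.cos_le_one (((W l : ℝ) - ((j : ℝ) - 5) / 2) * θ)
    have h5 := wt_nonneg h.n_nonneg h.x_pos.le D l
    nlinarith
  linarith

theorem Dn_Wj (j : ℕ) (N : ℤ) : ∀ v ∈ Dn j N, Wj j v := fun v hv => ((mem_Dn j N v).1 hv).1

theorem base_Dn (j : ℕ) (N : ℤ) (hN : 1 ≤ N) : ((1, 0) : V) ∈ Dn j N := by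
  rw [mem_Dn]
  unfold Wj Hx
  simp only
  omega

/-- small opening -/
theorem caseB {n x θ : ℝ} (h : Ang n x θ) (j : ℕ) (hj1 : 1 ≤ j) (hj5 : j ≤ 5)
    (hθ : (j + 3) * θ ≤ π) (N : ℤ) (hN : 1 ≤ N) :
    0 < Real.cos ((j + 1) * θ / 2) ∧ 0 ≤ Real.cos ((j + 3) * θ / 2) ∧
    Real.cos ((j + 1) * θ / 2) * ∑ l ∈ EF j (Dn j N), wt n x (Dn j N) l +
      Real.cos ((j + 3) * θ / 2) * ∑ l ∈ EN j (Dn j N), wt n x (Dn j N) l ≤
      rr j x θ * Zp n x (Dn j N) := by
  have hpi := Real.pi_pos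
  have h1 := h.lo
  have h2 := h.hi
  have hj1' : (1 : ℝ) ≤ j := by exact_mod_cast hj1
  have hj5' : (j : ℝ) ≤ 5 := by exact_mod_cast hj5
  refine ⟨?_, ?_, ?_⟩
  · apply Real.cos_pos_of_mem_Ioo
    constructor <;> nlinarith
  · apply Real.cos_nonneg_of_neg_pi_div_two_le_of_le
    · nlinarith
    · linarith
  have hid := wedge_id h.hx j hj1 (by omega) (Dn_Wj j N) (base_Dn j N hN) n h.hn
  have h3 : Real.cos ((j + 1) * θ / 2) * ∑ l ∈ EF j (Dn j N), wt n x (Dn j N) l ≤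
      ∑ l ∈ EF j (Dn j N), Real.cos (((W l : ℝ) - ((j : ℝ) - 5) / 2) * θ) * wt n x (Dn j N) l := by
    rw [Finset.mul_sum]
    apply Finset.sum_le_sum
    intro l hl
    apply mul_le_mul_of_nonneg_right _ (wt_nonneg h.n_nonneg h.x_pos.le (Dn j N) l)
    unfold EF at hl
    rw [Finset.mem_filter] at hl
    obtain ⟨h4, h5⟩ := (EE_P j hj1 (by omega) N hN hl.1).1 hl.2
    have h4' : (-3 : ℝ) ≤ W l := by exact_mod_cast h4
    have h5' : (W l : ℝ) ≤ j - 2 := by exact_mod_cast h5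
    rw [← Real.cos_abs (((W l : ℝ) - ((j : ℝ) - 5) / 2) * θ)]
    apply Real.cos_le_cos_of_nonneg_of_le_pi (abs_nonneg _)
    · nlinarith
    · rw [abs_le]
      constructor <;> nlinarith
  linarith

/-- the vertices where the far exits can be -/
noncomputable def Bd (N : ℤ) : Finset V :=
  ((Finset.Icc (-3 * N - 3) (3 * N + 3)).image (fun a => ((a, N + 1) : V))) ∪
  ((Finset.Icc (-3 * N - 3) (3 * N + 3)).image (fun a => ((a, -N - 1) : V))) ∪
  ((Finset.Icc (-N) N).image (fun b => ((2 * N + 2 - b, b) : V))) ∪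
  ((Finset.Icc (-N) N).image (fun b => ((-2 * N - 1 - b, b) : V))) ∪
  ((Finset.Icc (-N) N).image (fun b => ((2 * N + 1 + b, b) : V))) ∪
  ((Finset.Icc (-N) N).image (fun b => ((-2 * N + b, b) : V)))

theorem card_Bd (N : ℤ) (hN : 1 ≤ N) : ((Bd N).card : ℤ) ≤ 38 * N := by
  have c1 : ((Finset.Icc (-3 * N - 3) (3 * N + 3)).card : ℤ) = 6 * N + 7 := by
    rw [Int.card_Icc, Int.toNat_of_nonneg (by omega)]
    ring
  have c2 : ((Finset.Icc (-N) N).card : ℤ) = 2 * N + 1 := by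
    rw [Int.card_Icc, Int.toNat_of_nonneg (by omega)]
    ring
  unfold Bd
  have u1 := Finset.card_image_le (s := Finset.Icc (-3 * N - 3) (3 * N + 3))
    (f := fun a => ((a, N + 1) : V))
  have u2 := Finset.card_image_le (s := Finset.Icc (-3 * N - 3) (3 * N + 3))
    (f := fun a => ((a, -N - 1) : V))
  have u3 := Finset.card_image_le (s := Finset.Icc (-N) N)
    (f := fun b => ((2 * N + 2 - b, b) : V))
  have u4 := Finset.card_image_le (s := Finset.Icc (-N) N)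
    (f := fun b => ((-2 * N - 1 - b, b) : V))
  have u5 := Finset.card_image_le (s := Finset.Icc (-N) N)
    (f := fun b => ((2 * N + 1 + b, b) : V))
  have u6 := Finset.card_image_le (s := Finset.Icc (-N) N)
    (f := fun b => ((-2 * N + b, b) : V))
  refine le_trans (Int.ofNat_le.2 (Finset.card_union_le _ _)) ?_
  push_cast
  refine le_trans (add_le_add (Int.ofNat_le.2 (Finset.card_union_le _ _)) le_rfl) ?_
  push_cast
  refine le_trans (add_le_add (add_le_add (Int.ofNat_le.2 (Finset.card_union_le _ _)) le_rfl)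
    le_rfl) ?_
  push_cast
  refine le_trans (add_le_add (add_le_add (add_le_add
    (Int.ofNat_le.2 (Finset.card_union_le _ _)) le_rfl) le_rfl) le_rfl) ?_
  push_cast
  refine le_trans (add_le_add (add_le_add (add_le_add (add_le_add
    (Int.ofNat_le.2 (Finset.card_union_le _ _)) le_rfl) le_rfl) le_rfl) le_rfl) ?_
  push_cast
  omega

end Pool.Agent.V7H29.OL
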