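import Pool.Agent.V7H29.OL.Poly
import Pool.Agent.H978R2.Hex.ValG

set_option autoImplicit false

/-! Loops of the honeycomb lattice as edge sets, and as closed lists. -/

namespace Pool.Agent.V7H29.OL

open Finset H978R2.Hex

theorem app_inv (σ : Equiv.Perm V) (x : V) : σ (σ⁻¹ x) = x := Equiv.apply_symm_apply σ x

theorem inv_app (σ : Equiv.Perm V) (x : V) : σ⁻¹ (σ x) = x := Equiv.symm_apply_apply σ x

/-- closed self-avoiding list -/
structure CL (l : List V) : Prop where
  len : 3 ≤ l.length
  nd : l.Nodup
  adj : ∀ v ∈ l, Adj v (l.formPerm v)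

/-- the edges of a closed list -/
def El (l : List V) : Finset (Sym2 V) := l.toFinset.image (fun v => s(v, l.formPerm v))

/-- the vertices of an edge set -/
def sp (e : Finset (Sym2 V)) : Finset V := e.biUnion Sym2.toFinset

theorem mem_sp {e : Finset (Sym2 V)} {v : V} : v ∈ sp e ↔ ∃ s ∈ e, v ∈ s := by
  unfold sp
  simp

theorem sp_El (l : List V) : sp (El l) = l.toFinset := by
  ext v
  rw [mem_sp]
  constructor
  · rintro ⟨s, hs, hv⟩
    unfold El at hs
    rw [Finset.mem_image] at hs
    obtain ⟨u, hu, rfl⟩ := hs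
    rw [Sym2.mem_iff] at hv
    rcases hv with rfl | rfl
    · exact hu
    · rw [List.mem_toFinset] at hu ⊢
      exact List.formPerm_apply_mem_of_mem hu
  · intro hv
    refine ⟨s(v, l.formPerm v), ?_, by simp⟩
    unfold El
    exact Finset.mem_image_of_mem _ hv

theorem two_step {l : List V} (h3 : 3 ≤ l.length) (hn : l.Nodup) {v : V} (hv : v ∈ l) :
    l.formPerm (l.formPerm v) ≠ v := by
  obtain ⟨i, hi, rfl⟩ := List.getElem_of_mem hv
  have h1 : (i + 1) % l.length < l.length := Nat.mod_lt _ (by omega)
  rw [List.formPerm_apply_getElem l hn i hi, List.formPerm_apply_getElem l hn _ h1]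
  intro h
  have h4 := (List.Nodup.getElem_inj_iff hn).1 h
  rcases Nat.lt_or_ge (i + 1) l.length with h5 | h5
  · rw [Nat.mod_eq_of_lt h5] at h4
    rcases Nat.lt_or_ge (i + 1 + 1) l.length with h6 | h6
    · rw [Nat.mod_eq_of_lt h6] at h4
      omega
    · have h7 : i + 1 + 1 = l.length := by omega
      rw [h7, Nat.mod_self] at h4
      omega
  · have h7 : i + 1 = l.length := by omega
    rw [h7, Nat.mod_self, Nat.mod_eq_of_lt (by omega)] at h4
    omega

theorem El_eq_sym {l : List V} (h3 : 3 ≤ l.length) (hn : l.Nodup) :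
    (El l).card = l.length := by
  unfold El
  rw [Finset.card_image_of_injOn, List.toFinset_card_of_nodup hn]
  intro v hv w hw h
  rw [Finset.mem_coe, List.mem_toFinset] at hv hw
  simp only [Sym2.eq_iff] at h
  rcases h with h | ⟨h1, h2⟩
  · exact h.1
  · exfalso
    apply two_step h3 hn hv
    rw [h2, ← h1]

theorem El_rot {l l' : List V} (hn : l.Nodup) (h : l ~r l') : El l = El l' := by
  unfold El
  rw [List.formPerm_eq_of_isRotated hn h, List.toFinset_eq_of_perm _ _ h.perm]

theorem inv_mem {l : List V} {v : V} (hv : v ∈ l) : (l.formPerm)⁻¹ v ∈ l := by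
  rw [← List.formPerm_mem_iff_mem]
  rw [app_inv]
  exact hv

theorem El_rev (l : List V) : El l.reverse = El l := by
  unfold El
  rw [List.toFinset_reverse, List.formPerm_reverse]
  ext s
  simp only [Finset.mem_image, List.mem_toFinset]
  constructor
  · rintro ⟨v, hv, rfl⟩
    refine ⟨(l.formPerm)⁻¹ v, inv_mem hv, ?_⟩
    rw [app_inv, Sym2.eq_swap]
  · rintro ⟨v, hv, rfl⟩
    refine ⟨l.formPerm v, List.formPerm_apply_mem_of_mem hv, ?_⟩
    rw [inv_app, Sym2.eq_swap]

theorem CL.rot {l l' : List V} (h : CL l) (hr : l ~r l') : CL l' := by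
  refine ⟨?_, ?_, ?_⟩
  · rw [← hr.perm.length_eq]
    exact h.len
  · exact hr.nodup_iff.1 h.nd
  · intro v hv
    rw [← List.formPerm_eq_of_isRotated h.nd hr]
    exact h.adj v (hr.perm.mem_iff.2 hv)

theorem CL.rev {l : List V} (h : CL l) : CL l.reverse := by
  refine ⟨by rw [List.length_reverse]; exact h.len, List.nodup_reverse.2 h.nd, ?_⟩
  intro v hv
  rw [List.mem_reverse] at hv
  rw [List.formPerm_reverse]
  have h1 := h.adj _ (inv_mem hv)
  rw [app_inv] at h1
  exact adj_symm' h1

/-- a closed list is determined by its edges up to rotation and reversal -/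
theorem El_inj {l l' : List V} (h : CL l) (h' : CL l') (he : El l = El l') :
    l ~r l' ∨ l ~r l'.reverse := by
  have hset : l.toFinset = l'.toFinset := by
    rw [← sp_El, ← sp_El, he]
  have hmem : ∀ v, v ∈ l ↔ v ∈ l' := by
    intro v
    rw [← List.mem_toFinset, ← List.mem_toFinset (l := l'), hset]
  have hor : ∀ v ∈ l, l.formPerm v = l'.formPerm v ∨ l'.formPerm (l.formPerm v) = v := by
    intro v hv
    have h1 : s(v, l.formPerm v) ∈ El l' := by
      rw [← he]
      unfold El
      exact Finset.mem_image_of_mem _ (List.mem_toFinset.2 hv)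
    unfold El at h1
    rw [Finset.mem_image] at h1
    obtain ⟨u, hu, hs⟩ := h1
    rw [Sym2.eq_iff] at hs
    rcases hs with ⟨h1, h2⟩ | ⟨h1, h2⟩
    · left
      rw [← h2, h1]
    · right
      rw [← h1, h2]
  by_cases hA : ∃ v ∈ l, l.formPerm v = l'.formPerm v
  · left
    obtain ⟨v0, hv0, he0⟩ := hA
    have hup : ∀ v, v ∈ l ∧ l.formPerm v = l'.formPerm v →
        l.formPerm v ∈ l ∧ l.formPerm (l.formPerm v) = l'.formPerm (l.formPerm v) := by
      rintro v ⟨hv, e⟩
      have hm := List.formPerm_apply_mem_of_mem hv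
      refine ⟨hm, ?_⟩
      rcases hor _ hm with h1 | h1
      · exact h1
      · exfalso
        have h2 : l'.formPerm (l.formPerm (l.formPerm v)) = l'.formPerm v := by
          rw [h1, e]
        exact two_step h.len h.nd hv (l'.formPerm.injective h2)
    have hdn : ∀ v, v ∈ l ∧ l.formPerm v = l'.formPerm v →
        (l.formPerm)⁻¹ v ∈ l ∧ l.formPerm ((l.formPerm)⁻¹ v) = l'.formPerm ((l.formPerm)⁻¹ v) := by
      rintro v ⟨hv, e⟩
      have hm := inv_mem hv
      refine ⟨hm, ?_⟩
      rcases hor _ hm with h1 | h1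
      · exact h1
      · exfalso
        rw [app_inv] at h1
        apply two_step h.len h.nd hm
        rw [app_inv, e, h1]
    have hall : ∀ k : ℤ, ((l.formPerm) ^ k) v0 ∈ l ∧
        l.formPerm (((l.formPerm) ^ k) v0) = l'.formPerm (((l.formPerm) ^ k) v0) := by
      intro k
      induction k using Int.induction_on with
      | zero => exact ⟨by simpa using hv0, by simpa using he0⟩
      | succ i ih =>
        have h1 := hup _ ih
        have e1 : ((l.formPerm) ^ ((i : ℤ) + 1)) v0 = l.formPerm (((l.formPerm) ^ (i : ℤ)) v0) := by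
          rw [add_comm, zpow_add, zpow_one, Equiv.Perm.mul_apply]
        rw [e1]
        exact h1
      | pred i ih =>
        have h1 := hdn _ ih
        have e1 : ((l.formPerm) ^ (-(i : ℤ) - 1)) v0 =
            (l.formPerm)⁻¹ (((l.formPerm) ^ (-(i : ℤ))) v0) := by
          rw [sub_eq_add_neg, add_comm, zpow_add, zpow_neg_one, Equiv.Perm.mul_apply]
        rw [e1]
        exact h1
    have hcyc := List.isCycle_formPerm h.nd (by have := h.len; omega)
    have hne : ∀ v ∈ l, l.formPerm v ≠ v := fun v hv => (adj_ne' (h.adj v hv)).symm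
    have heq : l.formPerm = l'.formPerm := by
      ext1 v
      by_cases hv : v ∈ l
      · obtain ⟨k, hk⟩ := hcyc.exists_zpow_eq (hne v0 hv0) (hne v hv)
        rw [← hk]
        exact (hall k).2
      · rw [List.formPerm_apply_of_notMem hv, List.formPerm_apply_of_notMem
          (fun hc => hv ((hmem v).2 hc))]
    rcases (List.formPerm_eq_formPerm_iff h.nd h'.nd).1 heq with h1 | h1
    · exact h1
    · have := h.len
      omega
  · right
    have heq : l.formPerm = l'.reverse.formPerm := by
      ext1 v
      rw [List.formPerm_reverse]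
      by_cases hv : v ∈ l
      · rcases hor v hv with h1 | h1
        · exact absurd ⟨v, hv, h1⟩ hA
        · rw [Equiv.Perm.eq_inv_iff_eq]
          exact h1
      · rw [List.formPerm_apply_of_notMem hv, Equiv.Perm.eq_inv_iff_eq,
          List.formPerm_apply_of_notMem (fun hc => hv ((hmem v).2 hc))]
    rcases (List.formPerm_eq_formPerm_iff h.nd (List.nodup_reverse.2 h'.nd)).1 heq with h1 | h1
    · exact h1
    · have := h.len
      omega

/-- rotated lists with the same head are equal -/
theorem rot_head {z : V} {L L' : List V} (hn : (z :: L).Nodup) (h : (z :: L) ~r (z :: L')) :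
    L = L' := by
  obtain ⟨k, hk⟩ := h
  have hlen : 0 < (z :: L).length := by simp
  have h1 : ((z :: L).rotate k)[0]'(by rw [hk]; simp) = z := by
    simp only [hk, List.getElem_cons_zero]
  rw [List.getElem_rotate] at h1
  have h2 : (z :: L)[(0 + k) % (z :: L).length]'(Nat.mod_lt _ hlen) = (z :: L)[0]'hlen := by
    rw [h1]
    rfl
  have h3 := (List.Nodup.getElem_inj_iff hn).1 h2
  rw [zero_add] at h3
  have h4 := (hn.rotate_eq_self_iff (n := k)).2 (Or.inl h3)
  rw [h4] at hk
  exact (List.cons.inj hk).2

theorem rev_rot (z : V) (L : List V) : (z :: L).reverse ~r (z :: L.reverse) := by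
  rw [List.reverse_cons]
  exact List.isRotated_append (l := L.reverse) (l' := [z])

/-- the edge sets of loops -/
def IsLp (e : Finset (Sym2 V)) : Prop := ∃ l, CL l ∧ El l = e

theorem IsLp.exists_at {e : Finset (Sym2 V)} (h : IsLp e) {z : V} (hz : z ∈ sp e) :
    ∃ L, CL (z :: L) ∧ El (z :: L) = e := by
  obtain ⟨l, hl, rfl⟩ := h
  rw [sp_El, List.mem_toFinset] at hz
  obtain ⟨s, t, rfl⟩ := List.append_of_mem hz
  have hr : (s ++ z :: t) ~r (z :: (t ++ s)) := by
    have := List.isRotated_append (l := s) (l' := z :: t)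
    simpa using this
  exact ⟨t ++ s, hl.rot hr, (El_rot hl.nd hr).symm⟩

/-- the fibre of a loop -/
theorem fibre {z : V} {L L' : List V} (h : CL (z :: L)) (h' : CL (z :: L'))
    (he : El (z :: L') = El (z :: L)) : L' = L ∨ L' = L.reverse := by
  rcases El_inj h' h he with h1 | h1
  · exact Or.inl (rot_head h'.nd h1)
  · exact Or.inr (rot_head h'.nd (h1.trans (rev_rot z L)))

theorem ne_reverse {z : V} {L : List V} (h : CL (z :: L)) : L ≠ L.reverse := by
  intro he
  have h3 := h.len
  have hn := (List.nodup_cons.1 h.nd).2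
  match L, h3 with
  | a :: b :: t, _ =>
    rw [List.reverse_cons] at he
    have h4 : (a :: b :: t).getLast (by simp) = a := by
      simp only [he, List.getLast_append_singleton]
    rw [List.getLast_cons (by simp)] at h4
    have h5 := List.getLast_mem (l := b :: t) (by simp)
    rw [h4] at h5
    exact (List.nodup_cons.1 hn).1 h5

theorem CL.rev' {z : V} {L : List V} (h : CL (z :: L)) : CL (z :: L.reverse) :=
  h.rev.rot (rev_rot z L)

theorem El_rev' {z : V} {L : List V} (h : CL (z :: L)) : El (z :: L.reverse) = El (z :: L) := by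
  rw [← El_rot (List.nodup_reverse.2 h.nd) (rev_rot z L), El_rev]

end Pool.Agent.V7H29.OL
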