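import Pool.Agent.V7H29.OL.Wdg

set_option autoImplicit false

/-! Masses of the exits of the truncated wedges. -/

namespace Pool.Agent.V7H29.OL

open Finset H978R2.Hex H978R3.Wedge

/-- weight of an exit -/
noncomputable def wt (n x : ℝ) (D : Finset V) (l : List V) : ℝ :=
  x ^ (l.length - 2) * Zp n x (D \ l.tail.toFinset)

theorem wt_nonneg {n x : ℝ} (hn : 0 ≤ n) (hx : 0 ≤ x) (D : Finset V) (l : List V) :
    0 ≤ wt n x D l := by
  unfold wt
  have := Zp_ge hn hx (D \ l.tail.toFinset)
  positivity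

/-- the real form of the identity -/
theorem rot_id {x θ : ℝ} (hx : 2 * x * Real.cos θ = 1) {D : Finset V}
    (hO : ∀ v ∈ D, ¬ Slit v) (φ : ℝ) :
    ∑ l ∈ EE D, Real.cos ((W l : ℝ) * θ + φ) * wt (-2 * Real.cos (4 * θ)) x D l =
      Real.cos φ * Zp (-2 * Real.cos (4 * θ)) x D := by
  have h := exit_identity hx hO
  generalize -2 * Real.cos (4 * θ) = n at *
  have h1 : (Complex.exp ((φ : ℂ) * Complex.I) * ∑ l ∈ EE D, Fw n x θ D l).re =
      (Complex.exp ((φ : ℂ) * Complex.I) * (Zp n x D : ℂ)).re := by rw [h]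
  rw [Finset.mul_sum, Complex.re_sum, Complex.re_mul_ofReal, Complex.exp_ofReal_mul_I_re] at h1
  rw [← h1]
  refine Finset.sum_congr rfl fun l _ => ?_
  have e : Complex.exp ((φ : ℂ) * Complex.I) * Fw n x θ D l =
      ((wt n x D l : ℝ) : ℂ) * Complex.exp ((((W l : ℝ) * θ + φ : ℝ) : ℂ) * Complex.I) := by
    unfold Fw wt ph
    have e2 : ((((W l : ℝ) * θ + φ : ℝ) : ℂ) * Complex.I) =
        ((W l : ℂ) * θ * Complex.I) + (φ : ℂ) * Complex.I := by
      push_cast; ring
    rw [e2, Complex.exp_add]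
    push_cast
    ring
  rw [e, Complex.re_ofReal_mul, Complex.exp_ofReal_mul_I_re]
  ring

/-- the immediate exit -/
theorem imm_exit (j : ℕ) (hj : j ≤ 2) (N : ℤ) (hN : 1 ≤ N) :
    (EE (Dn j N)).filter (fun l => l.headD (0, 0) = (2, 0)) = {[(2, 0), (1, 0), (0, 0)]} := by
  have h10 : ((1, 0) : V) ∈ Dn j N := by
    rw [mem_Dn]
    unfold Wj Hx
    simp only
    omega
  have h20 : ((2, 0) : V) ∉ Dn j N := by
    rw [mem_Dn]
    unfold Wj
    simp only
    omega
  ext l
  rw [Finset.mem_filter, Finset.mem_singleton]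
  constructor
  · rintro ⟨h1, h2⟩
    unfold EE at h1
    rw [Finset.mem_filter] at h1
    obtain ⟨z, t, rfl, hg⟩ := good_of_All h1.1
    have hv := (val_iff z t).2 hg
    simp only [List.headD_cons] at h2
    subst h2
    match t, hv, hg with
    | [y], hv, _ =>
      obtain ⟨h3, -⟩ := hv
      exact absurd (congrArg Prod.fst h3) (by norm_num)
    | y :: x :: t, hv, hg =>
      obtain ⟨h3, h4, h5, h6, h7⟩ := hv
      have h5' := (mem_Dn j N y).1 h5
      rw [adj_iff] at h3
      obtain ⟨y1, y2⟩ := y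
      unfold Wj Hx at h5'
      simp only at h3 h5'
      have e1 : y1 = 1 := by omega
      have e2 : y2 = 0 := by omega
      subst e1 e2
      obtain ⟨s, hs⟩ := hg.suff
      match s, hs with
      | [], hs =>
        simp at hs
      | [a], hs =>
        simp only [List.singleton_append, List.cons.injEq] at hs
        rw [← hs.2.2.1, ← hs.2.2.2]
      | a :: b :: s, hs =>
        exfalso
        simp only [List.cons_append, List.cons.injEq] at hs
        apply h6
        rw [← hs.2.2]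
        simp
  · rintro rfl
    refine ⟨?_, rfl⟩
    unfold EE
    rw [Finset.mem_filter, mem_All]
    refine ⟨⟨?_, ?_, h10, ?_, rfl, rfl⟩, h20⟩
    · left; rfl
    · intro h
      exact absurd (congrArg Prod.fst h) (by norm_num)
    · simp

theorem not_Wj_two {j : ℕ} (hj : j ≤ 2) : ¬ Wj j ((2, 0) : V) := by
  unfold Wj
  simp only
  omega

theorem imm_exit' {j : ℕ} (hj : j ≤ 2) {D : Finset V} (hD : ∀ v ∈ D, Wj j v)
    (h10 : ((1, 0) : V) ∈ D) :
    (EE D).filter (fun l => l.headD (0, 0) = (2, 0)) = {[(2, 0), (1, 0), (0, 0)]} := by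
  ext l
  rw [Finset.mem_filter, Finset.mem_singleton]
  constructor
  · rintro ⟨h1, h2⟩
    obtain ⟨N, hN, h3⟩ := EE_big hD h1 (by rw [h2]; exact not_Wj_two hj)
    have h4 : l ∈ (EE (Dn j N)).filter (fun l => l.headD (0, 0) = (2, 0)) :=
      Finset.mem_filter.2 ⟨h3, h2⟩
    rw [imm_exit j hj N hN, Finset.mem_singleton] at h4
    exact h4
  · rintro rfl
    refine ⟨?_, rfl⟩
    unfold EE
    rw [Finset.mem_filter, mem_All]
    refine ⟨⟨?_, ?_, h10, ?_, rfl, rfl⟩, fun h => not_Wj_two hj (hD _ h)⟩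
    · left; rfl
    · intro h
      exact absurd (congrArg Prod.fst h) (by norm_num)
    · simp

/-- no loop passes through the apex vertex -/
theorem apex_free (n x : ℝ) {j : ℕ} (hj : j ≤ 2) {D : Finset V} (hD : ∀ v ∈ D, Wj j v)
    (h10 : ((1, 0) : V) ∈ D) :
    Zp n x (D \ [(1, 0), (0, 0)].toFinset) = Zp n x D := by
  have h00 : ((0, 0) : V) ∉ D := by
    intro h
    have := hD _ h
    unfold Wj at this
    simp at this
  have e : D \ [((1, 0) : V), (0, 0)].toFinset = D.erase (1, 0) := by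
    ext v
    simp only [Finset.mem_sdiff, List.mem_toFinset, List.mem_cons, List.not_mem_nil, or_false,
      Finset.mem_erase]
    constructor
    · rintro ⟨h1, h2⟩
      exact ⟨fun h => h2 (Or.inl h), h1⟩
    · rintro ⟨h1, h2⟩
      refine ⟨h2, ?_⟩
      rintro (h | h)
      · exact h1 h
      · rw [h] at h2
        exact h00 h2
  rw [e, Zp_expand n x h10]
  have hC : CLs (1, 0) D = ∅ := by
    rw [Finset.eq_empty_iff_forall_notMem]
    intro L hL
    rw [mem_CLs, cl_iff] at hL
    obtain ⟨⟨h1, h2, h3⟩, h4⟩ := hL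
    have key : ∀ u ∈ L, Adj (1, 0) u → u = (1, -1) := by
      intro u hu ha
      have h5 := hD u (h4 u (List.mem_cons_of_mem _ hu))
      rw [adj_iff] at ha
      obtain ⟨u1, u2⟩ := u
      unfold Wj at h5
      simp only at ha h5
      ext <;> simp only <;> omega
    match L, h1 with
    | e :: L', h1 =>
      rcases List.eq_nil_or_concat L' with h5 | ⟨M, a, h5⟩
      · rw [h5] at h1
        simp at h1
      · rw [List.concat_eq_append] at h5
        subst h5
        have a1 : Adj (1, 0) e := by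
          have := h3
          rw [List.cons_append, List.cons_append, List.isChain_cons_cons] at this
          exact this.1
        have a2 : Adj a (1, 0) := by
          have h6 : ((1, 0) :: e :: (M ++ [a])) ++ [((1, 0) : V)] =
              ((1, 0) :: e :: M) ++ [a, (1, 0)] := by simp
          rw [h6] at h3
          have := h3.right_of_append
          rw [List.isChain_cons_cons] at this
          exact this.1
        have b1 := key e (by simp) a1
        have b2 := key a (by simp) (adj_symm' a2)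
        have h6 := (List.nodup_cons.1 (List.nodup_cons.1 h2).2).1
        apply h6
        rw [b1, ← b2]
        simp
  rw [hC]
  simp

theorem split3 {α : Type*} (S : Finset α) (p q : α → Prop) [DecidablePred p] [DecidablePred q]
    (f : α → ℝ) : ∑ l ∈ S, f l = ∑ l ∈ S.filter p, f l + ∑ l ∈ S.filter (fun l => ¬ p l ∧ ¬ q l), f l
      + ∑ l ∈ S.filter (fun l => ¬ p l ∧ q l), f l := by
  rw [← Finset.sum_filter_add_sum_filter_not S p,
    ← Finset.sum_filter_add_sum_filter_not (S.filter (fun l => ¬ p l)) q,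
    Finset.filter_filter, Finset.filter_filter]
  ring

/-- the far exits -/
noncomputable def EF (j : ℕ) (D : Finset V) : Finset (List V) :=
  (EE D).filter (fun l => Wj j (l.headD (0, 0)))

/-- the near exits -/
noncomputable def EN (j : ℕ) (D : Finset V) : Finset (List V) :=
  (EE D).filter (fun l => ¬ Wj j (l.headD (0, 0)) ∧ l.headD (0, 0) ≠ (2, 0))

/-- the right side of the wedge identity -/
noncomputable def rr (j : ℕ) (x θ : ℝ) : ℝ :=
  if j ≤ 2 then x * Real.cos ((3 - j) * θ / 2) else Real.cos ((5 - j) * θ / 2)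

theorem wedge_id {x θ : ℝ} (hx : 2 * x * Real.cos θ = 1) (j : ℕ) (hj1 : 1 ≤ j) (hj6 : j ≤ 6)
    {D : Finset V} (hD : ∀ v ∈ D, Wj j v) (h10 : ((1, 0) : V) ∈ D)
    (n : ℝ) (hn : n = -2 * Real.cos (4 * θ)) :
    ∑ l ∈ EF j D, Real.cos (((W l : ℝ) - ((j : ℝ) - 5) / 2) * θ) * wt n x D l +
      Real.cos ((j + 3) * θ / 2) * ∑ l ∈ EN j D, wt n x D l =
      rr j x θ * Zp n x D := by
  have hslit : ∀ v ∈ D, ¬ Slit v := by
    intro v hv
    obtain ⟨h1, -⟩ := hD v hv
    unfold Slit
    omega
  have h := rot_id hx hslit (-(((j : ℝ) - 5) / 2 * θ))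
  rw [← hn] at h
  have hN2 : ∑ l ∈ EN j D, Real.cos ((W l : ℝ) * θ + -(((j : ℝ) - 5) / 2 * θ)) *
      wt n x D l = Real.cos ((j + 3) * θ / 2) * ∑ l ∈ EN j D, wt n x D l := by
    rw [Finset.mul_sum]
    refine Finset.sum_congr rfl fun l hl => ?_
    unfold EN at hl
    rw [Finset.mem_filter] at hl
    congr 1
    obtain ⟨N, hN, hl'⟩ := EE_big hD hl.1 hl.2.1
    rcases (EE_P j hj1 hj6 N hN hl').2.1 hl.2.1 hl.2.2 with h1 | h1
    · rw [h1]
      have e : (((-4 : ℤ) : ℝ) * θ + -(((j : ℝ) - 5) / 2 * θ)) = -((j + 3) * θ / 2) := by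
        push_cast; ring
      rw [e, Real.cos_neg]
    · rw [h1]
      congr 1
      push_cast
      ring
  have hF : ∑ l ∈ EF j D, Real.cos ((W l : ℝ) * θ + -(((j : ℝ) - 5) / 2 * θ)) *
      wt n x D l =
      ∑ l ∈ EF j D, Real.cos (((W l : ℝ) - ((j : ℝ) - 5) / 2) * θ) * wt n x D l := by
    refine Finset.sum_congr rfl fun l _ => ?_
    congr 2
    ring
  have hsplit : ∀ f : List V → ℝ, ∑ l ∈ EE D, f l = ∑ l ∈ EF j D, f l + ∑ l ∈ EN j D, f l +
      ∑ l ∈ (EE D).filter (fun l => ¬ Wj j (l.headD (0, 0)) ∧ l.headD (0, 0) = (2, 0)),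
        f l := by
    intro f
    exact split3 (EE D) (fun l => Wj j (l.headD (0, 0)))
      (fun l => l.headD (0, 0) = (2, 0)) f
  rw [hsplit, hF, hN2] at h
  have hcn : Real.cos (-(((j : ℝ) - 5) / 2 * θ)) = Real.cos ((5 - j) * θ / 2) := by
    congr 1
    ring
  rw [hcn] at h
  by_cases hj : j ≤ 2
  · have e3 : (EE D).filter
        (fun l => ¬ Wj j (l.headD (0, 0)) ∧ l.headD (0, 0) = (2, 0)) =
        {[(2, 0), (1, 0), (0, 0)]} := by
      rw [← imm_exit' hj hD h10]
      refine Finset.filter_congr fun l _ => ?_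
      constructor
      · exact fun h => h.2
      · intro h
        refine ⟨?_, h⟩
        rw [h]
        exact not_Wj_two hj
    rw [e3, Finset.sum_singleton] at h
    have e4 : wt n x D [(2, 0), (1, 0), (0, 0)] = x * Zp n x D := by
      unfold wt
      simp only [List.tail_cons, List.length_cons, List.length_nil]
      rw [apex_free n x hj hD h10]
      norm_num
    have e5 : W [((2, 0) : V), (1, 0), (0, 0)] = 1 := by decide
    rw [e4, e5] at h
    unfold rr
    rw [if_pos hj]
    have e6 : Real.cos ((5 - j) * θ / 2) =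
        x * (Real.cos ((((1 : ℤ) : ℝ)) * θ + -(((j : ℝ) - 5) / 2 * θ)) +
          Real.cos ((3 - j) * θ / 2)) := by
      have e7 : (((1 : ℤ) : ℝ)) * θ + -(((j : ℝ) - 5) / 2 * θ) = (5 - j) * θ / 2 + θ := by
        push_cast; ring
      have e8 : (3 - (j : ℝ)) * θ / 2 = (5 - j) * θ / 2 - θ := by ring
      rw [e7, e8, Real.cos_add, Real.cos_sub]
      linear_combination (-Real.cos ((5 - j) * θ / 2)) * hx
    rw [e6] at h
    generalize ∑ l ∈ EF j D, Real.cos (((W l : ℝ) - ((j : ℝ) - 5) / 2) * θ) *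
      wt n x D l = A at h ⊢
    generalize ∑ l ∈ EN j D, wt n x D l = B at h ⊢
    generalize Zp n x D = C at h ⊢
    generalize Real.cos (((1 : ℤ) : ℝ) * θ + -(((j : ℝ) - 5) / 2 * θ)) = c1 at h ⊢
    generalize Real.cos ((3 - (j : ℝ)) * θ / 2) = c2 at h ⊢
    generalize Real.cos (((j : ℝ) + 3) * θ / 2) = c3 at h ⊢
    linear_combination h
  · have e3 : (EE D).filter
        (fun l => ¬ Wj j (l.headD (0, 0)) ∧ l.headD (0, 0) = (2, 0)) = ∅ := by
      rw [Finset.filter_eq_empty_iff]
      rintro l _ ⟨h1, h2⟩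
      apply h1
      rw [h2]
      unfold Wj
      simp only
      omega
    rw [e3, Finset.sum_empty, add_zero] at h
    unfold rr
    rw [if_neg hj]
    exact h

end Pool.Agent.V7H29.OL
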