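import Mathlib

set_option autoImplicit false

/-! Partition function of a gas of pairwise disjoint polymers and its expansion at one vertex. -/

namespace Pool.Agent.V7H29.OL

open Finset

variable {Λ V : Type*} [DecidableEq Λ] [DecidableEq V]

/-- sets of pairwise disjoint polymers inside `A` -/
noncomputable def Conf (Lp : Finset V → Finset Λ) (sp : Λ → Finset V) (A : Finset V) :
    Finset (Finset Λ) := by
  classical
  exact (Lp A).powerset.filter
    (fun L => ∀ e ∈ L, ∀ e' ∈ L, e ≠ e' → Disjoint (sp e) (sp e'))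

/-- the partition function -/
noncomputable def ZZ (Lp : Finset V → Finset Λ) (sp : Λ → Finset V) (w : Λ → ℝ) (A : Finset V) :
    ℝ := ∑ L ∈ Conf Lp sp A, ∏ e ∈ L, w e

theorem mem_Conf {Lp : Finset V → Finset Λ} {sp : Λ → Finset V} {A : Finset V} {L : Finset Λ} :
    L ∈ Conf Lp sp A ↔ L ⊆ Lp A ∧ ∀ e ∈ L, ∀ e' ∈ L, e ≠ e' → Disjoint (sp e) (sp e') := by
  unfold Conf
  rw [Finset.mem_filter, Finset.mem_powerset]

theorem ZZ_pos {Lp : Finset V → Finset Λ} {sp : Λ → Finset V} {w : Λ → ℝ}
    (hw : ∀ e, 0 ≤ w e) (A : Finset V) : 1 ≤ ZZ Lp sp w A := by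
  unfold ZZ
  have h0 : (∅ : Finset Λ) ∈ Conf Lp sp A := by
    rw [mem_Conf]
    exact ⟨Finset.empty_subset _, fun e he => absurd he (Finset.notMem_empty _)⟩
  have h1 := Finset.single_le_sum (f := fun L : Finset Λ => ∏ e ∈ L, w e)
    (fun L _ => Finset.prod_nonneg fun e _ => hw e) h0
  simpa using h1

/-- expansion at a vertex -/
theorem ZZ_expand {Lp : Finset V → Finset Λ} {sp : Λ → Finset V} {w : Λ → ℝ} (IsL : Λ → Prop)
    (hLp : ∀ A e, e ∈ Lp A ↔ IsL e ∧ sp e ⊆ A) {A : Finset V} {v : V} (hv : v ∈ A) :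
    ZZ Lp sp w A = ZZ Lp sp w (A.erase v) +
      ∑ e ∈ (Lp A).filter (fun e => v ∈ sp e), w e * ZZ Lp sp w (A \ sp e) := by
  classical
  have key : Conf Lp sp A = Conf Lp sp (A.erase v) ∪
      ((Lp A).filter (fun e => v ∈ sp e)).biUnion
        (fun e => (Conf Lp sp (A \ sp e)).image (insert e)) := by
    ext L
    rw [Finset.mem_union, Finset.mem_biUnion, mem_Conf, mem_Conf]
    constructor
    · rintro ⟨h1, h2⟩
      by_cases h : ∃ e ∈ L, v ∈ sp e
      · obtain ⟨e, he, hve⟩ := h
        right
        refine ⟨e, Finset.mem_filter.2 ⟨h1 he, hve⟩, ?_⟩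
        rw [Finset.mem_image]
        refine ⟨L.erase e, ?_, Finset.insert_erase he⟩
        rw [mem_Conf]
        refine ⟨?_, ?_⟩
        · intro e' he'
          rw [Finset.mem_erase] at he'
          have h3 := (hLp A e').1 (h1 he'.2)
          rw [hLp]
          refine ⟨h3.1, ?_⟩
          intro u hu
          rw [Finset.mem_sdiff]
          exact ⟨h3.2 hu, fun hu' => (Finset.disjoint_left.1 (h2 e' he'.2 e he he'.1)) hu hu'⟩
        · intro e1 h3 e2 h4 h5
          exact h2 e1 (Finset.mem_of_mem_erase h3) e2 (Finset.mem_of_mem_erase h4) h5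
      · left
        refine ⟨?_, h2⟩
        intro e he
        have h3 := (hLp A e).1 (h1 he)
        rw [hLp]
        refine ⟨h3.1, ?_⟩
        intro u hu
        rw [Finset.mem_erase]
        refine ⟨?_, h3.2 hu⟩
        rintro rfl
        exact h ⟨e, he, hu⟩
    · rintro (⟨h1, h2⟩ | ⟨e, he, h⟩)
      · refine ⟨?_, h2⟩
        intro e he
        have h3 := (hLp _ e).1 (h1 he)
        rw [hLp]
        exact ⟨h3.1, h3.2.trans (Finset.erase_subset _ _)⟩
      · rw [Finset.mem_filter] at he
        rw [Finset.mem_image] at h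
        obtain ⟨L', hL', rfl⟩ := h
        rw [mem_Conf] at hL'
        have hsub : ∀ e' ∈ L', IsL e' ∧ sp e' ⊆ A \ sp e := fun e' he' => (hLp _ e').1 (hL'.1 he')
        refine ⟨?_, ?_⟩
        · intro e' he'
          rw [Finset.mem_insert] at he'
          rcases he' with rfl | he'
          · exact he.1
          · rw [hLp]
            exact ⟨(hsub e' he').1, (hsub e' he').2.trans Finset.sdiff_subset⟩
        · intro e1 h1 e2 h2 h3
          rw [Finset.mem_insert] at h1 h2
          have hdis : ∀ e' ∈ L', Disjoint (sp e') (sp e) := fun e' he' =>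
            Finset.disjoint_of_subset_left (hsub e' he').2 Finset.sdiff_disjoint
          rcases h1 with rfl | h1 <;> rcases h2 with rfl | h2
          · exact absurd rfl h3
          · exact (hdis e2 h2).symm
          · exact hdis e1 h1
          · exact hL'.2 e1 h1 e2 h2 h3
  have hnot : ∀ e, v ∈ sp e → ∀ L' ∈ Conf Lp sp (A \ sp e), e ∉ L' := by
    intro e hve L' hL' he
    rw [mem_Conf] at hL'
    have h := ((hLp _ e).1 (hL'.1 he)).2 hve
    rw [Finset.mem_sdiff] at h
    exact h.2 hve
  conv_lhs => rw [ZZ, key]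
  rw [Finset.sum_union]
  · congr 1
    rw [Finset.sum_biUnion]
    · refine Finset.sum_congr rfl fun e he => ?_
      rw [Finset.mem_filter] at he
      rw [Finset.sum_image]
      · rw [ZZ, Finset.mul_sum]
        refine Finset.sum_congr rfl fun L' hL' => ?_
        rw [Finset.prod_insert (hnot e he.2 L' hL')]
      · intro L1 h1 L2 h2 h3
        have n1 := hnot e he.2 L1 h1
        have n2 := hnot e he.2 L2 h2
        rw [← Finset.erase_insert n1, ← Finset.erase_insert n2]
        exact congrArg (fun s => Finset.erase s e) h3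
    · intro e he e' he' hne
      rw [Finset.mem_coe, Finset.mem_filter] at he he'
      simp only [Function.onFun]
      rw [Finset.disjoint_left]
      intro L h1 h2
      have hL : L ∈ Conf Lp sp A := by
        rw [key, Finset.mem_union, Finset.mem_biUnion]
        exact Or.inr ⟨e, Finset.mem_filter.2 he, h1⟩
      rw [Finset.mem_image] at h1 h2
      obtain ⟨L1, _, h1⟩ := h1
      obtain ⟨L2, _, h2⟩ := h2
      have m1 : e ∈ L := by rw [← h1]; exact Finset.mem_insert_self _ _
      have m2 : e' ∈ L := by rw [← h2]; exact Finset.mem_insert_self _ _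
      exact Finset.disjoint_left.1 ((mem_Conf.1 hL).2 e m1 e' m2 hne) he.2 he'.2
  · rw [Finset.disjoint_left]
    intro L h1 h2
    rw [Finset.mem_biUnion] at h2
    obtain ⟨e, he, h⟩ := h2
    rw [Finset.mem_filter] at he
    rw [Finset.mem_image] at h
    obtain ⟨L', _, rfl⟩ := h
    rw [mem_Conf] at h1
    have h3 := ((hLp _ e).1 (h1.1 (Finset.mem_insert_self _ _))).2 he.2
    rw [Finset.mem_erase] at h3
    exact h3.1 rfl

end Pool.Agent.V7H29.OL
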