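import Pool.Agent.V7H29.OL.Brg
import Pool.Agent.V7H29.OL.Tri

set_option autoImplicit false

/-! Domains with a corner at `(1,-1)`: the path starts at `(1,0)`. -/

namespace Pool.Agent.V7H29.OL

open Finset H978R2.Hex H978R3.Wedge

/-- paths which start with `(1,0), (1,-1)`, with `m` vertices in `D`, and end outside `D` in `Q` -/
def Pc (D Q : Set V) (m : ℕ) : Set (Fin (m + 2) → V) :=
  {γ | (γ 0 = (1, 0) ∧ γ 1 = (1, -1) ∧ Function.Injective γ ∧
      (∀ i : Fin (m + 1), Adj (γ i.castSucc) (γ i.succ)) ∧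
      ∀ i : Fin (m + 1), i ≠ 0 → γ i.castSucc ∈ D) ∧
    γ (Fin.last (m + 1)) ∉ D ∧ γ (Fin.last (m + 1)) ∈ Q}

/-- adding the step from `(0,0)` to `(1,0)` -/
def pre (m : ℕ) (γ : Fin (m + 2) → V) : Fin (m + 1 + 2) → V := Fin.cons (0, 0) γ

theorem pre_zero (m : ℕ) (γ : Fin (m + 2) → V) : pre m γ 0 = (0, 0) := rfl

theorem pre_succ (m : ℕ) (γ : Fin (m + 2) → V) (i : Fin (m + 2)) : pre m γ i.succ = γ i := by
  unfold pre
  exact Fin.cons_succ _ _ _

theorem pre_last (m : ℕ) (γ : Fin (m + 2) → V) :
    pre m γ (Fin.last (m + 1 + 1)) = γ (Fin.last (m + 1)) := by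
  rw [← Fin.succ_last, pre_succ]

theorem pre_castSucc (m : ℕ) (γ : Fin (m + 2) → V) (k : Fin (m + 1)) :
    pre m γ k.succ.castSucc = γ k.castSucc := by
  rw [← Fin.succ_castSucc, pre_succ]

theorem cons_bij {D' : Finset V} (hD : ∀ v ∈ D', v.2 ≤ -1) (Q : Set V)
    (h2 : ((2, 0) : V) ∉ Q) (h0 : ((0, 0) : V) ∉ Q) (m : ℕ) :
    Set.BijOn (pre m) (Pc (D' : Set V) Q m)
      (Pth ((insert (1, 0) D' : Finset V) : Set V) Q (m + 1)) := by
  have hins : ∀ v : V, v ∈ ((insert (1, 0) D' : Finset V) : Set V) ↔ v = (1, 0) ∨ v ∈ D' := by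
    intro v
    rw [Finset.mem_coe, Finset.mem_insert]
  have h00 : ((0, 0) : V) ∉ D' := fun h => by
    have := hD _ h
    simp at this
  have h20 : ((2, 0) : V) ∉ D' := fun h => by
    have := hD _ h
    simp at this
  refine ⟨?_, ?_, ?_⟩
  · rintro γ ⟨⟨g0, g1, g2, g3, g4⟩, g5, g6⟩
    have hne : ∀ i, γ i ≠ (0, 0) := by
      intro i hi
      rcases Fin.eq_castSucc_or_eq_last i with ⟨k, rfl⟩ | rfl
      · by_cases hk : k = 0
        · rw [hk] at hi
          rw [Fin.castSucc_zero, g0] at hi
          exact absurd (congrArg Prod.fst hi) (by norm_num)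
        · have := g4 k hk
          rw [hi] at this
          exact h00 this
      · rw [hi] at g6
        exact h0 g6
    refine ⟨⟨rfl, ?_, ?_, ?_, ?_⟩, ?_, ?_⟩
    · have : (1 : Fin (m + 1 + 2)) = (0 : Fin (m + 2)).succ := rfl
      rw [this, pre_succ]
      exact g0
    · unfold pre
      rw [Fin.cons_injective_iff]
      refine ⟨?_, g2⟩
      rintro ⟨i, hi⟩
      exact hne i hi
    · intro i
      induction i using Fin.cases with
      | zero =>
        rw [Fin.castSucc_zero, pre_zero, pre_succ, g0]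
        left; rfl
      | succ k =>
        rw [pre_castSucc, pre_succ]
        exact g3 k
    · intro i hi
      induction i using Fin.cases with
      | zero => exact absurd rfl hi
      | succ k =>
        rw [pre_castSucc, hins]
        by_cases hk : k = 0
        · left
          rw [hk, Fin.castSucc_zero, g0]
        · right
          exact g4 k hk
    · rw [pre_last, hins]
      rintro (h | h)
      · have h3 : (Fin.last (m + 1)) = (0 : Fin (m + 2)) := g2 (by rw [h, g0])
        have := congrArg Fin.val h3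
        simp at this
      · exact g5 h
    · rw [pre_last]
      exact g6
  · intro γ _ γ' _ h
    have h3 : Fin.tail (pre m γ) = Fin.tail (pre m γ') := by rw [h]
    unfold pre at h3
    simpa using h3
  · rintro γ ⟨⟨g0, g1, g2, g3, g4⟩, g5, g6⟩
    have e1 : ∀ i : Fin (m + 2), Fin.tail γ i = γ i.succ := fun i => rfl
    have hpre : pre m (Fin.tail γ) = γ := by
      unfold pre
      rw [← g0]
      exact Fin.cons_self_tail γ
    have hinj : ∀ i k, γ i = γ k → i = k := fun i k h => g2 h
    have hv2 : γ (1 : Fin (m + 2)).succ = (1, -1) := by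
      have ha : Adj (γ 1) (γ (1 : Fin (m + 2)).succ) := g3 1
      rw [g1, adj_iff] at ha
      have hn0 : γ (1 : Fin (m + 2)).succ ≠ (0, 0) := by
        intro h
        have h3 := hinj _ _ (h.trans g0.symm)
        have := congrArg Fin.val h3
        simp at this
        rw [Nat.mod_eq_of_lt (by omega)] at this
        omega
      have hn2 : γ (1 : Fin (m + 2)).succ ≠ (2, 0) := by
        intro h
        rcases Fin.eq_castSucc_or_eq_last (1 : Fin (m + 2)).succ with ⟨k, hk⟩ | hk
        · rw [hk] at h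
          have hk0 : k ≠ 0 := by
            intro hk0
            rw [hk0] at hk
            have := congrArg Fin.val hk
            simp at this
            rw [Nat.mod_eq_of_lt (by omega)] at this
            omega
          have := g4 k hk0
          rcases (hins _).1 this with h3 | h3 <;> rw [h] at h3
          · exact absurd (congrArg Prod.fst h3) (by norm_num)
          · exact h20 h3
        · rw [hk] at h
          rw [h] at g6
          exact h2 g6
      generalize γ (1 : Fin (m + 2)).succ = w at *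
      obtain ⟨w1, w2⟩ := w
      simp only at ha
      rw [ne_eq, Prod.mk.injEq] at hn0 hn2
      ext <;> simp only <;> omega
    refine ⟨Fin.tail γ, ⟨⟨?_, ?_, ?_, ?_, ?_⟩, ?_, ?_⟩, hpre⟩
    · exact g1
    · rw [e1]
      exact hv2
    · intro i k h
      rw [e1, e1] at h
      exact Fin.succ_injective _ (hinj _ _ h)
    · intro i
      rw [e1, e1, Fin.succ_castSucc]
      exact g3 i.succ
    · intro i hi
      rw [e1, Fin.succ_castSucc]
      have h3 := g4 i.succ (Fin.succ_ne_zero i)
      rcases (hins _).1 h3 with h3 | h3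
      · exfalso
        have h4 := hinj _ _ (h3.trans g1.symm)
        have h5 := congrArg Fin.val h4
        simp at h5
        exact hi h5
      · exact h3
    · rw [e1, Fin.succ_last]
      intro h
      exact g5 ((hins _).2 (Or.inr h))
    · rw [e1, Fin.succ_last]
      exact g6

theorem pre_range {D' : Finset V} (hD : ∀ v ∈ D', v.2 ≤ -1) {Q : Set V} {m : ℕ}
    {γ : Fin (m + 2) → V} (h : γ ∈ Pc (D' : Set V) Q m) :
    ((insert (1, 0) D' : Finset V) : Set V) \ Set.range (pre m γ) =
      (D' : Set V) \ Set.range γ := by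
  have h00 : ((0, 0) : V) ∉ D' := fun h => by
    have := hD _ h
    simp at this
  ext v
  constructor
  · rintro ⟨h1, h2⟩
    rw [Finset.mem_coe, Finset.mem_insert] at h1
    have h3 : v ∉ Set.range γ := by
      rintro ⟨i, rfl⟩
      exact h2 ⟨i.succ, pre_succ m γ i⟩
    rcases h1 with h1 | h1
    · exfalso
      apply h3
      exact ⟨0, by rw [h.1.1, h1]⟩
    · exact ⟨h1, h3⟩
  · rintro ⟨h1, h2⟩
    refine ⟨?_, ?_⟩
    · rw [Finset.mem_coe, Finset.mem_insert]
      exact Or.inr h1
    · rintro ⟨i, hi⟩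
      induction i using Fin.cases with
      | zero =>
        rw [pre_zero] at hi
        rw [← hi] at h1
        exact h00 h1
      | succ k =>
        rw [pre_succ] at hi
        exact h2 ⟨k, hi⟩

open scoped Classical in
theorem corner_level (n x : ℝ) (hx : x ≠ 0) {D' : Finset V} (hD : ∀ v ∈ D', v.2 ≤ -1) (Q : Set V)
    (h2 : ((2, 0) : V) ∉ Q) (h0 : ((0, 0) : V) ∉ Q)
    (ZZl : Set V → ℝ) (hZ : ∀ A : Finset V, ZZl (A : Set V) = Zp n x A) (m : ℕ) :
    ∑ᶠ γ ∈ Pc (D' : Set V) Q m, x ^ (m + 1) * ZZl ((D' : Set V) \ Set.range γ) =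
      ∑ l ∈ (P (In (insert (1, 0) D')) (m + 1)).filter
        (fun l => l.headD (0, 0) ∉ insert (1, 0) D' ∧ l.headD (0, 0) ∈ Q),
        wt n x (insert (1, 0) D') l := by
  have hO : ∀ v ∈ insert (1, 0) D', ¬ Slit v := by
    intro v hv hs
    rw [Finset.mem_insert] at hv
    unfold Slit at hs
    rcases hv with rfl | hv
    · simp at hs
    · have := hD v hv
      omega
  have h01 : ((0, 1) : V) ∉ insert (1, 0) D' := by
    intro h
    rw [Finset.mem_insert] at h
    rcases h with h | h
    · exact absurd (congrArg Prod.fst h) (by norm_num)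
    · have := hD _ h
      simp at this
  have h3 := path_level n x (insert (1, 0) D') hO h01 Q (fun _ => 1) ZZl hZ (m + 1)
  have h4 : ∑ᶠ γ ∈ Pc (D' : Set V) Q m, x ^ (m + 1) * ZZl ((D' : Set V) \ Set.range γ) =
      ∑ᶠ γ ∈ Pth ((insert (1, 0) D' : Finset V) : Set V) Q (m + 1),
        x⁻¹ * (1 * (x ^ (m + 1 + 1) *
          ZZl (((insert (1, 0) D' : Finset V) : Set V) \ Set.range γ))) := by
    apply finsum_mem_eq_of_bijOn (pre m) (cons_bij hD Q h2 h0 m)
    intro γ hγ
    rw [pre_range hD hγ, pow_succ x (m + 1)]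
    field_simp
  rw [h4, ← mul_finsum_mem, h3, Finset.mul_sum]
  refine Finset.sum_congr rfl fun l _ => ?_
  field_simp

/-- the partition functions of the paths from the corner -/
theorem corner_sum (n x : ℝ) (hx : x ≠ 0) {D' : Finset V} (hD : ∀ v ∈ D', v.2 ≤ -1) (Q : Set V)
    (h2 : ((2, 0) : V) ∉ Q) (h0 : ((0, 0) : V) ∉ Q)
    (ZZl : Set V → ℝ) (hZ : ∀ A : Finset V, ZZl (A : Set V) = Zp n x A) (S : Finset (List V))
    (hS : ∀ l, l ∈ S ↔ l ∈ EE (insert (1, 0) D') ∧ l.headD (0, 0) ∈ Q) :
    ∑' m : ℕ, ∑ᶠ γ ∈ Pc (D' : Set V) Q m, x ^ (m + 1) * ZZl ((D' : Set V) \ Set.range γ) =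
      ∑ l ∈ S, wt n x (insert (1, 0) D') l := by
  classical
  have e : S = (EE (insert (1, 0) D')).filter (fun l => l.headD (0, 0) ∈ Q) := by
    ext l
    rw [hS, Finset.mem_filter]
  simp_rw [corner_level n x hx hD Q h2 h0 ZZl hZ]
  rw [tsum_eq_sum (s := Finset.range ((insert ((1, 0) : V) D').card + 1)), e]
  · unfold EE
    rw [Finset.filter_filter, Finset.sum_filter, sum_All]
    have e0 : ∑ l ∈ P (In (insert (1, 0) D')) 0,
        (if l.headD (0, 0) ∉ insert (1, 0) D' ∧ l.headD (0, 0) ∈ Q then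
          wt n x (insert (1, 0) D') l else 0) = 0 := by
      rw [P, Finset.sum_singleton, if_neg]
      rintro ⟨h, _⟩
      apply h
      simp
    have e1 := Finset.sum_range_succ' (fun m => ∑ l ∈ P (In (insert (1, 0) D')) m,
        (if l.headD (0, 0) ∉ insert (1, 0) D' ∧ l.headD (0, 0) ∈ Q then
          wt n x (insert (1, 0) D') l else 0)) ((insert ((1, 0) : V) D').card + 1)
    simp only [e0, add_zero] at e1
    rw [e1]
    refine Finset.sum_congr rfl fun m _ => ?_
    rw [Finset.sum_filter]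
  · intro m hm
    rw [Finset.mem_range, not_lt] at hm
    rw [P_nil _ m (by omega)]
    simp

/-- no loop passes through the first vertex -/
theorem corner_loops (n x : ℝ) {j : ℕ} (hj : j ≤ 2) {D' : Finset V} (hD : ∀ v ∈ D', v.2 ≤ -1)
    (hW : ∀ v ∈ insert (1, 0) D', Wj j v) : Zp n x (insert (1, 0) D') = Zp n x D' := by
  have h := apex_free n x hj hW (Finset.mem_insert_self _ _)
  rw [← h]
  congr 1
  ext v
  simp only [Finset.mem_sdiff, Finset.mem_insert, List.mem_toFinset, List.mem_cons,
    List.not_mem_nil, or_false]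
  constructor
  · rintro ⟨h1 | h1, h2⟩
    · exact absurd (Or.inl h1) h2
    · exact h1
  · intro h1
    refine ⟨Or.inr h1, ?_⟩
    have := hD v h1
    rintro (rfl | rfl) <;> simp at this

end Pool.Agent.V7H29.OL
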