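import Pool.Agent.V7H29.OL.Cls
import Pool.Agent.H978R2.Hex.MassLemmas

set_option autoImplicit false

/-! All walks in a finite domain, the steps and the trapped walks. -/

namespace Pool.Agent.V7H29.OL

open Finset H978R2.Hex

/-- the domain as a predicate -/
abbrev In (D : Finset V) : V → Prop := fun v => v ∈ D

/-- all walks in `D` -/
def All (D : Finset V) : Finset (List V) := (range (D.card + 1 + 1)).biUnion (P (In D))

theorem P_nil (D : Finset V) (m : ℕ) (hm : D.card + 1 < m + 1) : P (In D) (m + 1) = ∅ := by
  have h : Free (In D) m = ∅ := free_empty D (fun v hv => hv) m (by omega)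
  rw [Finset.eq_empty_iff_forall_notMem]
  intro l hl
  rw [mem_P_succ] at hl
  obtain ⟨z', z, y, t, rfl, h1, h2, h3, h4, h5⟩ := hl
  have : z :: y :: t ∈ Free (In D) m := by
    unfold Free
    rw [Finset.mem_filter]
    exact ⟨h1, h2, h3⟩
  rw [h] at this
  exact Finset.notMem_empty _ this

theorem mem_All {D : Finset V} {l : List V} : l ∈ All D ↔ Val (In D) l := by
  unfold All
  rw [Finset.mem_biUnion]
  constructor
  · rintro ⟨m, _, hm⟩
    exact (mem_P.1 hm).1
  · intro h
    have hlen : 2 ≤ l.length := by
      match l, h with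
      | [_, _], _ => simp
      | _ :: _ :: _ :: _, _ => simp
    have hm : l ∈ P (In D) (l.length - 2) := mem_P.2 ⟨h, by omega⟩
    refine ⟨l.length - 2, ?_, hm⟩
    rw [Finset.mem_range]
    by_contra hc
    obtain ⟨k, hk⟩ : ∃ k, l.length - 2 = k + 1 := ⟨l.length - 3, by omega⟩
    rw [hk] at hm hc
    rw [P_nil D k (by omega)] at hm
    exact Finset.notMem_empty _ hm

theorem sum_All {M : Type*} [AddCommMonoid M] (D : Finset V) (f : List V → M) :
    ∑ l ∈ All D, f l = ∑ m ∈ range (D.card + 1 + 1), ∑ l ∈ P (In D) m, f l := by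
  unfold All
  rw [Finset.sum_biUnion]
  intro a _ b _ hab
  simp only [Function.onFun]
  rw [Finset.disjoint_left]
  intro l h1 h2
  have e1 := (mem_P.1 h1).2
  have e2 := (mem_P.1 h2).2
  omega

/-- free walks -/
def FF (D : Finset V) : Finset (List V) :=
  (All D).filter (fun l => l.headD (0, 0) ∈ D ∧ l.headD (0, 0) ∉ l.tail)

/-- trapped walks -/
def TT (D : Finset V) : Finset (List V) :=
  (All D).filter (fun l => l.headD (0, 0) ∈ D ∧ l.headD (0, 0) ∈ l.tail)

/-- exits -/
def EE (D : Finset V) : Finset (List V) := (All D).filter (fun l => l.headD (0, 0) ∉ D)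

theorem sum_split {M : Type*} [AddCommMonoid M] (D : Finset V) (f : List V → M) :
    ∑ l ∈ All D, f l = ∑ l ∈ FF D, f l + ∑ l ∈ TT D, f l + ∑ l ∈ EE D, f l := by
  rw [← Finset.sum_filter_add_sum_filter_not (All D) (fun l => l.headD (0, 0) ∈ D)]
  congr 1
  rw [← Finset.sum_filter_add_sum_filter_not ((All D).filter (fun l => l.headD (0, 0) ∈ D))
    (fun l => l.headD (0, 0) ∉ l.tail)]
  rw [Finset.filter_filter, Finset.filter_filter]
  unfold FF TT
  congr 1
  refine Finset.sum_congr ?_ fun _ _ => rfl
  refine Finset.filter_congr fun l _ => ?_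
  rw [not_not]

theorem sum_FF {M : Type*} [AddCommMonoid M] (D : Finset V) (f : List V → M) :
    ∑ l ∈ FF D, f l = ∑ m ∈ range (D.card + 1 + 1), ∑ l ∈ Free (In D) m, f l := by
  unfold FF
  rw [Finset.sum_filter, sum_All]
  refine Finset.sum_congr rfl fun m _ => ?_
  unfold Free
  rw [← Finset.sum_filter]

/-- the steps -/
theorem sum_step {M : Type*} [AddCommMonoid M] (D : Finset V) (f : List V → M) :
    ∑ l ∈ All D, f l = f [(1, 0), (0, 0)] + ∑ l ∈ FF D,
      ∑ z' ∈ (nbrs (l.headD (0, 0))).erase (l.tail.headD (0, 0)), f (z' :: l) := by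
  rw [sum_All, sum_FF, Finset.sum_range_succ', add_comm]
  congr 1
  · simp [P]
  · rw [Finset.sum_range_succ (n := D.card + 1)]
    have h : Free (In D) (D.card + 1) = ∅ := free_empty D (fun v hv => hv) _ (by omega)
    rw [h, Finset.sum_empty, add_zero]
    refine Finset.sum_congr rfl fun m _ => ?_
    exact sum_P_succ f m

theorem good_of_All {D : Finset V} {l : List V} (h : l ∈ All D) :
    ∃ z t, l = z :: t ∧ Good (In D) z t := by
  rw [mem_All] at h
  match l, h with
  | z :: t, h => exact ⟨z, t, rfl, (val_iff z t).1 h⟩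

theorem All_of_good {D : Finset V} {z : V} {t : List V} (h : Good (In D) z t) :
    z :: t ∈ All D := mem_All.2 ((val_iff z t).2 h)

theorem chain_rev {l : List V} (h : l.IsChain (fun x y => Adj y x)) : l.IsChain Adj :=
  h.imp (fun _ _ hab => adj_symm' hab)

theorem chain_rev' {l : List V} (h : l.IsChain Adj) : l.IsChain (fun x y => Adj y x) :=
  h.imp (fun _ _ hab => adj_symm' hab)

/-- the list of a trapped walk -/
theorem TT_iff {D : Finset V} (hO : ∀ v ∈ D, ¬ Slit v) (l : List V) :
    l ∈ TT D ↔ ∃ b ∈ FF D, ∃ L ∈ CLs (b.headD (0, 0)) (D \ b.tail.toFinset),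
      b.headD (0, 0) :: (L ++ b) = l := by
  constructor
  · intro hl
    unfold TT at hl
    rw [Finset.mem_filter] at hl
    obtain ⟨h1, h2, h3⟩ := hl
    obtain ⟨z, t, rfl, hg⟩ := good_of_All h1
    simp only [List.headD_cons, List.tail_cons] at h2 h3
    obtain ⟨e, M, a, q, B, rfl⟩ := trap_decomp (fun v hv => hO v hv) hg h2 h3
    have hn := hg.nodup
    rw [List.nodup_append] at hn
    obtain ⟨n1, n2, n3⟩ := hn
    have n4 := List.nodup_cons.1 n2
    have hc := hg.chain
    rw [← List.cons_append, List.isChain_split] at hc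
    have hgb : Good (In D) z (q :: B) := by
      refine ⟨?_, hc.2, n4.2, ?_, ?_⟩
      · refine List.suffix_of_suffix_length_le hg.suff ?_ (by simp)
        rw [← List.cons_append]
        exact List.suffix_append _ _
      · intro v hv
        apply hg.om
        rw [List.dropLast_append_cons, List.dropLast_cons_cons]
        simp only [List.mem_append, List.mem_cons]
        right; right
        exact hv
      · intro y x r h hx
        apply n4.1
        rw [h, hx]
        simp
    have hL : ∀ v ∈ (e :: (M ++ [a])), v ∈ D := by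
      intro v hv
      apply hg.om
      rw [List.dropLast_append_cons]
      exact List.mem_append_left _ hv
    refine ⟨z :: q :: B, ?_, e :: (M ++ [a]), ?_, by simp⟩
    · unfold FF
      rw [Finset.mem_filter]
      exact ⟨All_of_good hgb, h2, n4.1⟩
    · rw [mem_CLs, cl_iff]
      refine ⟨⟨by simp, ?_, chain_rev hc.1⟩, ?_⟩
      · simp only [List.headD_cons]
        rw [List.nodup_cons]
        exact ⟨fun hz => n3 z hz z (by simp) rfl, n1⟩
      · intro v hv
        simp only [List.headD_cons, List.tail_cons] at hv ⊢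
        rw [Finset.mem_sdiff, List.mem_toFinset]
        rcases List.mem_cons.1 hv with rfl | hv
        · exact ⟨h2, n4.1⟩
        · exact ⟨hL v hv, fun hc => n3 v hv v (List.mem_cons_of_mem _ hc) rfl⟩
  · rintro ⟨b, hb, L, hL, rfl⟩
    unfold FF at hb
    rw [Finset.mem_filter] at hb
    obtain ⟨h1, h2, h3⟩ := hb
    obtain ⟨z, t, rfl, hg⟩ := good_of_All h1
    simp only [List.headD_cons, List.tail_cons] at h2 h3 hL ⊢
    rw [mem_CLs, cl_iff] at hL
    obtain ⟨⟨l1, l2, l3⟩, l4⟩ := hL
    have hg2 : Good (In D) z (L ++ z :: t) := by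
      refine ⟨?_, ?_, ?_, ?_, ?_⟩
      · refine hg.suff.trans ?_
        rw [← List.cons_append]
        exact List.suffix_append _ _
      · rw [← List.cons_append, List.isChain_split]
        exact ⟨chain_rev' l3, hg.chain⟩
      · rw [List.nodup_append]
        refine ⟨(List.nodup_cons.1 l2).2, List.nodup_cons.2 ⟨h3, hg.nodup⟩, ?_⟩
        intro a ha b hb hab
        subst hab
        rcases List.mem_cons.1 hb with rfl | hb
        · exact (List.nodup_cons.1 l2).1 ha
        · have := l4 a (List.mem_cons_of_mem _ ha)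
          rw [Finset.mem_sdiff, List.mem_toFinset] at this
          exact this.2 hb
      · intro v hv
        rw [List.dropLast_append_cons, List.mem_append] at hv
        rcases hv with hv | hv
        · have := l4 v (List.mem_cons_of_mem _ hv)
          rw [Finset.mem_sdiff] at this
          exact this.1
        · match t, hv, hg with
          | [], hv, _ => simp at hv
          | y :: t, hv, hg =>
            rw [List.dropLast_cons_cons, List.mem_cons] at hv
            rcases hv with rfl | hv
            · exact h2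
            · exact hg.om v hv
      · intro y x r h hx
        match L, l1, l2 with
        | e :: a :: L', _, l2 =>
          simp only [List.cons_append, List.cons.injEq] at h
          rw [hx, ← h.2.1] at l2
          exact (List.nodup_cons.1 l2).1 (by simp)
    unfold TT
    rw [Finset.mem_filter]
    refine ⟨All_of_good hg2, ?_, ?_⟩
    · simpa using h2
    · simp

theorem append_inj_of {z : V} {L L' b b' : List V} (h1 : z ∉ L) (h2 : z ∉ L')
    (h : L ++ z :: b = L' ++ z :: b') : L = L' ∧ b = b' := by
  induction L generalizing L' with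
  | nil =>
    match L' with
    | [] => exact ⟨rfl, by simpa using h⟩
    | a :: L' =>
      simp only [List.nil_append, List.cons_append, List.cons.injEq] at h
      exact absurd (by rw [h.1]; simp) h2
  | cons a L ih =>
    match L' with
    | [] =>
      simp only [List.nil_append, List.cons_append, List.cons.injEq] at h
      exact absurd (by rw [← h.1]; simp) h1
    | a' :: L' =>
      simp only [List.cons_append, List.cons.injEq] at h
      obtain ⟨e1, e2⟩ := ih (fun hc => h1 (List.mem_cons_of_mem _ hc))
        (fun hc => h2 (List.mem_cons_of_mem _ hc)) h.2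
      exact ⟨by rw [h.1, e1], e2⟩

/-- summing over trapped walks -/
theorem sum_TT {M : Type*} [AddCommMonoid M] {D : Finset V} (hO : ∀ v ∈ D, ¬ Slit v)
    (f : List V → M) :
    ∑ l ∈ TT D, f l = ∑ b ∈ FF D, ∑ L ∈ CLs (b.headD (0, 0)) (D \ b.tail.toFinset),
      f (b.headD (0, 0) :: (L ++ b)) := by
  classical
  have key : TT D = (FF D).biUnion (fun b =>
      (CLs (b.headD (0, 0)) (D \ b.tail.toFinset)).image
        (fun L => b.headD (0, 0) :: (L ++ b))) := by
    ext l
    rw [TT_iff hO, Finset.mem_biUnion]
    simp only [Finset.mem_image]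
  rw [key, Finset.sum_biUnion]
  · refine Finset.sum_congr rfl fun b _ => ?_
    rw [Finset.sum_image]
    intro L1 _ L2 _ h
    exact List.append_cancel_right (List.cons.inj h).2
  · intro b hb b' hb' hne
    simp only [Function.onFun]
    rw [Finset.disjoint_left]
    intro l h1 h2
    apply hne
    rw [Finset.mem_image] at h1 h2
    obtain ⟨L, hL, rfl⟩ := h1
    obtain ⟨L', hL', h⟩ := h2
    rw [Finset.mem_coe] at hb hb'
    unfold FF at hb hb'
    rw [Finset.mem_filter] at hb hb'
    obtain ⟨z, t, rfl, hg⟩ := good_of_All hb.1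
    obtain ⟨z', t', rfl, hg'⟩ := good_of_All hb'.1
    simp only [List.headD_cons, List.tail_cons, List.cons.injEq] at h hL hL'
    obtain ⟨hz, h⟩ := h
    subst hz
    rw [mem_CLs] at hL hL'
    have e := append_inj_of (List.nodup_cons.1 hL'.1.nd).1 (List.nodup_cons.1 hL.1.nd).1 h
    rw [e.2]

end Pool.Agent.V7H29.OL
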