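import Pool.Agent.V7H29.OL.Ineq

set_option autoImplicit false

/-! A lower bound for the two-point function. -/

namespace Pool.Agent.V7H29.OL

open Finset H978R2.Hex H978R3.Wedge Real

/-- the last but one vertex of an exit -/
theorem exit_adj {D : Finset V} (hb : ((1, 0) : V) ∈ D) {l : List V} (hl : l ∈ EE D) :
    ∃ y ∈ D, Adj y (l.headD (0, 0)) := by
  unfold EE at hl
  rw [Finset.mem_filter, mem_All] at hl
  obtain ⟨h1, h2⟩ := hl
  match l, h1, h2 with
  | [z, y], h1, h2 =>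
    obtain ⟨rfl, rfl⟩ := h1
    exact absurd hb h2
  | z :: y :: x :: t, h1, h2 =>
    obtain ⟨h3, _, h5, _, _⟩ := h1
    exact ⟨y, h5, h3⟩

theorem far_Bd (j : ℕ) (N : ℤ) (hN : 1 ≤ N) {l : List V} (hl : l ∈ EF j (Dn j N)) :
    l.headD (0, 0) ∈ Bd N := by
  unfold EF at hl
  rw [Finset.mem_filter] at hl
  obtain ⟨h1, h2⟩ := hl
  obtain ⟨y, hy, ha⟩ := exit_adj (base_Dn j N hN) h1
  have h3 : ¬ Hx N (l.headD (0, 0)) := by
    intro h
    unfold EE at h1
    rw [Finset.mem_filter, mem_Dn] at h1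
    exact h1.2 ⟨h2, h⟩
  rw [mem_Dn] at hy
  have hy2 := hy.2
  clear h1 h2 hy
  generalize l.headD (0, 0) = z at *
  obtain ⟨z1, z2⟩ := z
  obtain ⟨y1, y2⟩ := y
  rw [adj_iff] at ha
  unfold Hx at h3 hy2
  simp only at ha h3 hy2
  unfold Bd
  simp only [Finset.mem_union, Finset.mem_image, Finset.mem_Icc, Prod.mk.injEq]
  by_cases c1 : z2 = N + 1
  · left; left; left; left; left
    exact ⟨z1, by omega, rfl, c1.symm⟩
  by_cases c2 : z2 = -N - 1
  · left; left; left; left; right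
    exact ⟨z1, by omega, rfl, c2.symm⟩
  by_cases c3 : z1 + z2 = 2 * N + 2
  · left; left; left; right
    exact ⟨z2, by omega, by omega, rfl⟩
  by_cases c4 : z1 + z2 = -2 * N - 1
  · left; left; right
    exact ⟨z2, by omega, by omega, rfl⟩
  by_cases c5 : z1 - z2 = 2 * N + 1
  · left; right
    exact ⟨z2, by omega, by omega, rfl⟩
  · right
    exact ⟨z2, by omega, by omega, rfl⟩

/-- the mass of the exits at `z` -/
noncomputable def Gz (n x : ℝ) (j : ℕ) (N : ℤ) (z : V) : ℝ :=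
  ∑ l ∈ (EE (Dn j N)).filter (fun l => l.headD (0, 0) = z), wt n x (Dn j N) l

theorem two_point {n x θ : ℝ} (h : Ang n x θ) (j : ℕ) (hj1 : 1 ≤ j) (hj5 : j ≤ 5)
    (hθ : π ≤ (j + 3) * θ) (N : ℤ) (hN : 1 ≤ N) :
    ∃ z, Wj j z ∧ ¬ Hx N z ∧ rr j x θ * Zp n x (Dn j N) ≤ 38 * N * Gz n x j N z := by
  classical
  have hA := caseA h j hj1 (by omega) hθ (three_pi h j hj5) (Dn_Wj j N) (base_Dn j N hN)
  have hw : ∀ l, 0 ≤ wt n x (Dn j N) l := fun l =>
    wt_nonneg h.n_nonneg h.x_pos.le (Dn j N) l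
  have hr := h.rr_pos j hj1 (by omega)
  have hZ := Zp_ge h.n_nonneg h.x_pos.le (Dn j N)
  have hN' : 0 ≤ ∑ l ∈ EN j (Dn j N), wt n x (Dn j N) l := Finset.sum_nonneg fun l _ => hw l
  have hF : rr j x θ * Zp n x (Dn j N) ≤ ∑ l ∈ EF j (Dn j N), wt n x (Dn j N) l := by
    have := mul_nonneg (abs_nonneg (Real.cos ((j + 3) * θ / 2))) hN'
    linarith
  have hpos : 0 < ∑ l ∈ EF j (Dn j N), wt n x (Dn j N) l := by
    have : 0 < rr j x θ * Zp n x (Dn j N) := by positivity
    linarith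
  obtain ⟨S, hS⟩ : ∃ S, S = (EF j (Dn j N)).image (fun l => l.headD (0, 0)) := ⟨_, rfl⟩
  have hne : S.Nonempty := by
    rw [hS, Finset.image_nonempty]
    by_contra hc
    rw [Finset.not_nonempty_iff_eq_empty] at hc
    rw [hc, Finset.sum_empty] at hpos
    exact lt_irrefl _ hpos
  have hfib : ∑ l ∈ EF j (Dn j N), wt n x (Dn j N) l =
      ∑ z ∈ S, ∑ l ∈ (EF j (Dn j N)).filter (fun l => l.headD (0, 0) = z), wt n x (Dn j N) l := by
    rw [Finset.sum_fiberwise_of_maps_to]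
    intro l hl
    rw [hS]
    exact Finset.mem_image_of_mem _ hl
  have hcard : (S.card : ℝ) ≤ 38 * N := by
    have h1 : S ⊆ Bd N := by
      intro z hz
      rw [hS, Finset.mem_image] at hz
      obtain ⟨l, hl, rfl⟩ := hz
      exact far_Bd j N hN hl
    have h2 := Finset.card_le_card h1
    have h3 := card_Bd N hN
    have h4 : (S.card : ℤ) ≤ 38 * N := by
      have : (S.card : ℤ) ≤ ((Bd N).card : ℤ) := by exact_mod_cast h2
      omega
    exact_mod_cast h4
  have hex : ∃ z ∈ S, (∑ l ∈ EF j (Dn j N), wt n x (Dn j N) l) / S.card ≤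
      ∑ l ∈ (EF j (Dn j N)).filter (fun l => l.headD (0, 0) = z), wt n x (Dn j N) l := by
    apply Finset.exists_le_of_sum_le hne
    rw [Finset.sum_const, nsmul_eq_mul, ← hfib]
    have : (S.card : ℝ) ≠ 0 := by
      have := hne.card_pos
      positivity
    field_simp
    exact le_refl _
  obtain ⟨z, hz, hle⟩ := hex
  rw [hS, Finset.mem_image] at hz
  obtain ⟨l0, hl0, rfl⟩ := hz
  have hl1 := hl0
  unfold EF at hl1
  rw [Finset.mem_filter] at hl1
  refine ⟨l0.headD (0, 0), hl1.2, ?_, ?_⟩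
  · intro hx
    have h1 := hl1.1
    unfold EE at h1
    rw [Finset.mem_filter, mem_Dn] at h1
    exact h1.2 ⟨hl1.2, hx⟩
  · have hsub : ∑ l ∈ (EF j (Dn j N)).filter (fun l => l.headD (0, 0) = l0.headD (0, 0)),
        wt n x (Dn j N) l ≤ Gz n x j N (l0.headD (0, 0)) := by
      unfold Gz
      apply Finset.sum_le_sum_of_subset_of_nonneg
      · intro l hl
        rw [Finset.mem_filter] at hl ⊢
        unfold EF at hl
        rw [Finset.mem_filter] at hl
        exact ⟨hl.1.1, hl.2⟩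
      · intro l _ _
        exact hw l
    have hcp : (0 : ℝ) < S.card := by exact_mod_cast hne.card_pos
    rw [div_le_iff₀ hcp] at hle
    have hG : 0 ≤ Gz n x j N (l0.headD (0, 0)) := Finset.sum_nonneg fun l _ => hw l
    calc rr j x θ * Zp n x (Dn j N) ≤ ∑ l ∈ EF j (Dn j N), wt n x (Dn j N) l := hF
      _ ≤ _ := hle
      _ ≤ Gz n x j N (l0.headD (0, 0)) * S.card := mul_le_mul_of_nonneg_right hsub hcp.le
      _ ≤ Gz n x j N (l0.headD (0, 0)) * (38 * N) := mul_le_mul_of_nonneg_left hcard hG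
      _ = 38 * N * Gz n x j N (l0.headD (0, 0)) := by ring

end Pool.Agent.V7H29.OL
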