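import Pool.Agent.V7H29.OL.Idn
import Pool.Agent.H978R3.Wedge.Dom

set_option autoImplicit false
set_option linter.unusedSimpArgs false

/-! Truncated wedges with openings 60, ..., 360 degrees: index of the exits. -/

namespace Pool.Agent.V7H29.OL

open Finset H978R2.Hex H978R3.Wedge

/-- the lattice wedge with opening `60 j` degrees -/
def Wj (j : ℕ) (v : V) : Prop :=
  (v.2 = 0 → 1 ≤ v.1) ∧
  (1 ≤ v.2 → 4 ≤ j ∧ (j = 4 → 1 ≤ v.1 - v.2) ∧ (j = 5 → 2 ≤ v.1 + v.2)) ∧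
  (j ≤ 2 → v.1 + v.2 ≤ 1) ∧ (j ≤ 1 → v.1 - v.2 ≤ 2)

instance (j : ℕ) : DecidablePred (Wj j) := fun v => by unfold Wj; infer_instance

/-- parameters of the truncated wedge -/
def wp (j : ℕ) (N : ℤ) : Par where
  a4 := if j ≤ 3 ∨ j = 5 then 2 else -2 * N
  c3 := if j ≤ 4 then 1 else -2 * N + 1
  R := if j ≤ 3 then 0 else N
  b := if j ≤ 2 then 1 else 2 * N + 1
  d := if j ≤ 1 then 2 else 2 * N
  Q := N
  a2 := -2 * N
  c1 := -2 * N + 1

theorem ok_wp (j : ℕ) (N : ℤ) (hN : 1 ≤ N) : Ok (wp j N) := by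
  constructor <;> simp only [wp] <;> (try split_ifs) <;> omega

theorem om_wp (j : ℕ) (hj1 : 1 ≤ j) (hj6 : j ≤ 6) (N : ℤ) (hN : 1 ≤ N) (v : V) :
    Om (wp j N) v ↔ Wj j v ∧ Hx N v := by
  unfold Om wp Wj Hx
  simp only
  rcases lt_trichotomy v.2 0 with c | c | c
  · have c1 : ¬ (v.2 = 0) := by omega
    have c2 : ¬ (1 ≤ v.2) := by omega
    have c3 : v.2 ≤ -1 := by omega
    interval_cases j <;>
      (simp only [c1, c2, c3, false_implies, true_implies, true_and, and_true]; norm_num; omega)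
  · have c2 : ¬ (1 ≤ v.2) := by omega
    have c3 : ¬ (v.2 ≤ -1) := by omega
    interval_cases j <;> (simp only [c, true_implies]; norm_num; omega)
  · have c1 : ¬ (v.2 = 0) := by omega
    have c2 : 1 ≤ v.2 := by omega
    have c3 : ¬ (v.2 ≤ -1) := by omega
    interval_cases j <;>
      (simp only [c1, c2, c3, false_implies, true_implies, true_and, and_true]; norm_num; omega)

theorem idx (j : ℕ) (hj1 : 1 ≤ j) (hj6 : j ≤ 6) (N : ℤ) (hN : 1 ≤ N) {m : ℕ} {l : List V}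
    (hl : l ∈ P (Om (wp j N)) m) (h : ¬ Om (wp j N) (l.headD (0, 0))) :
    (Wj j (l.headD (0, 0)) → -3 ≤ W l ∧ W l ≤ j - 2) ∧
    (¬ Wj j (l.headD (0, 0)) → l.headD (0, 0) ≠ (2, 0) → W l = -4 ∨ W l = j - 1) ∧
    (j ≤ 2 → l.headD (0, 0) = (2, 0) → W l = 1) := by
  have hb : j ≤ 5 → W l ≠ 5 := by
    intro hj
    apply no_five _ (ok_wp j N hN) _ hl h
    intro x hx hOm
    rw [om_wp j hj1 hj6 N hN] at hOm
    obtain ⟨⟨-, h2, -, -⟩, -⟩ := hOm
    simp only at h2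
    obtain ⟨h3, h4, h5⟩ := h2 le_rfl
    rcases (by omega : j = 4 ∨ j = 5) with hj | hj
    · have := h4 hj; omega
    · have := h5 hj; omega
  obtain ⟨v, h1, h2, h3, h4⟩ := land_adj _ (ok_wp j N hN) hl h
  have ho := class_om _ (ok_wp j N hN) m l hl h
  rw [om_wp j hj1 hj6 N hN] at h1 h
  generalize l.headD (0, 0) = z at *
  generalize W l = k at *
  clear hl h3 h4
  rw [adj_iff] at h2
  obtain ⟨z1, z2⟩ := z
  obtain ⟨v1, v2⟩ := v
  unfold Wj Hx at h h1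
  unfold Wj
  unfold Out wp Slit at ho
  simp only [Prod.mk.injEq, ne_eq] at *
  interval_cases j
  all_goals norm_num at *
  all_goals
    rcases ho with ho | ho | ho | ho | ho | ho | ho | ho | ho | ho <;>
      rcases h2 with h2 | h2 | h2 | h2 <;> omega

/-- the truncated wedge as a finite set -/
noncomputable def Dn (j : ℕ) (N : ℤ) : Finset V :=
  ((Finset.Icc (-4 * N) (4 * N + 1)) ×ˢ (Finset.Icc (-N) N)).filter (fun v => Wj j v ∧ Hx N v)

theorem mem_Dn (j : ℕ) (N : ℤ) (v : V) : v ∈ Dn j N ↔ Wj j v ∧ Hx N v := by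
  unfold Dn
  rw [Finset.mem_filter, Finset.mem_product, Finset.mem_Icc, Finset.mem_Icc]
  constructor
  · exact fun h => h.2
  · intro h
    refine ⟨?_, h⟩
    have := h.2
    unfold Hx at this
    omega

theorem Dn_slit (j : ℕ) (N : ℤ) : ∀ v ∈ Dn j N, ¬ Slit v := by
  intro v hv
  rw [mem_Dn] at hv
  obtain ⟨⟨h1, -⟩, -⟩ := hv
  unfold Slit
  omega

theorem EE_P (j : ℕ) (hj1 : 1 ≤ j) (hj6 : j ≤ 6) (N : ℤ) (hN : 1 ≤ N) {l : List V}
    (hl : l ∈ EE (Dn j N)) :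
    (Wj j (l.headD (0, 0)) → -3 ≤ W l ∧ W l ≤ j - 2) ∧
    (¬ Wj j (l.headD (0, 0)) → l.headD (0, 0) ≠ (2, 0) → W l = -4 ∨ W l = j - 1) ∧
    (j ≤ 2 → l.headD (0, 0) = (2, 0) → W l = 1) := by
  unfold EE at hl
  rw [Finset.mem_filter, mem_All] at hl
  obtain ⟨h1, h2⟩ := hl
  have h3 : Val (Om (wp j N)) l := Val_mono (fun v hv => by
    rw [om_wp j hj1 hj6 N hN]
    exact (mem_Dn j N v).1 hv) h1
  have h4 : ¬ Om (wp j N) (l.headD (0, 0)) := by
    rw [om_wp j hj1 hj6 N hN, ← mem_Dn]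
    exact h2
  have hlen : 2 ≤ l.length := by
    match l, h1 with
    | [_, _], _ => simp
    | _ :: _ :: _ :: _, _ => simp
  exact idx j hj1 hj6 N hN (m := l.length - 2) (mem_P.2 ⟨h3, by omega⟩) h4

theorem exists_box (D : Finset V) : ∃ N : ℤ, 1 ≤ N ∧ ∀ v ∈ D, Hx N v := by
  refine ⟨∑ v ∈ D, (|v.1| + |v.2|) + 1, ?_, ?_⟩
  · have : 0 ≤ ∑ v ∈ D, (|v.1| + |v.2|) := Finset.sum_nonneg fun v _ => by positivity
    omega
  · intro v hv
    have h1 : |v.1| + |v.2| ≤ ∑ v ∈ D, (|v.1| + |v.2|) :=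
      Finset.single_le_sum (f := fun v : V => |v.1| + |v.2|) (fun v _ => by positivity) hv
    generalize ∑ v ∈ D, (|v.1| + |v.2|) = s at *
    have h2 := abs_le.1 (le_refl |v.1|)
    have h3 := abs_le.1 (le_refl |v.2|)
    have h4 := abs_nonneg v.1
    have h5 := abs_nonneg v.2
    unfold Hx
    omega

/-- finite subsets of the wedge -/
theorem EE_big {j : ℕ} {D : Finset V} (hD : ∀ v ∈ D, Wj j v) {l : List V} (hl : l ∈ EE D)
    (hz : ¬ Wj j (l.headD (0, 0))) : ∃ N : ℤ, 1 ≤ N ∧ l ∈ EE (Dn j N) := by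
  obtain ⟨N, hN, hb⟩ := exists_box D
  refine ⟨N, hN, ?_⟩
  unfold EE at hl ⊢
  rw [Finset.mem_filter, mem_All] at hl ⊢
  refine ⟨Val_mono (fun v hv => ?_) hl.1, ?_⟩
  · exact (mem_Dn j N v).2 ⟨hD v hv, hb v hv⟩
  · rw [mem_Dn]
    exact fun h => hz h.1

end Pool.Agent.V7H29.OL
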